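import Pool.Agent.Lib.G9.Lg
import Pool.Agent.Lib.G5.Q8

/-!
# G9 / Ct: the count for almost all `N` (row CT)

PROOF. `lgG k (A+1)` at `H` and at `H1 = ⌊δ H⌋ + 1`, `δ = δ(ε)` small (`w' (log Y)^C0 ≤ δ H ≤ H1` if `w' (log Y)^(C0+1) ≤ H`, `Y` large, so `C = C0 + 10`), both with `ε1 = ε1(ε)`. With `L = log H`:
(upper) `TH(H) ≤ TH(H1) + (LH(H)/log H1)`, as `LH(H) ≥ ∑_{H1 < p ≤ H} ... log H1`; (lower) `LH(H) ≤ log H · TH(H)`. `TH(H1) ≤ √H + (2/log H) LH(H1)` (primes `p ≤ √H`: at most `√H`; the others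
have `log p ≥ (log H)/2`), `LH(H1) ≤ 2 SS (1+sgK) H1/log Y`. `√H log H log Y ≤ (ε/8) H` because `H ≥ (log Y)^10`; `log H1 ≥ (1 - ε/8) log H` as `H1 ≥ δH`, `H` large. So
`|TH - SS sgK H/(log H log Y)| ≤ ε SS (1 + sgK) H/(log H log Y)` for even `N` (`SS ≥ 1`, `G5.q8`) outside two exceptional sets (that of `H1` in `(Y + H1, 3Y]` ⊇ `(Y+H, 3Y]`).
-/

set_option autoImplicit false

open Finset

namespace Pool.Agent.Lib.G9

open Pool.Agent.Lib.G3 (SS)
open Pool.Agent.Lib.G5 (sgK Rg2)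

private theorem ct_sgK (k w w' : ℕ) (hk : 2 ≤ k) : 0 ≤ sgK k w w' := by
  unfold Pool.Agent.Lib.G5.sgK Pool.Agent.Lib.G5.sg1 Pool.Agent.Lib.G5.esy
  have hk1 : (0 : ℝ) ≤ (k : ℝ) - 1 := by
    have : (2 : ℝ) ≤ k := by exact_mod_cast hk
    linarith
  exact div_nonneg (mul_nonneg (sum_nonneg fun p _ => by positivity)
    (sum_nonneg fun s _ => prod_nonneg fun p _ => by positivity)) hk1

private theorem ct_lp (n : ℕ) : 0 ≤ Pool.Agent.Lib.G3.lp n := by
  unfold Pool.Agent.Lib.G3.lp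
  split_ifs
  · exact Real.log_natCast_nonneg n
  · exact le_rfl

private theorem ct_low (k w w' H N : ℕ) : LH k w w' H N ≤ Real.log H * TH k w w' H N := by
  classical
  unfold LH TH
  rw [mul_comm, ← nsmul_eq_mul, ← sum_const, sum_filter]
  refine sum_le_sum fun p hp => ?_
  rw [mem_Icc] at hp
  by_cases h1 : p < N ∧ Pool.Agent.Lib.G5.EE k w w' (N - p)
  · rw [if_pos h1]
    unfold Pool.Agent.Lib.G3.lp
    by_cases h2 : p.Prime
    · rw [if_pos h2, if_pos ⟨h2, h1⟩]
      exact Real.log_le_log (by exact_mod_cast hp.1) (by exact_mod_cast hp.2)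
    · rw [if_neg h2, if_neg (fun h => h2 h.1)]
  · rw [if_neg h1, if_neg (fun h => h1 h.2)]

private theorem ct_nn (k w w' H N : ℕ) : 0 ≤ LH k w w' H N := by
  classical
  unfold LH
  refine sum_nonneg fun p _ => ?_
  split_ifs
  · exact ct_lp p
  · exact le_rfl

private theorem ct_up (k w w' R S N : ℕ) (hR : 1 ≤ R) :
    (TH k w w' S N : ℝ) * Real.log R ≤ TH k w w' R N * Real.log R + LH k w w' S N := by
  classical
  have hlR : 0 ≤ Real.log R := Real.log_natCast_nonneg R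
  set F : Finset ℕ := (Icc 1 S).filter fun p => R < p ∧ p.Prime ∧ p < N ∧ Pool.Agent.Lib.G5.EE k w w' (N - p) with hF
  have h1 : TH k w w' S N ≤ TH k w w' R N + F.card := by
    unfold TH
    refine le_trans (card_le_card ?_) (card_union_le _ _)
    intro p hp
    rw [mem_filter, mem_Icc] at hp
    rw [mem_union, hF, mem_filter, mem_filter, mem_Icc, mem_Icc]
    rcases le_or_gt p R with h | h
    · left
      exact ⟨⟨hp.1.1, h⟩, hp.2⟩
    · right
      exact ⟨hp.1, h, hp.2⟩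
  have h2 : (F.card : ℝ) * Real.log R ≤ LH k w w' S N := by
    unfold LH
    rw [← nsmul_eq_mul, ← sum_const]
    refine le_trans (sum_le_sum fun p hp => ?_) (sum_le_sum_of_subset_of_nonneg (filter_subset _ _) fun p _ _ => ?_)
    · rw [hF, mem_filter, mem_Icc] at hp
      rw [if_pos hp.2.2.2]
      unfold Pool.Agent.Lib.G3.lp
      rw [if_pos hp.2.2.1]
      exact Real.log_le_log (by exact_mod_cast hR) (by exact_mod_cast hp.2.1.le)
    · split_ifs
      · exact ct_lp p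
      · exact le_rfl
  have h3 : (TH k w w' S N : ℝ) ≤ TH k w w' R N + F.card := by exact_mod_cast h1
  have h4 := mul_le_mul_of_nonneg_right h3 hlR
  rw [add_mul] at h4
  linarith

private theorem ct_card (k w w' R N : ℕ) : (TH k w w' R N : ℝ) ≤ R := by
  classical
  unfold TH
  have : ((Icc 1 R).filter fun p => p.Prime ∧ p < N ∧ Pool.Agent.Lib.G5.EE k w w' (N - p)).card ≤ R := by
    refine (card_filter_le _ _).trans ?_
    rw [Nat.card_Icc]
    omega
  exact_mod_cast this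

private theorem ct_alg {S g H H1 L l e LHv LH1v TH TH1 R l1 lR : ℝ} (hS : 1 / 2 ≤ S) (hg : 0 ≤ g) (hH : 0 < H) (hL : 0 < L) (hl : 0 < l)
    (he : 0 < e) (he1 : e ≤ 1) (hl1 : 0 < l1) (hlR : 0 < lR)
    (h1 : |LHv - S * g * (H / l)| ≤ e / 8 * (S * (1 + g) * (H / l)))
    (h2 : LH1v ≤ 2 * (S * (1 + g) * (H1 / l))) (hH1 : H1 ≤ e / 32 * H)
    (h3 : LHv ≤ L * TH) (h4 : TH * l1 ≤ TH1 * l1 + LHv) (hLl : L ≤ (1 + e / 8) * l1)
    (h5 : TH1 * lR ≤ R * lR + LH1v) (hLR : L ≤ 2 * lR) (hR : R ≤ e / 16 * (H / (L * l))) :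
    |TH - S * g * (H / (L * l))| ≤ e * (S * (1 + g) * (H / (L * l))) := by
  set q : ℝ := H / (L * l) with hq
  have hq0 : 0 < q := by positivity
  have hHl : H / l = L * q := by
    rw [hq]; field_simp
  set G0 : ℝ := S * g * q with hG0
  set Z : ℝ := S * (1 + g) * q with hZ
  have hSg : 0 ≤ S * g := mul_nonneg (by linarith) hg
  have hG00 : 0 ≤ G0 := mul_nonneg hSg hq0.le
  have hGZ : G0 ≤ Z := by
    rw [hG0, hZ]
    exact mul_le_mul_of_nonneg_right (mul_le_mul_of_nonneg_left (by linarith) (by linarith)) hq0.le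
  have hSg1 : 1 / 2 ≤ S * (1 + g) := by
    have := mul_le_mul hS (by linarith : (1 : ℝ) ≤ 1 + g) (by norm_num) (by linarith)
    linarith
  have hqZ : q ≤ 2 * Z := by
    rw [hZ]
    have := mul_le_mul_of_nonneg_right hSg1 hq0.le
    linarith
  have hZ0 : 0 ≤ Z := by linarith
  have hx1 : S * g * (H / l) = L * G0 := by rw [hHl, hG0]; ring
  have hx2 : S * (1 + g) * (H / l) = L * Z := by rw [hHl, hZ]; ring
  rw [hx1, hx2] at h1
  have a1 : LHv ≤ L * (G0 + e / 8 * Z) := by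
    have := (abs_le.mp h1).2
    linarith
  have a1' : L * (G0 - e / 8 * Z) ≤ LHv := by
    have := (abs_le.mp h1).1
    linarith
  have blow : G0 - e / 8 * Z ≤ TH := le_of_mul_le_mul_left (a1'.trans h3) hL
  have hpos : 0 ≤ G0 + e / 8 * Z := by positivity
  have a2 : LHv / l1 ≤ (1 + e / 8) * (G0 + e / 8 * Z) := by
    rw [div_le_iff₀ hl1]
    refine a1.trans ?_
    have := mul_le_mul_of_nonneg_right hLl hpos
    linarith
  have a3 : LH1v / lR ≤ e / 8 * Z := by
    rw [div_le_iff₀ hlR]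
    have h6 : S * (1 + g) * (H1 / l) ≤ e / 32 * (L * Z) := by
      rw [← hx2]
      have h7 : H1 / l ≤ e / 32 * (H / l) := by
        rw [← mul_div_assoc]
        exact div_le_div_of_nonneg_right hH1 hl.le
      have h8 : 0 ≤ S * (1 + g) := by linarith
      calc S * (1 + g) * (H1 / l) ≤ S * (1 + g) * (e / 32 * (H / l)) := mul_le_mul_of_nonneg_left h7 h8
        _ = e / 32 * (S * (1 + g) * (H / l)) := by ring
    have h9 : L * Z ≤ 2 * lR * Z := mul_le_mul_of_nonneg_right hLR hZ0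
    have h10 : e / 32 * (L * Z) ≤ e / 32 * (2 * lR * Z) := mul_le_mul_of_nonneg_left h9 (by positivity)
    linarith
  have a4 : TH1 ≤ R + LH1v / lR := by
    have : TH1 - R ≤ LH1v / lR := by
      rw [le_div_iff₀ hlR]
      linarith
    linarith
  have a5 : TH ≤ TH1 + LHv / l1 := by
    have : TH - TH1 ≤ LHv / l1 := by
      rw [le_div_iff₀ hl1]
      linarith
    linarith
  have a6 : R ≤ e / 8 * Z := by
    have := mul_le_mul_of_nonneg_left hqZ (by positivity : (0 : ℝ) ≤ e / 16)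
    linarith
  have hup : TH ≤ G0 + e * Z := by
    have h11 : (1 + e / 8) * (G0 + e / 8 * Z) ≤ G0 + e / 8 * Z + (9 / 8) * (e / 8 * Z) := by
      have h12 : e / 8 * G0 ≤ e / 8 * Z := mul_le_mul_of_nonneg_left hGZ (by positivity)
      have h13 : e / 8 * (e / 8 * Z) ≤ 1 / 8 * (e / 8 * Z) := mul_le_mul_of_nonneg_right (by linarith) (by positivity)
      linarith
    have h14 : 0 ≤ e * Z := by positivity
    linarith
  rw [abs_le]
  constructor
  · have h14 : 0 ≤ e * Z := by positivity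
    linarith
  · linarith

theorem ctG (k A : ℕ) (hk : 2 ≤ k) : ∃ c10 : ℕ, ∀ c1 : ℕ, c10 ≤ c1 → ∃ C : ℕ, ∀ ε : ℝ, 0 < ε → ∃ (M : ℕ) (x0 : ℝ), ∀ Y : ℕ, x0 ≤ Y →
    ∀ w w' : ℕ, Rg2 (4 * Y) w w' c1 M → ∀ H : ℕ, (w' : ℝ) * (Real.log Y) ^ C ≤ H → H * H ≤ Y →
      (((Ioc (Y + H) (3 * Y)).filter fun N => Even N ∧ ε * (SS N * (1 + sgK k w w') * (H / (Real.log H * Real.log Y))) <
        |(TH k w w' H N : ℝ) - SS N * sgK k w w' * (H / (Real.log H * Real.log Y))|).card : ℝ) ≤ Y / (Real.log Y) ^ A := by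
  obtain ⟨c10, h0⟩ := lgG k (A + 1) hk
  refine ⟨c10, fun c1 hc1 => ?_⟩
  obtain ⟨C0, h0⟩ := h0 c1 hc1
  refine ⟨C0 + 10, fun ε hε => ?_⟩
  set e : ℝ := min ε 1 with he
  have he0 : 0 < e := lt_min hε one_pos
  have he1 : e ≤ 1 := min_le_right _ _
  have heε : e ≤ ε := min_le_left _ _
  obtain ⟨M, x0, h0⟩ := h0 (e / 8) (by positivity)
  set lam : ℝ := Real.log (64 / e) with hlam
  have h64 : 1 ≤ 64 / e := by
    rw [le_div_iff₀ he0]
    linarith
  have hlam0 : 0 ≤ lam := Real.log_nonneg h64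
  set B : ℝ := max (64 / e) (Real.exp (16 * lam / e + 1)) with hB
  refine ⟨M, max x0 (Real.exp B), ?_⟩
  intro Y hY w w' hRg H hwH hHH
  have hYx0 : x0 ≤ Y := (le_max_left _ _).trans hY
  have hYB : Real.exp B ≤ Y := (le_max_right _ _).trans hY
  have hY0 : (0 : ℝ) < Y := lt_of_lt_of_le (Real.exp_pos _) hYB
  set l : ℝ := Real.log Y with hl
  have hBl : B ≤ l := by
    rw [hl, Real.le_log_iff_exp_le hY0]
    exact hYB
  have hl64 : 64 / e ≤ l := (le_max_left _ _).trans hBl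
  have hlexp : Real.exp (16 * lam / e + 1) ≤ l := (le_max_right _ _).trans hBl
  have hl64' : 64 ≤ l := by
    have : 64 ≤ 64 / e := by
      rw [le_div_iff₀ he0]
      linarith
    linarith
  have hl0 : 0 < l := by linarith
  have hl1 : 1 ≤ l := by linarith
  -- sizes
  have hw1 : (1 : ℝ) ≤ w' := by
    have h1 : (1 : ℝ) ≤ (Real.log (4 * Y : ℕ)) ^ (c1 + 1) := by
      refine one_le_pow₀ ?_
      have h2 : Real.log Y ≤ Real.log (4 * Y : ℕ) := Real.log_le_log hY0 (by push_cast; linarith)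
      linarith
    have h2 : (w : ℝ) ≤ w' := by exact_mod_cast hRg.h2
    linarith [hRg.h1]
  have hH10 : l ^ 10 ≤ H := by
    have h1 : l ^ 10 ≤ l ^ (C0 + 10) := pow_le_pow_right₀ hl1 (by omega)
    have h2 : 1 * l ^ (C0 + 10) ≤ (w' : ℝ) * l ^ (C0 + 10) := mul_le_mul_of_nonneg_right hw1 (by positivity)
    linarith
  have hl10 : 0 < l ^ 10 := by positivity
  have hHpos : (0 : ℝ) < H := by linarith
  have hHN1 : 1 ≤ H := by
    have : 0 < H := by exact_mod_cast hHpos
    exact this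
  have hl_le_pow : l ≤ l ^ 10 := by
    calc l = l ^ 1 := (pow_one l).symm
      _ ≤ l ^ 10 := pow_le_pow_right₀ hl1 (by norm_num)
  have hHl : l ≤ H := hl_le_pow.trans hH10
  have hHYr : (H : ℝ) * H ≤ Y := by exact_mod_cast hHH
  set L : ℝ := Real.log H with hL
  have hLlow : 16 * lam / e + 1 ≤ L := by
    rw [hL, Real.le_log_iff_exp_le hHpos]
    linarith
  have h16 : 0 ≤ 16 * lam / e := by positivity
  have hL1 : 1 ≤ L := by linarith
  have hLl : 2 * L ≤ l := by
    have h1 : Real.log ((H : ℝ) * H) ≤ Real.log Y := Real.log_le_log (by positivity) hHYr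
    rw [Real.log_mul hHpos.ne' hHpos.ne'] at h1
    linarith
  -- δ = e / 64, H1
  set H1 : ℕ := ⌊e / 64 * (H : ℝ)⌋₊ + 1 with hH1
  have hdH1 : e / 64 * (H : ℝ) ≤ H1 := by
    rw [hH1]
    push_cast
    exact (Nat.lt_floor_add_one _).le
  have hdH : 1 ≤ e / 64 * (H : ℝ) := by
    have h1 : 64 / e ≤ H := hl64.trans hHl
    rw [div_le_iff₀ he0] at h1
    linarith
  have hH1u : (H1 : ℝ) ≤ e / 32 * H := by
    rw [hH1]
    push_cast
    have := Nat.floor_le (by positivity : (0 : ℝ) ≤ e / 64 * (H : ℝ))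
    linarith
  have hH1H : (H1 : ℝ) ≤ H := by
    exact hH1u.trans (mul_le_of_le_one_left hHpos.le (by linarith))
  have hH1HN : H1 ≤ H := by exact_mod_cast hH1H
  have hH11 : 1 ≤ H1 := by omega
  have hwH0 : (w' : ℝ) * l ^ C0 ≤ H := by
    refine le_trans ?_ hwH
    exact mul_le_mul_of_nonneg_left (pow_le_pow_right₀ hl1 (by omega)) (by positivity)
  have hwH1 : (w' : ℝ) * l ^ C0 ≤ H1 := by
    refine le_trans ?_ hdH1
    have h1 : (w' : ℝ) * l ^ C0 * l ^ 10 ≤ H := by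
      rw [mul_assoc, ← pow_add]
      exact hwH
    have h2 : (w' : ℝ) * l ^ C0 * (64 / e) ≤ (w' : ℝ) * l ^ C0 * l ^ 10 :=
      mul_le_mul_of_nonneg_left (hl64.trans hl_le_pow) (by positivity)
    have h3 : (w' : ℝ) * l ^ C0 * (64 / e) ≤ H := h2.trans h1
    have h4 : (w' : ℝ) * l ^ C0 * (64 / e) = ((w' : ℝ) * l ^ C0 * 64) / e := by ring
    rw [h4, div_le_iff₀ he0] at h3
    linarith
  have hA := h0 Y hYx0 w w' hRg H hwH0 hHH
  have hB2 := h0 Y hYx0 w w' hRg H1 hwH1 ((Nat.mul_le_mul hH1HN hH1HN).trans hHH)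
  set FA := (Ioc (Y + H) (3 * Y)).filter fun N => Even N ∧ e / 8 * (SS N * (1 + sgK k w w') * (H / l)) <
        |LH k w w' H N - SS N * sgK k w w' * (H / l)| with hFA
  set FB := (Ioc (Y + H1) (3 * Y)).filter fun N => Even N ∧ e / 8 * (SS N * (1 + sgK k w w') * (H1 / l)) <
        |LH k w w' H1 N - SS N * sgK k w w' * (H1 / l)| with hFB
  have hg : 0 ≤ sgK k w w' := ct_sgK k w w' hk
  -- R
  set R : ℕ := ⌈Real.sqrt H⌉₊ with hR
  have hsq0 : 0 < Real.sqrt H := Real.sqrt_pos.mpr hHpos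
  have hR1 : 1 ≤ R := Nat.ceil_pos.mpr hsq0
  have hRs : Real.sqrt H ≤ R := Nat.le_ceil _
  have hRu : (R : ℝ) ≤ Real.sqrt H + 1 := (Nat.ceil_lt_add_one hsq0.le).le
  have hsql : l ^ 5 ≤ Real.sqrt H := by
    rw [Real.le_sqrt (by positivity) hHpos.le]
    have : (l ^ 5) ^ 2 = l ^ 10 := by ring
    rw [this]
    exact hH10
  have hlogR : L ≤ 2 * Real.log R := by
    have h1 : Real.log (Real.sqrt H) ≤ Real.log R := Real.log_le_log hsq0 hRs
    rw [Real.log_sqrt hHpos.le] at h1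
    linarith
  have hlogH1 : L - lam ≤ Real.log H1 := by
    have h1 : Real.log (e / 64 * H) ≤ Real.log H1 := Real.log_le_log (by positivity) hdH1
    rw [Real.log_mul (by positivity) hHpos.ne'] at h1
    have h2 : Real.log (e / 64) = -lam := by
      rw [hlam, ← Real.log_inv, inv_div]
    linarith
  have hlamL : lam * (16 / e) + 1 ≤ L := by
    have : lam * (16 / e) = 16 * lam / e := by ring
    linarith
  have h16e : 16 ≤ 16 / e := by
    rw [le_div_iff₀ he0]
    linarith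
  have hlam16 : 16 * lam ≤ L - 1 := by
    have := mul_le_mul_of_nonneg_left h16e hlam0
    linarith
  have hl1pos : 0 < Real.log H1 := by linarith
  have hLH1 : L ≤ (1 + e / 8) * Real.log H1 := by
    have h1 : 16 * lam / e ≤ L := by linarith
    rw [div_le_iff₀ he0] at h1
    have h2 : (1 + e / 8) * (L - lam) ≤ (1 + e / 8) * Real.log H1 := mul_le_mul_of_nonneg_left hlogH1 (by linarith)
    have h3 : L ≤ (1 + e / 8) * (L - lam) := by
      have h3a : e / 8 * (L / 2) ≤ e / 8 * (L - lam) := mul_le_mul_of_nonneg_left (by linarith) (by positivity)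
      linarith
    linarith
  have hRq : (R : ℝ) ≤ e / 16 * (H / (L * l)) := by
    have h1 : (R : ℝ) ≤ 2 * Real.sqrt H := by
      have : 1 ≤ Real.sqrt H := (one_le_pow₀ hl1).trans hsql
      linarith
    refine h1.trans ?_
    rw [← mul_div_assoc, le_div_iff₀ (by positivity)]
    have h2 : L * l ≤ l ^ 2 := by
      have := mul_le_mul_of_nonneg_right (by linarith : L ≤ l) hl0.le
      linarith
    have h3 : 32 * l ^ 2 ≤ e * l ^ 5 := by
      have h4 : 32 ≤ e * l := by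
        rw [div_le_iff₀ he0] at hl64
        linarith
      have h5 : l ^ 2 * (32 : ℝ) ≤ l ^ 2 * (e * l) := mul_le_mul_of_nonneg_left h4 (by positivity)
      have h6 : l ^ 3 ≤ l ^ 5 := pow_le_pow_right₀ hl1 (by norm_num)
      have h7 : e * l ^ 3 ≤ e * l ^ 5 := mul_le_mul_of_nonneg_left h6 he0.le
      linarith
    have h8 : 32 * l ^ 2 ≤ e * Real.sqrt H := h3.trans (mul_le_mul_of_nonneg_left hsql he0.le)
    have h9 : Real.sqrt H * Real.sqrt H = H := Real.mul_self_sqrt hHpos.le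
    calc 2 * Real.sqrt H * (L * l) ≤ 2 * Real.sqrt H * l ^ 2 := mul_le_mul_of_nonneg_left h2 (by positivity)
      _ = 1 / 16 * (Real.sqrt H * (32 * l ^ 2)) := by ring
      _ ≤ 1 / 16 * (Real.sqrt H * (e * Real.sqrt H)) := by
          refine mul_le_mul_of_nonneg_left (mul_le_mul_of_nonneg_left h8 hsq0.le) (by norm_num)
      _ = e / 16 * (Real.sqrt H * Real.sqrt H) := by ring
      _ = e / 16 * H := by rw [h9]
  have hsub : ((Ioc (Y + H) (3 * Y)).filter fun N => Even N ∧ ε * (SS N * (1 + sgK k w w') * (H / (L * l))) <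
        |(TH k w w' H N : ℝ) - SS N * sgK k w w' * (H / (L * l))|) ⊆ FA ∪ FB := by
    intro N hN
    rw [mem_filter, mem_Ioc] at hN
    rw [mem_union]
    by_contra hcon
    rw [not_or] at hcon
    obtain ⟨hcA, hcB⟩ := hcon
    rw [hFA, mem_filter, mem_Ioc] at hcA
    rw [hFB, mem_filter, mem_Ioc] at hcB
    have hS : 1 / 2 ≤ SS N := Pool.Agent.Lib.G5.q8 N hN.2.1
    have b1 : |LH k w w' H N - SS N * sgK k w w' * (H / l)| ≤ e / 8 * (SS N * (1 + sgK k w w') * (H / l)) := by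
      by_contra h
      exact hcA ⟨hN.1, hN.2.1, lt_of_not_ge h⟩
    have b2 : |LH k w w' H1 N - SS N * sgK k w w' * (H1 / l)| ≤ e / 8 * (SS N * (1 + sgK k w w') * (H1 / l)) := by
      by_contra h
      exact hcB ⟨⟨by omega, hN.1.2⟩, hN.2.1, lt_of_not_ge h⟩
    have hH1l : 0 ≤ (H1 : ℝ) / l := by positivity
    have b3 : LH k w w' H1 N ≤ 2 * (SS N * (1 + sgK k w w') * (H1 / l)) := by
      have h1 := (abs_le.mp b2).2
      have h2 : SS N * sgK k w w' * (H1 / l) ≤ SS N * (1 + sgK k w w') * (H1 / l) := by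
        exact mul_le_mul_of_nonneg_right (mul_le_mul_of_nonneg_left (by linarith) (by linarith)) hH1l
      have h3 : 0 ≤ SS N * (1 + sgK k w w') * (H1 / l) := by
        have : 0 ≤ SS N * (1 + sgK k w w') := mul_nonneg (by linarith) (by linarith)
        exact mul_nonneg this hH1l
      have h4 : e / 8 * (SS N * (1 + sgK k w w') * (H1 / l)) ≤ 1 * (SS N * (1 + sgK k w w') * (H1 / l)) :=
        mul_le_mul_of_nonneg_right (by linarith) h3
      linarith
    have b4 := ct_low k w w' H N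
    have b5 := ct_up k w w' H1 H N hH11
    have b6 := ct_up k w w' R H1 N hR1
    have b7 : (TH k w w' H1 N : ℝ) * Real.log R ≤ R * Real.log R + LH k w w' H1 N := by
      have h1 := mul_le_mul_of_nonneg_right (ct_card k w w' R N) (Real.log_natCast_nonneg R)
      linarith
    have hfin := ct_alg hS hg hHpos (by linarith : 0 < L) hl0 he0 he1 hl1pos (by linarith : 0 < Real.log R)
      b1 b3 hH1u b4 b5 hLH1 b7 hlogR hRq
    have h3 : 0 ≤ SS N * (1 + sgK k w w') * (H / (L * l)) := by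
      have : 0 ≤ SS N * (1 + sgK k w w') := mul_nonneg (by linarith) (by linarith)
      exact mul_nonneg this (by positivity)
    have h4 : e * (SS N * (1 + sgK k w w') * (H / (L * l))) ≤ ε * (SS N * (1 + sgK k w w') * (H / (L * l))) :=
      mul_le_mul_of_nonneg_right heε h3
    linarith [hN.2.2]
  have hcard : ((((Ioc (Y + H) (3 * Y)).filter fun N => Even N ∧ ε * (SS N * (1 + sgK k w w') * (H / (L * l))) <
        |(TH k w w' H N : ℝ) - SS N * sgK k w w' * (H / (L * l))|).card : ℕ) : ℝ) ≤ FA.card + FB.card := by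
    exact_mod_cast (card_le_card hsub).trans (card_union_le _ _)
  refine hcard.trans ?_
  have h1 : (FA.card : ℝ) + FB.card ≤ Y / l ^ (A + 1) + Y / l ^ (A + 1) := add_le_add hA hB2
  refine h1.trans ?_
  have h2 : (Y : ℝ) / l ^ A = Y / l ^ (A + 1) * l := by
    rw [pow_succ]
    field_simp
  rw [h2]
  have h3 : 0 ≤ (Y : ℝ) / l ^ (A + 1) := by positivity
  have h4 := mul_le_mul_of_nonneg_left (by linarith : (2 : ℝ) ≤ l) h3
  linarith

end Pool.Agent.Lib.G9
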