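import Pool.Agent.Lib.VK.WVar
import Pool.Agent.Lib.VK.WPl
import Pool.Agent.Lib.VK.WBd

/-!
# G9: a tiny prime plus a product of exactly `k` primes: definitions
-/

set_option autoImplicit false

open Finset

namespace Pool.Agent.Lib.G9

open Pool.Agent.Lib.G3 (lp)
open Pool.Agent.Lib.G5 (EE)
open Pool.Agent.Lib.VKT (Fk ram)

open Classical in
/-- number of the primes `p ≤ H`, `p < N`, such that `N - p` is squarefree with exactly `k` prime factors, all larger than `w`, exactly one
larger than `w'` -/
noncomputable def TH (k w w' H N : ℕ) : ℕ := ((Icc 1 H).filter fun p => p.Prime ∧ p < N ∧ EE k w w' (N - p)).card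

open Classical in
/-- the same with the weight `log p` -/
noncomputable def LH (k w w' H N : ℕ) : ℝ := ∑ p ∈ Icc 1 H, if p < N ∧ EE k w w' (N - p) then lp p else 0

/-- the weighted count with the function `Fk` -/
noncomputable def WH (Y k w w' H N : ℕ) : ℝ := ∑ p ∈ Icc 1 H, lp p * Fk Y k w w' (N - p)

/-- the primes up to `H` against the truncated Ramanujan series -/
noncomputable def RH (Q H N : ℕ) : ℝ := ∑ p ∈ Icc 1 H, lp p * ram Q (N - p)

end Pool.Agent.Lib.G9
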