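import Pool.Agent.Lib.G9.Defs
import Pool.Agent.Lib.VK.WUnw

/-!
# G9 / Fi: `Fk` and the indicator of `EE` (row FI)

PROOF. This is the private lemma `wunw_pt` of VK/WUnw.lean for `k ≥ 2` (there `Gx Y w w' k n = Fk Y k w w' n`; the constant `M` depends on `K` and `ε`): copy it with the private lemmas
it uses (`wunw_bB`, `wunw_bB0`, `wunw_log`, ...), case `k = 1` not needed; `M = max (1000 K) ⌈4 K/ε⌉`.
-/

set_option autoImplicit false

open Finset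

namespace Pool.Agent.Lib.G9

open Pool.Agent.Lib.G5 (PP EE Rg2)
open Pool.Agent.Lib.VKT (Fk IY Fk2_le)
open Pool.Agent.Lib.G5 (bS aS SI Ix bB)
open Pool.Agent.Lib.G3 (lp)

private theorem wunw_bB {k w w' : ℕ} (hk : 2 ≤ k) (b : ℕ × ℕ × ℕ) (n : ℕ) : 0 ≤ bB k w w' b n := by
  have hk' : (0 : ℝ) < (k : ℝ) - 1 := by
    have : (2 : ℝ) ≤ k := by exact_mod_cast hk
    linarith
  unfold bB bS
  refine Finset.sum_nonneg fun p _ => Finset.sum_nonneg fun r _ => Finset.sum_nonneg fun m _ => ?_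
  split_ifs
  · refine mul_nonneg ?_ (div_nonneg ?_ (Real.log_natCast_nonneg _))
    · unfold aS
      split_ifs
      · positivity
      · exact le_rfl
    · unfold Pool.Agent.Lib.G3.lp
      split_ifs
      · exact Real.log_natCast_nonneg _
      · exact le_rfl
  · exact le_rfl

private theorem wunw_bB0 {k w w' : ℕ} (b : ℕ × ℕ × ℕ) {n : ℕ}
    (h : 8 * (2 ^ b.1 * 2 ^ b.2.1 * 2 ^ b.2.2) < n) : bB k w w' b n = 0 := by
  unfold bB bS
  refine Finset.sum_eq_zero fun p hp => Finset.sum_eq_zero fun r hr => Finset.sum_eq_zero fun m hm => ?_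
  rw [if_neg]
  intro he
  unfold SI at hp
  rw [mem_filter] at hp
  unfold Pool.Agent.Lib.G3.pr at hr
  rw [mem_filter, mem_Ioc] at hr
  rw [mem_Ico] at hm
  have h1 : p * m * r ≤ 2 ^ (b.1 + 1) * (2 * 2 ^ b.2.1) * (2 * 2 ^ b.2.2) :=
    Nat.mul_le_mul (Nat.mul_le_mul hp.2.2 hm.2.le) hr.1.2
  have h2 : 2 ^ (b.1 + 1) * (2 * 2 ^ b.2.1) * (2 * 2 ^ b.2.2) = 8 * (2 ^ b.1 * 2 ^ b.2.1 * 2 ^ b.2.2) := by
    rw [pow_succ]
    ring
  omega

private theorem wunw_log {Y k w w' : ℕ} {b : ℕ × ℕ × ℕ} (hk : 2 ≤ k) (hb : b ∈ IY Y k w w') (hY : 1 ≤ Y) :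
    Real.log Y ≤ 2 + k * Real.log w' + Real.log ((2 * 2 ^ b.2.2 : ℕ) : ℝ) := by
  unfold IY at hb
  rw [mem_filter] at hb
  obtain ⟨hb, hb8⟩ := hb
  unfold Ix at hb
  rw [mem_filter] at hb
  obtain ⟨-, ⟨p, hp⟩, hj, -, -⟩ := hb
  unfold SI PP at hp
  rw [mem_filter, mem_filter, mem_Ioc] at hp
  have hi : 2 ^ b.1 ≤ w' := by omega
  have hw0 : 1 ≤ w' := le_trans Nat.one_le_two_pow hi
  have h1 : Y ≤ 4 * w' ^ (k - 1) * (2 * 2 ^ b.2.2) := by
    have h2 : 2 ^ b.1 * 2 ^ b.2.1 ≤ w' * w' ^ (k - 2) := Nat.mul_le_mul hi hj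
    have h3 : w' * w' ^ (k - 2) = w' ^ (k - 1) := by
      rw [mul_comm, ← pow_succ]
      congr 1
      omega
    rw [h3] at h2
    calc Y ≤ 8 * (2 ^ b.1 * 2 ^ b.2.1 * 2 ^ b.2.2) := hb8
      _ ≤ 8 * (w' ^ (k - 1) * 2 ^ b.2.2) := Nat.mul_le_mul_left 8 (Nat.mul_le_mul_right _ h2)
      _ = 4 * w' ^ (k - 1) * (2 * 2 ^ b.2.2) := by ring
  have hYp : (0 : ℝ) < Y := by exact_mod_cast hY
  have hw0' : (0 : ℝ) < w' := by exact_mod_cast hw0
  have h4 : (Y : ℝ) ≤ ((4 * w' ^ (k - 1) * (2 * 2 ^ b.2.2) : ℕ) : ℝ) := by exact_mod_cast h1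
  have h5 := Real.log_le_log hYp h4
  have hg : (0 : ℝ) < ((2 * 2 ^ b.2.2 : ℕ) : ℝ) := by
    have : 0 < 2 * 2 ^ b.2.2 := by positivity
    exact_mod_cast this
  have h6 : Real.log ((4 * w' ^ (k - 1) * (2 * 2 ^ b.2.2) : ℕ) : ℝ) =
      Real.log 4 + ((k - 1 : ℕ) : ℝ) * Real.log w' + Real.log ((2 * 2 ^ b.2.2 : ℕ) : ℝ) := by
    rw [Nat.cast_mul, Nat.cast_mul, Nat.cast_pow, Real.log_mul (by positivity) hg.ne', Real.log_mul (by norm_num) (by positivity),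
      Real.log_pow]
    norm_num
  have h7 : Real.log 4 ≤ 2 := by
    have : Real.log 4 = 2 * Real.log 2 := by
      rw [show (4 : ℝ) = 2 ^ 2 by norm_num, Real.log_pow]; norm_num
    rw [this]
    have := Real.log_two_lt_d9
    linarith
  have h8 : ((k - 1 : ℕ) : ℝ) * Real.log w' ≤ k * Real.log w' := by
    refine mul_le_mul_of_nonneg_right ?_ (Real.log_natCast_nonneg _)
    exact_mod_cast Nat.sub_le k 1
  linarith

/-- the pointwise bounds -/
private theorem wunw_pt (k K c1 : ℕ) (hk2 : 2 ≤ k) (hkK : k ≤ K) (η : ℝ) (hη : 0 < η) (M : ℕ) (hM : 1000 * K ≤ M)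
    (hMη : 4 * (K : ℝ) ≤ η * M) : ∃ x0 : ℝ, ∀ Y w w' : ℕ, x0 ≤ Y → Rg2 (4 * Y) w w' c1 M → ∀ n : ℕ,
    Y < n → n ≤ 3 * Y → (0 ≤ Fk Y k w w' n ∧ Fk Y k w w' n ≤ 1) ∧
      (EE k w w' n → 1 - η ≤ Fk Y k w w' n) ∧
      (¬ EE k w w' n → Fk Y k w w' n ≠ 0 → ∃ p ∈ PP w w', p ^ 2 ∣ n) := by
  classical
  obtain ⟨x1, hx1⟩ := Fk2_le k c1
  obtain ⟨x2, hx2⟩ := Pool.Agent.Lib.G5.r4 (max k 2) 3 c1 (le_max_right k 2)
  refine ⟨max (max x1 |x2|) (max (Real.exp (18 / η)) (Real.exp 1296)), fun Y w w' hY hR n hn1 hn3 => ?_⟩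
  have hY1 : x1 ≤ Y := (le_max_left _ _).trans ((le_max_left _ _).trans hY)
  have hY2 : |x2| ≤ Y := (le_max_right _ _).trans ((le_max_left _ _).trans hY)
  have hY3 : Real.exp (18 / η) ≤ Y := (le_max_left _ _).trans ((le_max_right _ _).trans hY)
  have hY4 : Real.exp 1296 ≤ Y := (le_max_right _ _).trans ((le_max_right _ _).trans hY)
  have hYpos : (0 : ℝ) < Y := lt_of_lt_of_le (Real.exp_pos _) hY4
  have hYnat : 1 ≤ Y := by exact_mod_cast hYpos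
  set L : ℝ := Real.log Y with hLdef
  have hL : (1296 : ℝ) ≤ L := by
    rw [hLdef, Real.le_log_iff_exp_le hYpos]; exact hY4
  have hLη : 18 / η ≤ L := by
    rw [hLdef, Real.le_log_iff_exp_le hYpos]; exact hY3
  have hLpos : (0 : ℝ) < L := by linarith
  have h9 : 9 / L ≤ η / 2 := by
    rw [div_le_iff₀ hη] at hLη
    rw [div_le_iff₀ hLpos]
    linarith
  have hlog32 : Real.log 32 ≤ 5 := by
    have : Real.log 32 = 5 * Real.log 2 := by
      rw [show (32 : ℝ) = 2 ^ 5 by norm_num, Real.log_pow]; norm_num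
    rw [this]
    have := Real.log_two_lt_d9
    linarith
  have hX : Real.log ((32 * Y : ℕ) : ℝ) = Real.log 32 + L := by
    rw [Nat.cast_mul, Real.log_mul (by norm_num) hYpos.ne']
    norm_num
    rfl
  have hlog32' : 0 ≤ Real.log 32 := Real.log_nonneg (by norm_num)
  have hXpos : 0 < Real.log ((32 * Y : ℕ) : ℝ) := by rw [hX]; linarith
  have hX5 : Real.log ((32 * Y : ℕ) : ℝ) ≤ L + 5 := by rw [hX]; linarith
  have hlog4 : Real.log 4 ≤ 2 := by
    have : Real.log 4 = 2 * Real.log 2 := by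
      rw [show (4 : ℝ) = 2 ^ 2 by norm_num, Real.log_pow]; norm_num
    rw [this]
    have := Real.log_two_lt_d9
    linarith
  have hlog4' : 0 ≤ Real.log 4 := Real.log_nonneg (by norm_num)
  have h4Y : Real.log ((4 * Y : ℕ) : ℝ) = Real.log 4 + L := by
    rw [Nat.cast_mul, Real.log_mul (by norm_num) hYpos.ne']
    norm_num
    rfl
  have h4Ypos : 0 < Real.log ((4 * Y : ℕ) : ℝ) := by rw [h4Y]; linarith
  have h4YL : L ≤ Real.log ((4 * Y : ℕ) : ℝ) := by rw [h4Y]; linarith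
  have h4Y2 : Real.log ((4 * Y : ℕ) : ℝ) ≤ 2 * L := by rw [h4Y]; linarith
  have hw'1 : 1 ≤ w' := by
    have h1 : (1 : ℝ) ≤ w := le_trans (one_le_pow₀ (by linarith)) hR.h1
    have h2 : 1 ≤ w := by exact_mod_cast h1
    exact h2.trans hR.h2
  have hmono : ∀ j : ℕ, j ≤ M → Rg2 (4 * Y) w w' c1 j := fun j hj =>
    ⟨hR.h1, hR.h2, (Nat.pow_le_pow_right hw'1 hj).trans hR.h3⟩
  have hw'Y : w' ≤ Y := by
    have h1 : w' ^ 2 ≤ 4 * Y := (Nat.pow_le_pow_right hw'1 (by omega)).trans hR.h3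
    have h2 : 4 ≤ Y := by
      have h3 : (4 : ℝ) ≤ Y := by
        have := Real.add_one_le_exp (1296 : ℝ)
        linarith
      exact_mod_cast h3
    by_contra h3
    have h4 : Y + 1 ≤ w' := by omega
    have h5 : (Y + 1) ^ 2 ≤ w' ^ 2 := Nat.pow_le_pow_left h4 2
    nlinarith
  have hnX : n ≤ 32 * Y := by omega
  have hnpos : (0 : ℝ) < (n : ℝ) := by
    have : 0 < n := by omega
    exact_mod_cast this
  have hRk : Rg2 (4 * Y) w w' c1 (1000 * k) := hmono _ (by omega)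
  obtain ⟨hF0, hF1, -⟩ := hx1 Y hY1 w w' hRk k hk2 le_rfl n
  have hx2' : x2 ≤ ((4 * Y : ℕ) : ℝ) := by
    have := le_abs_self x2
    push_cast
    linarith
  rw [max_eq_left hk2] at hx2
  obtain ⟨-, hqb, hqc⟩ := hx2 (4 * Y) hx2' w w' hRk n (by omega)
  have hsum : ∑ b ∈ Ix (4 * Y) 3 k w w', bB k w w' b n = ∑ b ∈ IY Y k w w', bB k w w' b n := by
    unfold IY
    rw [Finset.sum_filter]
    refine sum_congr rfl fun b _ => ?_
    by_cases hb : Y ≤ 8 * (2 ^ b.1 * 2 ^ b.2.1 * 2 ^ b.2.2)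
    · rw [if_pos hb]
    · rw [if_neg hb]
      exact wunw_bB0 b (by omega)
  have hnn := fun b => wunw_bB (w := w) (w' := w') hk2 b n
  refine ⟨⟨hF0, hF1⟩, fun hE => ?_, fun hE hne => ?_⟩
  · have h1 : 1 - 2 / Real.log ((4 * Y : ℕ) : ℝ) ≤ ∑ b ∈ IY Y k w w', bB k w w' b n := by
      rw [← hsum]
      refine hqc hE ?_ (by omega)
      rw [div_le_iff₀ (by positivity)]
      have h2 : (32 : ℝ) ≤ (Real.log ((4 * Y : ℕ) : ℝ)) ^ 3 := by
        calc (32 : ℝ) ≤ 1296 ^ 3 := by norm_num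
          _ ≤ _ := pow_le_pow_left₀ (by norm_num) (by linarith) 3
      have h3 : (Y : ℝ) ≤ n := by exact_mod_cast hn1.le
      calc 8 * ((4 * Y : ℕ) : ℝ) = Y * 32 := by push_cast; ring
        _ ≤ n * (Real.log ((4 * Y : ℕ) : ℝ)) ^ 3 := mul_le_mul h3 h2 (by norm_num) (Nat.cast_nonneg _)
    set D' : ℝ := η / 2 + 7 / L with hD'
    have hD'L : D' * L = η / 2 * L + 7 := by
      rw [hD']; field_simp
    have hD'0 : 0 ≤ D' := by rw [hD']; positivity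
    have hDD : D' + 2 / L ≤ η := by
      have h2 : 7 / L + 2 / L = 9 / L := by rw [← add_div]; norm_num
      rw [hD']
      linarith
    have hcoef : ∀ b ∈ IY Y k w w', 1 - D' ≤ Real.log ((2 * 2 ^ b.2.2 : ℕ) : ℝ) / Real.log ((32 * Y : ℕ) : ℝ) := by
      intro b hb
      have h2 := wunw_log hk2 hb hYnat
      have hg0 : 0 ≤ Real.log ((2 * 2 ^ b.2.2 : ℕ) : ℝ) := Real.log_natCast_nonneg _
      have hlw0 : 0 ≤ Real.log (w' : ℝ) := Real.log_natCast_nonneg _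
      have hlw : (M : ℝ) * Real.log (w' : ℝ) ≤ 2 * L := by
        have hw0 : (0 : ℝ) < w' := by exact_mod_cast hw'1
        have h3 : ((w' : ℝ)) ^ M ≤ ((4 * Y : ℕ) : ℝ) := by exact_mod_cast hR.h3
        have h4 := Real.log_le_log (by positivity) h3
        rw [Real.log_pow] at h4
        exact h4.trans h4Y2
      have h5 : (k : ℝ) * Real.log w' ≤ η / 2 * L := by
        have h6 : (k : ℝ) ≤ K := by exact_mod_cast hkK
        have h7 : (k : ℝ) * Real.log w' ≤ K * Real.log w' := mul_le_mul_of_nonneg_right h6 hlw0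
        have h8 : 4 * (K : ℝ) * Real.log w' ≤ η * M * Real.log w' := mul_le_mul_of_nonneg_right hMη hlw0
        have h10 : η * (M * Real.log w') ≤ η * (2 * L) := mul_le_mul_of_nonneg_left hlw hη.le
        nlinarith
      rw [le_div_iff₀ hXpos]
      by_cases hD1 : D' ≤ 1
      · have h6 : (1 - D') * Real.log ((32 * Y : ℕ) : ℝ) ≤ (1 - D') * (L + 5) :=
          mul_le_mul_of_nonneg_left hX5 (by linarith)
        have h7 : (1 - D') * (L + 5) = L + 5 - D' * L - 5 * D' := by ring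
        rw [hD'L] at h7
        linarith
      · have h6 : (1 - D') * Real.log ((32 * Y : ℕ) : ℝ) ≤ 0 :=
          mul_nonpos_of_nonpos_of_nonneg (by linarith) hXpos.le
        linarith
    have h8 : (1 - D') * ∑ b ∈ IY Y k w w', bB k w w' b n ≤ Fk Y k w w' n := by
      unfold Fk
      rw [Finset.mul_sum]
      exact Finset.sum_le_sum fun b hb => mul_le_mul_of_nonneg_right (hcoef b hb) (hnn b)
    have h9' : 2 / Real.log ((4 * Y : ℕ) : ℝ) ≤ 2 / L := by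
      rw [div_le_div_iff_of_pos_left (by norm_num) h4Ypos hLpos]
      exact h4YL
    have h10 : 0 ≤ 2 / L := by positivity
    by_cases hD1 : D' ≤ 1
    · have h11 : (1 - D') * (1 - 2 / L) ≤ (1 - D') * ∑ b ∈ IY Y k w w', bB k w w' b n :=
        mul_le_mul_of_nonneg_left (by linarith) (by linarith)
      have h12 : 0 ≤ D' * (2 / L) := mul_nonneg hD'0 h10
      have h13 : (1 - D') * (1 - 2 / L) = 1 - (D' + 2 / L) + D' * (2 / L) := by ring
      linarith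
    · linarith
  · have h1 : ∑ b ∈ Ix (4 * Y) 3 k w w', bB k w w' b n ≠ 0 := by
      rw [hsum]
      intro h0
      apply hne
      unfold Fk
      refine Finset.sum_eq_zero fun b hb => ?_
      rw [(Finset.sum_eq_zero_iff_of_nonneg fun b _ => hnn b).1 h0 b hb, mul_zero]
    rcases hqb h1 with h | h
    · exact absurd h hE
    · exact h

theorem fiG (k c1 : ℕ) (hk : 2 ≤ k) (ε : ℝ) (hε : 0 < ε) : ∃ (M : ℕ) (x0 : ℝ), ∀ Y w w' : ℕ, x0 ≤ Y → Rg2 (4 * Y) w w' c1 M → ∀ n : ℕ,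
    Y < n → n ≤ 3 * Y → (0 ≤ Fk Y k w w' n ∧ Fk Y k w w' n ≤ 1) ∧ (EE k w w' n → 1 - ε ≤ Fk Y k w w' n) ∧
      (¬ EE k w w' n → Fk Y k w w' n ≠ 0 → ∃ p ∈ PP w w', p ^ 2 ∣ n) := by
  set M : ℕ := max (1000 * k) ⌈4 * (k : ℝ) / ε⌉₊ with hM
  have h1 : 4 * (k : ℝ) ≤ ε * M := by
    have h3 : ⌈4 * (k : ℝ) / ε⌉₊ ≤ M := le_max_right _ _
    have h2 : 4 * (k : ℝ) / ε ≤ (M : ℝ) := (Nat.le_ceil _).trans (Nat.cast_le.2 h3)
    rw [div_le_iff₀ hε] at h2
    linarith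
  obtain ⟨x0, hx0⟩ := wunw_pt k k c1 hk le_rfl ε hε M (le_max_left _ _) h1
  exact ⟨M, x0, hx0⟩

end Pool.Agent.Lib.G9
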