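import Pool.Agent.Lib.G9.Ct
import Pool.Agent.Lib.G6.Mw
import Pool.Agent.Lib.G5.Q8

/-!
# G9 / Fin: real thresholds, `N ∈ (X, 2X]` (row FIN)

PROOF. As G6/Fin8.lean (`g6w`). `Y = ⌈2X/3⌉`: `2X ≤ 3Y`, and `Y + H ≤ X` for `H ≤ √X` and large `X`, so `(X, 2X] ⊆ (Y + H, 3Y]`; `H * H ≤ X`... `H ≤ √X/2` gives `H*H ≤ X/4 ≤ Y`.
`Rg2 (4Y) ⌊w⌋ ⌊w'⌋ c1 M` from `(log X)^c₀ ≤ w ≤ w' ≤ X^η` (`c₀ = c1 + 3`, `η = 1/(M+8)`). `sgK` against `σ^(k-1)/(k-1)!`, `σ = log (log w'/log w)`, by `Mw` (as in `g6w`);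
`H/(log H log Y)` against `H/(log H log N)`: `Y ≤ N ≤ 3Y`, so `log N = (1 + o(1)) log Y`. `TH k ⌊w⌋ ⌊w'⌋ H N` is the count in `tiny` (for `N > X ≥ H` all `p ≤ H` are `< N`).
Exceptions: `Y/(log Y)^(A+1) ≤ X/(log X)^A`.
-/

set_option autoImplicit false

open Finset

namespace Pool.Agent.Lib.G9

open Pool.Agent.Lib.G3 (SS)
open Pool.Agent.Lib.G5 (sgK Rg2 q8)

/-- the comparison at one `N` -/
private theorem f9_cmp {S sg m E b a T ε ε2 : ℝ} (hS : 0 ≤ S) (hb : 0 ≤ b) (ha : 0 ≤ a) (hE : 1 ≤ E) (hm : m ≤ E) (hm0 : 0 ≤ m)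
    (hε : 0 < ε) (hε1 : ε ≤ 1) (hε2 : ε2 = ε / 16) (h6 : |T - S * sg * b| ≤ ε2 * (S * (1 + sg) * b))
    (hsg : |sg - m| ≤ ε2 * E) (hnn : |b - a| ≤ ε2 * a) :
    |T - S * m * a| ≤ ε * (S * E * a) := by
  have h20 : 0 < ε2 := by rw [hε2]; positivity
  have h21 : ε2 ≤ 1 / 16 := by rw [hε2]; linarith
  obtain ⟨n1, n2⟩ := abs_le.1 hnn
  have hB : b ≤ 2 * a := by nlinarith
  have hsg1 : 1 + sg ≤ 3 * E := by
    have := (abs_le.1 hsg).2
    nlinarith
  have t1 : ε2 * (S * (1 + sg) * b) ≤ ε2 * (6 * (S * E * a)) := by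
    refine mul_le_mul_of_nonneg_left ?_ h20.le
    calc S * (1 + sg) * b ≤ S * (3 * E) * b := by gcongr
      _ ≤ S * (3 * E) * (2 * a) := by gcongr
      _ = 6 * (S * E * a) := by ring
  have t2 : |S * b * (sg - m)| ≤ ε2 * (2 * (S * E * a)) := by
    rw [abs_mul, abs_of_nonneg (mul_nonneg hS hb)]
    calc S * b * |sg - m| ≤ S * b * (ε2 * E) := mul_le_mul_of_nonneg_left hsg (mul_nonneg hS hb)
      _ ≤ S * (2 * a) * (ε2 * E) := by gcongr
      _ = ε2 * (2 * (S * E * a)) := by ring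
  have t3 : |S * m * (b - a)| ≤ ε2 * (S * E * a) := by
    rw [abs_mul, abs_of_nonneg (mul_nonneg hS hm0)]
    calc S * m * |b - a| ≤ S * m * (ε2 * a) := mul_le_mul_of_nonneg_left hnn (mul_nonneg hS hm0)
      _ ≤ S * E * (ε2 * a) := by gcongr
      _ = ε2 * (S * E * a) := by ring
  have e : T - S * m * a = (T - S * sg * b) + S * b * (sg - m) + S * m * (b - a) := by ring
  rw [e]
  refine (abs_add_le _ _).trans ?_
  have u1 := abs_add_le (T - S * sg * b) (S * b * (sg - m))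
  have hSa : 0 ≤ S * E * a := by positivity
  rw [hε2] at h6 t1 t2 t3
  nlinarith [mul_nonneg hε.le hSa]

/-- the two main terms -/
private theorem f9_ba {H lH lY lN ε2 : ℝ} (hH : 0 ≤ H) (hlH : 0 ≤ lH) (hY : 0 < lY) (h1 : lY ≤ lN) (h2 : lN ≤ lY + 2)
    (h3 : 2 ≤ ε2 * lY) : |H / (lH * lY) - H / (lH * lN)| ≤ ε2 * (H / (lH * lN)) := by
  have hN : 0 < lN := by linarith
  have e : H / (lH * lY) - H / (lH * lN) = (H / (lH * lN)) * (lN / lY - 1) := by
    rcases hlH.eq_or_lt with h0 | h0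
    · rw [← h0]
      simp
    · field_simp
  have h4 : 0 ≤ lN / lY - 1 := by
    rw [sub_nonneg, le_div_iff₀ hY]
    linarith
  have h5 : lN / lY - 1 ≤ ε2 := by
    rw [sub_le_iff_le_add, div_le_iff₀ hY]
    linarith
  have h6 : 0 ≤ H / (lH * lN) := by positivity
  rw [e, abs_of_nonneg (mul_nonneg h6 h4), mul_comm]
  exact mul_le_mul_of_nonneg_right h5 h6

theorem g9 (k A : ℕ) (hk : 2 ≤ k) : ∃ c₀ C : ℕ, ∀ ε : ℝ, 0 < ε → ∃ η : ℝ, 0 < η ∧ ∃ X₀ : ℕ, ∀ X H : ℕ, ∀ w w' : ℝ, X₀ ≤ X →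
    (Real.log X) ^ c₀ ≤ w → w ≤ w' → w' ≤ (X : ℝ) ^ η → w' * (Real.log X) ^ C ≤ H → 2 * (H : ℝ) ≤ Real.sqrt X →
      (((Ioc X (2 * X)).filter fun N : ℕ => Even N ∧
        ε * (SS N * (1 + Real.log (Real.log w' / Real.log w)) ^ (k - 1) * (H / (Real.log H * Real.log N))) <
        |(TH k ⌊w⌋₊ ⌊w'⌋₊ H N : ℝ) - SS N * (Real.log (Real.log w' / Real.log w) ^ (k - 1) / (Nat.factorial (k - 1) : ℝ)) *
          (H / (Real.log H * Real.log N))|).card : ℝ) ≤ X / (Real.log X) ^ A := by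
  classical
  obtain ⟨c10, h6⟩ := ctG k (A + 1) hk
  obtain ⟨C1, h6⟩ := h6 c10 le_rfl
  refine ⟨c10 + 3, C1 + 1, fun ε hε => ?_⟩
  obtain ⟨ε', hε'⟩ : ∃ ε' : ℝ, ε' = min ε 1 := ⟨_, rfl⟩
  have hε'0 : 0 < ε' := by rw [hε']; exact lt_min hε one_pos
  have hε'1 : ε' ≤ 1 := by rw [hε']; exact min_le_right _ _
  have hε'ε : ε' ≤ ε := by rw [hε']; exact min_le_left _ _
  obtain ⟨ε2, hε2⟩ : ∃ ε2 : ℝ, ε2 = ε' / 16 := ⟨_, rfl⟩
  have hε20 : 0 < ε2 := by rw [hε2]; positivity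
  obtain ⟨M, x0, h6⟩ := h6 ε2 hε20
  obtain ⟨w0, hw0⟩ := Pool.Agent.Lib.G6.mw k hk ε2 hε20
  obtain ⟨K, hK⟩ : ∃ K : ℝ, K = 2 ^ (c10 + 2) + 4 + 2 ^ (A + 1) + 4 / ε2 + max w0 4 := ⟨_, rfl⟩
  refine ⟨1 / (M + 8), by positivity, max ⌈Real.exp K⌉₊ (max ⌈2 * x0⌉₊ 16), ?_⟩
  intro X H w w' hX hw1 hww hw2 hH1 hH2
  have hXa : Real.exp K ≤ X := (Nat.le_ceil _).trans (by exact_mod_cast (le_max_left _ _).trans hX)
  have hX' := (le_max_right _ _).trans hX
  have hXb : 2 * x0 ≤ X := (Nat.le_ceil _).trans (by exact_mod_cast (le_max_left _ _).trans hX')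
  have hX16 : 16 ≤ X := (le_max_right _ _).trans hX'
  have g1 : (16 : ℝ) ≤ X := by exact_mod_cast hX16
  have hX0 : (0 : ℝ) < X := by linarith
  have hXone : (1 : ℝ) ≤ X := by linarith
  obtain ⟨l, hl⟩ : ∃ l : ℝ, l = Real.log X := ⟨_, rfl⟩
  have hKl : K ≤ l := by
    rw [hl, Real.le_log_iff_exp_le hX0]
    exact hXa
  rw [← hl] at hw1 hH1 ⊢
  have p1 : (0 : ℝ) < 2 ^ (c10 + 2) := by positivity
  have p2 : (0 : ℝ) < 2 ^ (A + 1) := by positivity
  have p3 : (0 : ℝ) < 4 / ε2 := by positivity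
  have p4 : w0 ≤ max w0 4 := le_max_left _ _
  have p5 : (4 : ℝ) ≤ max w0 4 := le_max_right _ _
  have hl4 : 4 ≤ l := by linarith
  have hlc : l ≤ l ^ (c10 + 3) := by
    calc l = l ^ 1 := (pow_one l).symm
      _ ≤ l ^ (c10 + 3) := pow_le_pow_right₀ (by linarith) (by omega)
  have hw4 : 4 ≤ w := by linarith
  have hww0 : w0 ≤ w := by linarith
  have hw'4 : 4 ≤ w' := by linarith
  obtain ⟨σ, hσ⟩ : ∃ σ : ℝ, σ = Real.log (Real.log w' / Real.log w) := ⟨_, rfl⟩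
  have hlw1 : 1 ≤ Real.log w := by
    rw [Real.le_log_iff_exp_le (by linarith)]
    have := Real.exp_one_lt_d9
    linarith
  have hσ0 : 0 ≤ σ := by
    rw [hσ]
    refine Real.log_nonneg ?_
    rw [le_div_iff₀ (by linarith), one_mul]
    exact Real.log_le_log (by linarith) hww
  have hmw := hw0 w w' hww0 hww
  rw [← hσ] at hmw ⊢
  -- the scale `Y`
  obtain ⟨Y, hY⟩ : ∃ Y : ℕ, Y = (2 * X + 2) / 3 := ⟨_, rfl⟩
  have hY3 : 2 * X ≤ 3 * Y := by omega
  have hYX : Y ≤ X := by omega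
  have hY3' : 2 * (X : ℝ) ≤ 3 * Y := by exact_mod_cast hY3
  have hYX' : (Y : ℝ) ≤ X := by exact_mod_cast hYX
  have hY1 : (X : ℝ) / 2 ≤ Y := by linarith
  have hY0 : (0 : ℝ) < Y := by linarith
  have hsq : Real.sqrt X ≤ X / 4 := by
    rw [Real.sqrt_le_left (by linarith)]
    nlinarith
  have hsq0 := Real.sq_sqrt hX0.le
  have hH0 : (0 : ℝ) ≤ H := Nat.cast_nonneg _
  have hYH : Y + H ≤ X := by
    have e1 : 3 * Y ≤ 2 * X + 2 := by omega
    have e1' : 3 * (Y : ℝ) ≤ 2 * X + 2 := by exact_mod_cast e1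
    have e2 : ((Y + H : ℕ) : ℝ) ≤ X := by
      push_cast
      linarith
    exact_mod_cast e2
  have hHH : H * H ≤ Y := by
    have e2 : ((H * H : ℕ) : ℝ) ≤ Y := by
      push_cast
      have e3 : (H : ℝ) ≤ Real.sqrt X / 2 := by linarith
      have e4 : (H : ℝ) * H ≤ (Real.sqrt X / 2) * (Real.sqrt X / 2) := mul_le_mul e3 e3 hH0 (by linarith)
      nlinarith
    exact_mod_cast e2
  have hlY2 : Real.log Y ≤ l := by rw [hl]; exact Real.log_le_log hY0 hYX'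
  have hlY1 : l - 1 ≤ Real.log Y := by
    have e1 : Real.log (X / 2) ≤ Real.log Y := Real.log_le_log (by linarith) hY1
    rw [Real.log_div hX0.ne' (by norm_num), ← hl] at e1
    have e2 := Real.log_two_lt_d9
    linarith
  have hlYh : l / 2 ≤ Real.log Y := by linarith
  have hlY0 : 0 < Real.log Y := by linarith
  have hRg : Rg2 (4 * Y) ⌊w⌋₊ ⌊w'⌋₊ c10 M := by
    refine ⟨?_, Nat.floor_le_floor hww, ?_⟩
    · have e0 : Real.log ((4 * Y : ℕ) : ℝ) ≤ 2 * l := by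
        push_cast
        have e5 : Real.log (4 * (Y : ℝ)) = Real.log 4 + Real.log Y := Real.log_mul (by norm_num) hY0.ne'
        have e6 : Real.log 4 ≤ 2 := by
          have : Real.log 4 = 2 * Real.log 2 := by
            rw [show (4 : ℝ) = 2 ^ 2 by norm_num, Real.log_pow]
            norm_num
          rw [this]
          have := Real.log_two_lt_d9
          linarith
        rw [e5]
        linarith
      have e00 : 0 ≤ Real.log ((4 * Y : ℕ) : ℝ) := Real.log_natCast_nonneg _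
      have e1 : (Real.log ((4 * Y : ℕ) : ℝ)) ^ (c10 + 1) ≤ l ^ (c10 + 2) := by
        calc (Real.log ((4 * Y : ℕ) : ℝ)) ^ (c10 + 1) ≤ (2 * l) ^ (c10 + 1) := pow_le_pow_left₀ e00 e0 _
          _ = 2 ^ (c10 + 1) * l ^ (c10 + 1) := mul_pow _ _ _
          _ ≤ l * l ^ (c10 + 1) := by
              refine mul_le_mul_of_nonneg_right ?_ (by positivity)
              have : (2 : ℝ) ^ (c10 + 1) ≤ 2 ^ (c10 + 2) := pow_le_pow_right₀ (by norm_num) (by omega)
              linarith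
          _ = l ^ (c10 + 2) := by ring
      have e2 : l ^ (c10 + 2) + 1 ≤ l ^ (c10 + 3) := by
        have e3 : (1 : ℝ) ≤ l ^ (c10 + 2) := one_le_pow₀ (by linarith)
        have e4 : l ^ (c10 + 3) = l ^ (c10 + 2) * l := pow_succ _ _
        nlinarith
      have e6 : w < (⌊w⌋₊ : ℝ) + 1 := Nat.lt_floor_add_one _
      linarith
    · have e1 : ((⌊w'⌋₊ : ℕ) : ℝ) ≤ w' := Nat.floor_le (by linarith)
      have e2 : ((⌊w'⌋₊ : ℕ) : ℝ) ^ M ≤ ((4 * Y : ℕ) : ℝ) := by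
        calc ((⌊w'⌋₊ : ℕ) : ℝ) ^ M ≤ ((X : ℝ) ^ (1 / (M + 8) : ℝ)) ^ M := pow_le_pow_left₀ (Nat.cast_nonneg _) (e1.trans hw2) M
          _ = (X : ℝ) ^ ((1 / (M + 8) : ℝ) * M) := by rw [← Real.rpow_natCast, ← Real.rpow_mul hX0.le]
          _ ≤ (X : ℝ) ^ (1 : ℝ) := by
              refine Real.rpow_le_rpow_of_exponent_le hXone ?_
              rw [one_div_mul_eq_div, div_le_one (by positivity)]
              linarith
          _ = X := Real.rpow_one _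
          _ ≤ ((4 * Y : ℕ) : ℝ) := by
              push_cast
              linarith
      exact_mod_cast e2
  have hhY : ((⌊w'⌋₊ : ℕ) : ℝ) * (Real.log Y) ^ C1 ≤ H := by
    refine le_trans ?_ hH1
    have e1 : ((⌊w'⌋₊ : ℕ) : ℝ) ≤ w' := Nat.floor_le (by linarith)
    have e2 : (Real.log Y) ^ C1 ≤ l ^ (C1 + 1) := by
      calc (Real.log Y) ^ C1 ≤ l ^ C1 := pow_le_pow_left₀ hlY0.le hlY2 _
        _ ≤ l ^ (C1 + 1) := pow_le_pow_right₀ (by linarith) (by omega)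
    exact mul_le_mul e1 e2 (by positivity) (by linarith)
  have h9 := h6 Y (by linarith) ⌊w⌋₊ ⌊w'⌋₊ hRg H hhY hHH
  refine le_trans ?_ (h9.trans ?_)
  · have hsub : ((Ioc X (2 * X)).filter fun N : ℕ => Even N ∧
        ε * (SS N * (1 + σ) ^ (k - 1) * (H / (Real.log H * Real.log N))) <
        |(TH k ⌊w⌋₊ ⌊w'⌋₊ H N : ℝ) - SS N * (σ ^ (k - 1) / (Nat.factorial (k - 1) : ℝ)) *
          (H / (Real.log H * Real.log N))|) ⊆
        ((Ioc (Y + H) (3 * Y)).filter fun N => Even N ∧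
          ε2 * (SS N * (1 + sgK k ⌊w⌋₊ ⌊w'⌋₊) * (H / (Real.log H * Real.log Y))) <
          |(TH k ⌊w⌋₊ ⌊w'⌋₊ H N : ℝ) - SS N * sgK k ⌊w⌋₊ ⌊w'⌋₊ * (H / (Real.log H * Real.log Y))|) := by
      intro N hN
      rw [mem_filter, mem_Ioc] at hN ⊢
      obtain ⟨⟨hN1, hN2⟩, hev, hN3⟩ := hN
      refine ⟨⟨by omega, by omega⟩, hev, ?_⟩
      by_contra hcon
      rw [not_lt] at hcon
      have hN0 : (0 : ℝ) < N := by
        have : 0 < N := by omega
        exact_mod_cast this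
      have hYN : (Y : ℝ) ≤ N := by
        have : Y ≤ N := by omega
        exact_mod_cast this
      have hN3Y : (N : ℝ) ≤ 3 * Y := by
        have : N ≤ 3 * Y := by omega
        exact_mod_cast this
      have hb1 : Real.log Y ≤ Real.log N := Real.log_le_log hY0 hYN
      have hb2 : Real.log N ≤ Real.log Y + 2 := by
        have e1 : Real.log N ≤ Real.log (3 * Y) := Real.log_le_log hN0 hN3Y
        rw [Real.log_mul (by norm_num) hY0.ne'] at e1
        have e2 : Real.log 3 ≤ Real.log 4 := Real.log_le_log (by norm_num) (by norm_num)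
        have e3 : Real.log 4 = 2 * Real.log 2 := by
          rw [show (4 : ℝ) = 2 ^ 2 by norm_num, Real.log_pow]
          norm_num
        have e4 := Real.log_two_lt_d9
        linarith
      have hb3 : 2 ≤ ε2 * Real.log Y := by
        have e1 : 4 / ε2 ≤ l := by linarith
        rw [div_le_iff₀ hε20] at e1
        nlinarith
      have hnn := f9_ba hH0 (Real.log_natCast_nonneg H) hlY0 hb1 hb2 hb3
      have hSS : 0 ≤ SS N := by
        have := q8 N hev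
        linarith
      have hfac : (1 : ℝ) ≤ (Nat.factorial (k - 1) : ℝ) := by exact_mod_cast Nat.one_le_iff_ne_zero.mpr (Nat.factorial_ne_zero _)
      have hm : σ ^ (k - 1) / (Nat.factorial (k - 1) : ℝ) ≤ (1 + σ) ^ (k - 1) := by
        refine (div_le_self (by positivity) hfac).trans ?_
        exact pow_le_pow_left₀ hσ0 (by linarith) _
      have hlH := Real.log_natCast_nonneg H
      have hlN : 0 < Real.log N := by linarith
      have hkey := f9_cmp (S := SS N) (sg := sgK k ⌊w⌋₊ ⌊w'⌋₊) (m := σ ^ (k - 1) / (Nat.factorial (k - 1) : ℝ)) (E := (1 + σ) ^ (k - 1))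
        (b := H / (Real.log H * Real.log Y)) (a := H / (Real.log H * Real.log N)) (T := TH k ⌊w⌋₊ ⌊w'⌋₊ H N) (ε := ε') (ε2 := ε2)
        hSS (by positivity) (by positivity) (one_le_pow₀ (by linarith)) hm (by positivity) hε'0 hε'1 hε2 hcon hmw hnn
      have hM0 : 0 ≤ SS N * (1 + σ) ^ (k - 1) * (H / (Real.log H * Real.log N)) := by positivity
      have := mul_le_mul_of_nonneg_right hε'ε hM0
      linarith
    exact_mod_cast card_le_card hsub
  · have e1 : l ^ A ≤ (Real.log Y) ^ (A + 1) := by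
      have e2 : (l / 2) ^ A * 2 ^ A ≤ (Real.log Y) ^ A * Real.log Y := by
        refine mul_le_mul (pow_le_pow_left₀ (by linarith) hlYh _) ?_ (by positivity) (by positivity)
        have : (2 : ℝ) ^ (A + 1) = 2 * 2 ^ A := by ring
        linarith
      have e3 : (l / 2) ^ A * 2 ^ A = l ^ A := by
        rw [← mul_pow]
        congr 1
        ring
      rw [e3] at e2
      rw [pow_succ]
      exact e2
    exact div_le_div₀ hX0.le hYX' (by positivity) e1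

end Pool.Agent.Lib.G9
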