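import Pool.Agent.Lib.SW.RamModel

/-!
# G9 / Gq: sums of `|gq q n|` and of `gq q n` over one period (row GQ)

PROOF. `gq q n = ∏_{p | q} g_p(n)`, `g_p = -1` if `p ∣ n`, `1/(p-1)` otherwise. `gq_abs_sum`:
`∏_{p | q} |g_p(n)| ≤ ∏_{p|q} (1_{p | n} + 1/(p-1)) = ∑_{t} 1_{d_t | n} ∏_{p not in t} 1/(p-1)` (`t` a set of primes dividing `q`, `d_t` their product), and
`#{b < q : d_t ∣ N - b} ≤ q/d_t`, so the sum is at most `∑_t ∏_{p not in t} p/(p-1) = ∏_{p | q} (1 + p/(p-1)) ≤ 3^ω(q)` (this way uses no CRT).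
`gq_cop_sum`: `∑_{b < q, (b,q)=1} gq q (N - b) = μ(q) gq q N` for squarefree `q`: with `gq_eq_exp`: `gq q n = (μ(q)/φ(q)) ∑_{a} e(an/q)` and
`∑_{b, (b,q)=1} e(-ab/q) = μ(q)` for `(a, q) = 1` (from `gq q (-a) = 1/φ(q)`).
-/

set_option autoImplicit false

open Finset

namespace Pool.Agent.Lib.G9

open Pool.Agent.Lib.SW (gq)

private theorem gs_card (q : ℕ) (hq : Squarefree q) (N : ℤ) (t : Finset ℕ) (ht : t ⊆ q.primeFactors) :
    (((range q).filter fun b : ℕ => ∀ p ∈ t, (p : ℤ) ∣ N - b).card : ℝ) ≤ ∏ p ∈ q.primeFactors \ t, (p : ℝ) := by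
  have hprod : (∏ p ∈ q.primeFactors \ t, p) * ∏ p ∈ t, p = q := by
    rw [prod_sdiff ht]
    exact Nat.prod_primeFactors_of_squarefree hq
  set d := ∏ p ∈ t, p with hd
  set m := ∏ p ∈ q.primeFactors \ t, p with hm
  have hq0 : 0 < q := Nat.pos_of_ne_zero hq.ne_zero
  have hd0 : 0 < d := Nat.pos_of_ne_zero fun h => by rw [h, mul_zero] at hprod; omega
  have hdvd : ∀ n : ℤ, (∀ p ∈ t, (p : ℤ) ∣ n) → (d : ℤ) ∣ n := by
    intro n hn
    rw [Int.natCast_dvd]
    refine Finset.prod_primes_dvd _ (fun p hp => (Nat.prime_of_mem_primeFactors (ht hp)).prime) fun p hp => ?_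
    exact Int.natCast_dvd.1 (hn p hp)
  have hcard : ((range q).filter fun b : ℕ => ∀ p ∈ t, (p : ℤ) ∣ N - b).card ≤ (range m).card := by
    refine card_le_card_of_injOn (fun b => b / d) ?_ ?_
    · intro b hb
      have hb' := mem_filter.1 (mem_coe.1 hb)
      rw [mem_range] at hb'
      rw [mem_coe, mem_range]
      exact Nat.div_lt_of_lt_mul (by rw [mul_comm, hprod]; exact hb'.1)
    · intro b hb b' hb' hbb
      have h1 := (mem_filter.1 (mem_coe.1 hb)).2
      have h2 := (mem_filter.1 (mem_coe.1 hb')).2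
      have h3 : (d : ℤ) ∣ (b : ℤ) - b' := by
        have h4 := dvd_sub (hdvd _ h2) (hdvd _ h1)
        have h5 : N - (b' : ℤ) - (N - b) = (b : ℤ) - b' := by ring
        rwa [h5] at h4
      have h6 : (b : ℤ) - b' = 0 := by
        apply Int.eq_zero_of_abs_lt_dvd h3
        have e1 := Nat.div_add_mod b d
        have e2 := Nat.div_add_mod b' d
        have e3 := Nat.mod_lt b hd0
        have e4 := Nat.mod_lt b' hd0
        dsimp only at hbb
        rw [hbb] at e1
        rw [abs_lt]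
        constructor
        · zify at e1 e2 e3 e4
          have e5 : (0 : ℤ) ≤ (b : ℤ) % d := Int.natCast_mod b d ▸ Int.natCast_nonneg _
          have e6 : (0 : ℤ) ≤ (b' : ℤ) % d := Int.natCast_mod b' d ▸ Int.natCast_nonneg _
          linarith
        · zify at e1 e2 e3 e4
          have e5 : (0 : ℤ) ≤ (b : ℤ) % d := Int.natCast_mod b d ▸ Int.natCast_nonneg _
          have e6 : (0 : ℤ) ≤ (b' : ℤ) % d := Int.natCast_mod b' d ▸ Int.natCast_nonneg _
          linarith
      omega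
  rw [card_range] at hcard
  have h7 : (((range q).filter fun b : ℕ => ∀ p ∈ t, (p : ℤ) ∣ N - b).card : ℝ) ≤ (m : ℝ) := by exact_mod_cast hcard
  refine h7.trans (le_of_eq ?_)
  rw [hm]
  push_cast
  rfl

theorem gq_abs_sum (q : ℕ) (hq : Squarefree q) (N : ℤ) : ∑ b ∈ range q, |gq q (N - b)| ≤ (3 : ℝ) ^ q.primeFactors.card := by
  classical
  have hp2 : ∀ p ∈ q.primeFactors, (2 : ℝ) ≤ p := fun p hp => by
    exact_mod_cast (Nat.prime_of_mem_primeFactors hp).two_le
  have h1 : ∀ n : ℤ, |gq q n| ≤ ∑ t ∈ q.primeFactors.powerset, (if ∀ p ∈ t, (p : ℤ) ∣ n then (1 : ℝ) else 0) *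
      ∏ p ∈ q.primeFactors \ t, (1 / ((p : ℝ) - 1)) := by
    intro n
    have e1 : ∏ p ∈ q.primeFactors, ((if (p : ℤ) ∣ n then (1 : ℝ) else 0) + 1 / ((p : ℝ) - 1)) =
        ∑ t ∈ q.primeFactors.powerset, (if ∀ p ∈ t, (p : ℤ) ∣ n then (1 : ℝ) else 0) *
      ∏ p ∈ q.primeFactors \ t, (1 / ((p : ℝ) - 1)) := by
      rw [prod_add]
      refine sum_congr rfl fun t _ => ?_
      congr 1
      rw [prod_ite_zero]
      simp
    rw [← e1]
    unfold gq
    rw [abs_prod]
    refine prod_le_prod (fun _ _ => abs_nonneg _) fun p hp => ?_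
    have h2 : (0 : ℝ) ≤ 1 / ((p : ℝ) - 1) := div_nonneg zero_le_one (by linarith [hp2 p hp])
    split_ifs
    · rw [abs_neg, abs_one]
      linarith
    · rw [abs_of_nonneg h2, zero_add]
  calc ∑ b ∈ range q, |gq q (N - b)|
      ≤ ∑ b ∈ range q, ∑ t ∈ q.primeFactors.powerset, (if ∀ p ∈ t, (p : ℤ) ∣ N - b then (1 : ℝ) else 0) *
      ∏ p ∈ q.primeFactors \ t, (1 / ((p : ℝ) - 1)) := sum_le_sum fun b _ => h1 _
    _ = ∑ t ∈ q.primeFactors.powerset, (((range q).filter fun b : ℕ => ∀ p ∈ t, (p : ℤ) ∣ N - b).card : ℝ) *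
      ∏ p ∈ q.primeFactors \ t, (1 / ((p : ℝ) - 1)) := by
        rw [sum_comm]
        refine sum_congr rfl fun t _ => ?_
        rw [← sum_mul]
        congr 1
        rw [← sum_filter, sum_const, nsmul_eq_mul, mul_one]
    _ ≤ ∑ t ∈ q.primeFactors.powerset, (∏ p ∈ t, (1 : ℝ)) * ∏ p ∈ q.primeFactors \ t, ((p : ℝ) / ((p : ℝ) - 1)) := by
        refine sum_le_sum fun t ht => ?_
        rw [mem_powerset] at ht
        rw [prod_const_one, one_mul]
        have e : ∏ p ∈ q.primeFactors \ t, ((p : ℝ) / ((p : ℝ) - 1)) =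
            (∏ p ∈ q.primeFactors \ t, (p : ℝ)) * ∏ p ∈ q.primeFactors \ t, (1 / ((p : ℝ) - 1)) := by
          rw [← prod_mul_distrib]
          refine prod_congr rfl fun p _ => ?_
          rw [mul_one_div]
        rw [e]
        refine mul_le_mul_of_nonneg_right (gs_card q hq N t ht) (prod_nonneg fun p hp => ?_)
        exact div_nonneg zero_le_one (by linarith [hp2 p (mem_sdiff.1 hp).1])
    _ = ∏ p ∈ q.primeFactors, ((1 : ℝ) + (p : ℝ) / ((p : ℝ) - 1)) := by rw [prod_add]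
    _ ≤ ∏ p ∈ q.primeFactors, (3 : ℝ) := by
        refine prod_le_prod (fun p hp => ?_) fun p hp => ?_
        · have := hp2 p hp
          have : (0 : ℝ) ≤ (p : ℝ) / ((p : ℝ) - 1) := div_nonneg (by linarith) (by linarith)
          linarith
        · have h2 := hp2 p hp
          have : (p : ℝ) / ((p : ℝ) - 1) ≤ 2 := by
            rw [div_le_iff₀ (by linarith)]
            linarith
          linarith
    _ = (3 : ℝ) ^ q.primeFactors.card := by rw [prod_const]

theorem gq_cop_sum (q : ℕ) (hq : Squarefree q) (N : ℤ) :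
    ∑ b ∈ (range q).filter (fun b => Nat.Coprime b q), gq q (N - b) = ((ArithmeticFunction.moebius q : ℤ) : ℝ) * gq q N := by
  have hq0 : 0 < q := Nat.pos_of_ne_zero hq.ne_zero
  have hphi : ((q.totient : ℕ) : ℂ) ≠ 0 := by
    exact_mod_cast (Nat.totient_pos.2 hq0).ne'
  have hmu : ((ArithmeticFunction.moebius q : ℤ) : ℂ) * ((ArithmeticFunction.moebius q : ℤ) : ℂ) = 1 := by
    have h1 := (ArithmeticFunction.moebius_sq_eq_one_of_squarefree hq)
    have h2 : ((ArithmeticFunction.moebius q : ℤ) : ℂ) ^ 2 = 1 := by exact_mod_cast h1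
    rw [← sq]
    exact h2
  -- the Ramanujan sum at a unit
  have hunit : ∀ a ∈ (range q).filter (fun b => Nat.Coprime b q),
      ∑ b ∈ (range q).filter (fun b => Nat.Coprime b q), Pool.Agent.Lib.GT.e ((b : ℝ) / q * ((-(a : ℤ) : ℤ) : ℝ)) =
        ((ArithmeticFunction.moebius q : ℤ) : ℂ) := by
    intro a ha
    rw [mem_filter] at ha
    have h1 := Pool.Agent.Lib.SW.gq_eq_exp q hq (-(a : ℤ))
    have h2 : gq q (-(a : ℤ)) = 1 / (q.totient : ℝ) := by
      unfold gq
      rw [Pool.Agent.Lib.SW.rm_totient q hq]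
      rw [← prod_const_one (s := q.primeFactors), ← prod_div_distrib]
      refine prod_congr rfl fun p hp => ?_
      have hpp := Nat.prime_of_mem_primeFactors hp
      have h3 : ¬ (p : ℤ) ∣ -(a : ℤ) := by
        rw [dvd_neg]
        intro h4
        have h5 : p ∣ a := by exact_mod_cast h4
        exact Nat.not_coprime_of_dvd_of_dvd hpp.one_lt h5 (Nat.dvd_of_mem_primeFactors hp) ha.2
      rw [if_neg h3]
      simp
    rw [h2] at h1
    push_cast at h1
    set S := ∑ b ∈ (range q).filter (fun b => Nat.Coprime b q), Pool.Agent.Lib.GT.e ((b : ℝ) / q * ((-(a : ℤ) : ℤ) : ℝ)) with hS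
    have hS' : S = ∑ b ∈ (range q).filter (fun b => Nat.Coprime b q), Pool.Agent.Lib.GT.e ((b : ℝ) / q * (-(a : ℝ))) := by
      rw [hS]
      refine sum_congr rfl fun b _ => ?_
      congr 1
      push_cast
      ring
    rw [← hS'] at h1
    have h6 : ((ArithmeticFunction.moebius q : ℤ) : ℂ) * S = 1 := by
      have h7 := congrArg (fun z : ℂ => z * (q.totient : ℂ)) h1
      rw [one_div, inv_mul_cancel₀ hphi] at h7
      rw [h7]
      field_simp
    calc S = (((ArithmeticFunction.moebius q : ℤ) : ℂ) * ((ArithmeticFunction.moebius q : ℤ) : ℂ)) * S := by rw [hmu, one_mul]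
      _ = ((ArithmeticFunction.moebius q : ℤ) : ℂ) * (((ArithmeticFunction.moebius q : ℤ) : ℂ) * S) := by ring
      _ = _ := by rw [h6, mul_one]
  have key : ((∑ b ∈ (range q).filter (fun b => Nat.Coprime b q), gq q (N - b) : ℝ) : ℂ) =
      ((((ArithmeticFunction.moebius q : ℤ) : ℝ) * gq q N : ℝ) : ℂ) := by
    push_cast
    rw [Pool.Agent.Lib.SW.gq_eq_exp q hq N]
    have h1 : ∀ b ∈ (range q).filter (fun b => Nat.Coprime b q), (gq q (N - b) : ℂ) =
        ((ArithmeticFunction.moebius q : ℤ) : ℂ) / (q.totient : ℂ) *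
          ∑ a ∈ (range q).filter (fun b => Nat.Coprime b q), Pool.Agent.Lib.GT.e ((a : ℝ) / q * N) *
            Pool.Agent.Lib.GT.e ((b : ℝ) / q * ((-(a : ℤ) : ℤ) : ℝ)) := by
      intro b _
      rw [Pool.Agent.Lib.SW.gq_eq_exp q hq (N - b)]
      congr 1
      refine sum_congr rfl fun a _ => ?_
      rw [← Pool.Agent.Lib.GT.e_add]
      congr 1
      push_cast
      ring
    rw [sum_congr rfl h1, ← mul_sum, sum_comm]
    have h2 : ∀ a ∈ (range q).filter (fun b => Nat.Coprime b q),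
        ∑ b ∈ (range q).filter (fun b => Nat.Coprime b q), Pool.Agent.Lib.GT.e ((a : ℝ) / q * N) *
            Pool.Agent.Lib.GT.e ((b : ℝ) / q * ((-(a : ℤ) : ℤ) : ℝ)) =
          Pool.Agent.Lib.GT.e ((a : ℝ) / q * N) * ((ArithmeticFunction.moebius q : ℤ) : ℂ) := by
      intro a ha
      rw [← mul_sum, hunit a ha]
    rw [sum_congr rfl h2, ← sum_mul]
    ring
  exact_mod_cast key

end Pool.Agent.Lib.G9
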