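import Pool.Agent.Lib.G9.Defs

/-!
# G9 / Sq: few `N` have many `p ≤ H` with `N - p` divisible by the square of a prime of `(w, w']` (row SQ)

PROOF. `∑_{N ∈ (Y+H, 3Y]} ∑_{p ≤ H} lp p 1[q² ∣ N - p for some q ∈ PP w w'] ≤ ∑_{p ≤ H} lp p ∑_{q ∈ PP} (2Y/q² + 1) ≤ H log H (2·2Y/w + w')` (compare `wunw_sq` in VK/WUnw.lean: `∑_{q > w} 1/q² ≤ 2/w`).
Markov: the number of `N` with inner sum `> H/(log Y)^2` is at most `(log Y)^2 log H (4Y/w + w') ≤ (log Y)^3 (4Y/w + w')` if `H ≤ Y`.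
-/

set_option autoImplicit false

open Finset

namespace Pool.Agent.Lib.G9

open Pool.Agent.Lib.G3 (lp)
open Pool.Agent.Lib.G5 (PP)

private theorem sqG_cnt (Y w w' H p : ℕ) (hw : 1 ≤ w) (hp : p ≤ H) (hH : H ≤ Y) :
    ((((Ioc (Y + H) (3 * Y)).filter fun N => ∃ q ∈ PP w w', q ^ 2 ∣ N - p).card : ℕ) : ℝ) ≤ 4 * (Y : ℝ) / w + w' := by
  classical
  have hPP : ∀ q ∈ PP w w', w < q ∧ q ≤ w' := by
    intro q hq
    unfold PP at hq
    rw [mem_filter, mem_Ioc] at hq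
    exact hq.1
  have h1 : ((Ioc (Y + H) (3 * Y)).filter fun N => ∃ q ∈ PP w w', q ^ 2 ∣ N - p) ⊆
      (PP w w').biUnion fun q => (Ioc (Y + H) (3 * Y)).filter fun N => q ^ 2 ∣ N - p := by
    intro n hn
    rw [mem_filter] at hn
    obtain ⟨hn, q, hq, hd⟩ := hn
    rw [mem_biUnion]
    exact ⟨q, hq, mem_filter.2 ⟨hn, hd⟩⟩
  have h2 : ∀ q ∈ PP w w', ((((Ioc (Y + H) (3 * Y)).filter fun N => q ^ 2 ∣ N - p).card : ℕ) : ℝ) ≤
      2 * (Y : ℝ) * ((q : ℝ) ^ 2)⁻¹ + 1 := by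
    intro q hq
    have hp0 : 0 < q := by have := hPP q hq; omega
    have hq0 : 0 < q ^ 2 := by positivity
    obtain ⟨A, hA⟩ : ∃ A, A = Y + H - p := ⟨_, rfl⟩
    obtain ⟨B, hB⟩ : ∃ B, B = 3 * Y - p := ⟨_, rfl⟩
    have hAB : A ≤ B := by omega
    have hBA : B ≤ A + 2 * Y := by omega
    have hle : ((Ioc (Y + H) (3 * Y)).filter fun N => q ^ 2 ∣ N - p).card ≤ (Ioc (A / q ^ 2) (B / q ^ 2)).card := by
      refine card_le_card_of_injOn (fun n => (n - p) / q ^ 2) ?_ ?_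
      · intro n hn
        rw [coe_filter, Set.mem_setOf_eq, mem_Ioc] at hn
        rw [coe_Ioc, Set.mem_Ioc]
        obtain ⟨⟨ha, hb⟩, t, ht⟩ := hn
        simp only
        constructor
        · rw [ht, Nat.mul_div_cancel_left _ hq0, Nat.div_lt_iff_lt_mul hq0, mul_comm, ← ht]
          omega
        · exact Nat.div_le_div_right (by omega)
      · intro n hn n' hn' heq
        rw [coe_filter, Set.mem_setOf_eq, mem_Ioc] at hn hn'
        obtain ⟨hn1, t, ht⟩ := hn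
        obtain ⟨hn2, t', ht'⟩ := hn'
        simp only at heq
        rw [ht, ht', Nat.mul_div_cancel_left _ hq0, Nat.mul_div_cancel_left _ hq0] at heq
        rw [heq, ← ht'] at ht
        omega
    rw [Nat.card_Ioc] at hle
    have h3 : (((B / q ^ 2 - A / q ^ 2 : ℕ)) : ℝ) ≤ 2 * (Y : ℝ) * ((q : ℝ) ^ 2)⁻¹ + 1 := by
      have hmono : A / q ^ 2 ≤ B / q ^ 2 := Nat.div_le_div_right hAB
      rw [Nat.cast_sub hmono]
      have hp2 : (0 : ℝ) < (q : ℝ) ^ 2 := by positivity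
      have e1 : (((B / q ^ 2 : ℕ)) : ℝ) ≤ (B : ℝ) / (q : ℝ) ^ 2 := by
        have := @Nat.cast_div_le ℝ _ _ _ B (q ^ 2)
        push_cast at this
        exact this
      have e2 : (A : ℝ) / (q : ℝ) ^ 2 ≤ ((A / q ^ 2 : ℕ) : ℝ) + 1 := by
        rw [div_le_iff₀ hp2]
        have h4 : A < (A / q ^ 2 + 1) * q ^ 2 := by
          have := Nat.div_add_mod A (q ^ 2)
          have h6 := Nat.mod_lt A hq0
          nlinarith
        have h5 : ((A : ℕ) : ℝ) ≤ (((A / q ^ 2 + 1) * q ^ 2 : ℕ) : ℝ) := by exact_mod_cast h4.le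
        push_cast at h5
        exact_mod_cast h5
      have e3 : (B : ℝ) / (q : ℝ) ^ 2 ≤ 2 * (Y : ℝ) * ((q : ℝ) ^ 2)⁻¹ + (A : ℝ) / (q : ℝ) ^ 2 := by
        have e4 : 2 * (Y : ℝ) * ((q : ℝ) ^ 2)⁻¹ + (A : ℝ) / (q : ℝ) ^ 2 = (2 * (Y : ℝ) + A) / (q : ℝ) ^ 2 := by
          rw [← div_eq_mul_inv, ← add_div]
        rw [e4]
        have e5 : (B : ℝ) ≤ 2 * (Y : ℝ) + A := by
          have : (B : ℝ) ≤ ((A + 2 * Y : ℕ) : ℝ) := by exact_mod_cast hBA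
          push_cast at this
          linarith
        gcongr
      linarith
    calc _ ≤ (((B / q ^ 2 - A / q ^ 2 : ℕ)) : ℝ) := by exact_mod_cast hle
      _ ≤ _ := h3
  by_cases hww : w ≤ w'
  · calc ((((Ioc (Y + H) (3 * Y)).filter fun N => ∃ q ∈ PP w w', q ^ 2 ∣ N - p).card : ℕ) : ℝ)
        ≤ ∑ q ∈ PP w w', ((((Ioc (Y + H) (3 * Y)).filter fun N => q ^ 2 ∣ N - p).card : ℕ) : ℝ) := by
          have := (card_le_card h1).trans card_biUnion_le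
          exact_mod_cast this
      _ ≤ ∑ q ∈ PP w w', (2 * (Y : ℝ) * ((q : ℝ) ^ 2)⁻¹ + 1) := Finset.sum_le_sum h2
      _ ≤ ∑ q ∈ Ioc w w', (2 * (Y : ℝ) * ((q : ℝ) ^ 2)⁻¹ + 1) := by
          refine Finset.sum_le_sum_of_subset_of_nonneg ?_ fun p _ _ => by positivity
          unfold PP
          exact filter_subset _ _
      _ = 2 * (Y : ℝ) * (∑ q ∈ Ioc w w', ((q : ℝ) ^ 2)⁻¹) + ((w' - w : ℕ) : ℝ) := by
          rw [Finset.sum_add_distrib, Finset.mul_sum, Finset.sum_const, Nat.card_Ioc, nsmul_eq_mul, mul_one]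
      _ ≤ 4 * (Y : ℝ) / w + w' := by
          have h3 : ∑ q ∈ Ioc w w', ((q : ℝ) ^ 2)⁻¹ ≤ (w : ℝ)⁻¹ - (w' : ℝ)⁻¹ :=
            sum_Ioc_inv_sq_le_sub (by omega) hww
          have h4 : (0 : ℝ) ≤ (w' : ℝ)⁻¹ := by positivity
          have h5 : 2 * (Y : ℝ) * (∑ q ∈ Ioc w w', ((q : ℝ) ^ 2)⁻¹) ≤ 2 * Y * (w : ℝ)⁻¹ :=
            mul_le_mul_of_nonneg_left (by linarith) (by positivity)
          have h6 : ((w' - w : ℕ) : ℝ) ≤ w' := by exact_mod_cast Nat.sub_le _ _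
          have h7 : (0 : ℝ) ≤ 2 * Y * (w : ℝ)⁻¹ := by positivity
          rw [div_eq_mul_inv]
          linarith
  · have h3 : ((Ioc (Y + H) (3 * Y)).filter fun N => ∃ q ∈ PP w w', q ^ 2 ∣ N - p) = ∅ := by
      refine Finset.filter_eq_empty_iff.2 fun n _ hx => ?_
      obtain ⟨q, hq, -⟩ := hx
      have := hPP q hq
      omega
    rw [h3, card_empty, Nat.cast_zero]
    positivity

private theorem lp_nonneg' (n : ℕ) : 0 ≤ lp n := by
  unfold Pool.Agent.Lib.G3.lp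
  split_ifs
  · exact Real.log_natCast_nonneg _
  · exact le_rfl

private theorem lp_le' {n Y : ℕ} (h1 : 1 ≤ n) (h : n ≤ Y) : lp n ≤ Real.log Y := by
  have h2 : Real.log n ≤ Real.log Y := Real.log_le_log (by exact_mod_cast h1) (by exact_mod_cast h)
  unfold Pool.Agent.Lib.G3.lp
  split_ifs
  · exact h2
  · exact Real.log_natCast_nonneg _

open Classical in
theorem sqG (Y w w' H : ℕ) (hw : 1 ≤ w) (hH1 : 1 ≤ H) (hH : H ≤ Y) (hY : 3 ≤ Y) :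
    (((Ioc (Y + H) (3 * Y)).filter fun N => (H : ℝ) / (Real.log Y) ^ 2 <
      ∑ p ∈ Icc 1 H, if ∃ q ∈ PP w w', q ^ 2 ∣ N - p then lp p else 0).card : ℝ) ≤ (Real.log Y) ^ 3 * (4 * Y / w + w') := by
  have hL : 0 < Real.log Y := Real.log_pos (by exact_mod_cast (by omega : 1 < Y))
  have hH0 : (0 : ℝ) < H := by exact_mod_cast hH1
  have hE : (0 : ℝ) ≤ 4 * (Y : ℝ) / w + w' := by positivity
  obtain ⟨S, hS⟩ : ∃ S : ℕ → ℝ, S = fun N => ∑ p ∈ Icc 1 H, if ∃ q ∈ PP w w', q ^ 2 ∣ N - p then lp p else 0 := ⟨_, rfl⟩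
  have hSn : ∀ N, 0 ≤ S N := by
    intro N
    rw [hS]
    refine sum_nonneg fun p _ => ?_
    split_ifs
    · exact lp_nonneg' p
    · exact le_rfl
  have h0 : ((Ioc (Y + H) (3 * Y)).filter fun N => (H : ℝ) / (Real.log Y) ^ 2 <
      ∑ p ∈ Icc 1 H, if ∃ q ∈ PP w w', q ^ 2 ∣ N - p then lp p else 0) =
      (Ioc (Y + H) (3 * Y)).filter fun N => (H : ℝ) / (Real.log Y) ^ 2 < S N := by
    rw [hS]
  rw [h0]
  obtain ⟨B, hB⟩ : ∃ B, B = (Ioc (Y + H) (3 * Y)).filter fun N => (H : ℝ) / (Real.log Y) ^ 2 < S N := ⟨_, rfl⟩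
  rw [← hB]
  have h1 : (B.card : ℝ) * ((H : ℝ) / (Real.log Y) ^ 2) ≤ ∑ N ∈ B, S N := by
    rw [← nsmul_eq_mul, ← sum_const]
    refine sum_le_sum fun N hN => ?_
    rw [hB, mem_filter] at hN
    exact hN.2.le
  have h2 : ∑ N ∈ B, S N ≤ ∑ N ∈ Ioc (Y + H) (3 * Y), S N := by
    refine sum_le_sum_of_subset_of_nonneg ?_ fun N _ _ => hSn N
    rw [hB]
    exact filter_subset _ _
  have h3 : ∑ N ∈ Ioc (Y + H) (3 * Y), S N =
      ∑ p ∈ Icc 1 H, ∑ N ∈ Ioc (Y + H) (3 * Y), if ∃ q ∈ PP w w', q ^ 2 ∣ N - p then lp p else 0 := by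
    rw [hS]
    exact sum_comm
  have h4 : ∀ p ∈ Icc 1 H, (∑ N ∈ Ioc (Y + H) (3 * Y), if ∃ q ∈ PP w w', q ^ 2 ∣ N - p then lp p else 0) ≤
      Real.log Y * (4 * Y / w + w') := by
    intro p hp
    rw [mem_Icc] at hp
    rw [← sum_filter, sum_const, nsmul_eq_mul, mul_comm]
    exact mul_le_mul (lp_le' hp.1 (hp.2.trans hH)) (sqG_cnt Y w w' H p hw hp.2 hH) (Nat.cast_nonneg _) hL.le
  have h5 : ∑ N ∈ Ioc (Y + H) (3 * Y), S N ≤ H * (Real.log Y * (4 * Y / w + w')) := by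
    rw [h3]
    refine (sum_le_sum h4).trans ?_
    rw [sum_const, Nat.card_Icc, nsmul_eq_mul, Nat.add_sub_cancel]
  have h6 : (B.card : ℝ) * ((H : ℝ) / (Real.log Y) ^ 2) ≤ H * (Real.log Y * (4 * Y / w + w')) := h1.trans (h2.trans h5)
  have h7 : (B.card : ℝ) * ((H : ℝ) / (Real.log Y) ^ 2) = H * (B.card / (Real.log Y) ^ 2) := by ring
  rw [h7] at h6
  have h8 := le_of_mul_le_mul_left h6 hH0
  rw [div_le_iff₀ (by positivity)] at h8
  calc (B.card : ℝ) ≤ Real.log Y * (4 * Y / w + w') * (Real.log Y) ^ 2 := h8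
    _ = (Real.log Y) ^ 3 * (4 * Y / w + w') := by ring

end Pool.Agent.Lib.G9
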