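import Pool.Agent.Lib.G9.Wt
import Pool.Agent.Lib.G9.Sq
import Pool.Agent.Lib.G9.Fi
import Pool.Agent.Lib.VK.WEsy
import Pool.Agent.Lib.G5.Q8

/-!
# G9 / Lg: the count with the weight `log p` for almost all `N` (row LG)

PROOF. `wtG k (A+1)` with `ε/4`, `fiG` with `min (ε/8) (1/2)`, `sqG`. For `N ∈ (Y+H, 3Y]` and `p ≤ H`: `n = N - p ∈ (Y, 3Y]`, `p < N`. `(1 - ε') LH ≤ WH ≤ LH + ∑_p lp p 1[∃ q ∈ PP, q² ∣ N - p]`
(`WH` is a sum of `lp p Fk(N-p)`; `lp ≥ 0`). For all but the exceptional `N` of `wtG` and `sqG`: `WH` is within `(ε/4)(1+sgK) H/log Y` of `sgK SS H/log Y` and the squares contribute at most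
`H/(log Y)^2`. The factor `1/(1-ε')` costs `2 ε' (WH) ≤ 2ε' (sgK SS + (ε/4)(1+sgK)) H/log Y ≤ (ε/4) (1 + sgK) SS H/log Y` for EVEN `N` (`SS N ≥ 1` for even `N`: `G5.q8`, so
`(1+sgK) ≤ (1+sgK) SS`). Exceptions: `Y/(log Y)^(A+1) + (log Y)^3 (4Y/w + w') ≤ Y/(log Y)^A` as `w ≥ (log 4Y)^(c1+1)`, `c1 ≥ A + 4`, `w' ≤ H ≤ √Y`. `c10` the maximum of the one of `wtG` and
`A + 5`, `M` the maximum of the one of `fiG` and `1000 k`.
-/

set_option autoImplicit false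

open Finset

namespace Pool.Agent.Lib.G9

open Pool.Agent.Lib.G3 (SS lp)
open Pool.Agent.Lib.G5 (sgK Rg2 PP EE)
open Pool.Agent.Lib.VKT (Fk sgK2_le)

/-- powers of the logarithm are small -/
private theorem lg_big (n : ℕ) : ∃ x : ℝ, ∀ Y : ℕ, x ≤ Y → 16 * (Real.log Y) ^ n ≤ Y := by
  have h := (Real.isLittleO_pow_log_id_atTop (n := n)).def (c := 1 / 16) (by norm_num)
  obtain ⟨x, hx⟩ := Filter.eventually_atTop.1 h
  refine ⟨max x 1, fun Y hY => ?_⟩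
  have h1 := hx Y ((le_max_left _ _).trans hY)
  have hY1 : (1 : ℝ) ≤ Y := (le_max_right _ _).trans hY
  rw [Real.norm_eq_abs, Real.norm_eq_abs, id, abs_of_nonneg (by linarith : (0 : ℝ) ≤ Y),
    abs_of_nonneg (pow_nonneg (Real.log_nonneg hY1) n)] at h1
  linarith

private theorem lg_lp (p : ℕ) : 0 ≤ lp p := by
  unfold Pool.Agent.Lib.G3.lp
  split_ifs
  · exact Real.log_natCast_nonneg p
  · exact le_rfl

/-- the two counts and the squares -/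
private theorem lg_pt {k w w' Y H N : ℕ} {ε' : ℝ} (hN1 : Y + H < N) (hN2 : N ≤ 3 * Y)
    (h : ∀ n : ℕ, Y < n → n ≤ 3 * Y → (0 ≤ Fk Y k w w' n ∧ Fk Y k w w' n ≤ 1) ∧ (EE k w w' n → 1 - ε' ≤ Fk Y k w w' n) ∧
      (¬ EE k w w' n → Fk Y k w w' n ≠ 0 → ∃ p ∈ PP w w', p ^ 2 ∣ n)) :
    0 ≤ WH Y k w w' H N ∧ (1 - ε') * LH k w w' H N ≤ WH Y k w w' H N ∧
      WH Y k w w' H N ≤ LH k w w' H N + ∑ p ∈ Icc 1 H, if ∃ q ∈ PP w w', q ^ 2 ∣ N - p then lp p else 0 := by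
  classical
  unfold WH LH
  have key : ∀ p ∈ Icc 1 H, p < N ∧ Y < N - p ∧ N - p ≤ 3 * Y := by
    intro p hp
    rw [mem_Icc] at hp
    omega
  refine ⟨sum_nonneg fun p hp => ?_, ?_, ?_⟩
  · obtain ⟨-, h1, h2⟩ := key p hp
    exact mul_nonneg (lg_lp p) (h _ h1 h2).1.1
  · rw [mul_sum]
    refine sum_le_sum fun p hp => ?_
    obtain ⟨h0, h1, h2⟩ := key p hp
    obtain ⟨⟨ha, -⟩, hb, -⟩ := h _ h1 h2
    split_ifs with hE
    · rw [mul_comm]
      exact mul_le_mul_of_nonneg_left (hb hE.2) (lg_lp p)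
    · rw [mul_zero]
      exact mul_nonneg (lg_lp p) ha
  · rw [← sum_add_distrib]
    refine sum_le_sum fun p hp => ?_
    obtain ⟨h0, h1, h2⟩ := key p hp
    obtain ⟨⟨ha, ha1⟩, -, hc⟩ := h _ h1 h2
    have hl := lg_lp p
    by_cases hE : EE k w w' (N - p)
    · rw [if_pos ⟨h0, hE⟩]
      have : lp p * Fk Y k w w' (N - p) ≤ lp p * 1 := mul_le_mul_of_nonneg_left ha1 hl
      split_ifs
      · linarith
      · linarith
    · rw [if_neg (fun hh => hE hh.2), zero_add]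
      by_cases hF : Fk Y k w w' (N - p) = 0
      · rw [hF, mul_zero]
        split_ifs
        · exact hl
        · exact le_rfl
      · rw [if_pos (hc hE hF)]
        have : lp p * Fk Y k w w' (N - p) ≤ lp p * 1 := mul_le_mul_of_nonneg_left ha1 hl
        linarith

/-- the real inequality -/
private theorem lg_real {W L Sq S s g l ε ε' : ℝ} (hε : 0 < ε) (hε'0 : 0 < ε') (hε'1 : ε' ≤ ε / 8) (hε'2 : ε' ≤ 1 / 2)
    (hl : 4 ≤ ε * l) (hl0 : 0 < l) (hg : 0 ≤ g) (hs : 0 ≤ s) (hS : 1 / 2 ≤ S) (hW0 : 0 ≤ W) (h1 : (1 - ε') * L ≤ W) (h2 : W ≤ L + Sq)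
    (hSq : Sq ≤ g / l) (hW : |W - s * S * g| ≤ ε / 8 * ((1 + s) * g)) : |L - S * s * g| ≤ ε * (S * (1 + s) * g) := by
  set T : ℝ := S * (1 + s) * g with hT
  have hT0 : 0 ≤ T := by rw [hT]; exact mul_nonneg (mul_nonneg (by linarith) (by linarith)) hg
  have hg1 : (1 + s) * g ≤ 2 * T := by
    have : (1 / 2) * ((1 + s) * g) ≤ S * ((1 + s) * g) := mul_le_mul_of_nonneg_right hS (mul_nonneg (by linarith) hg)
    rw [hT]; nlinarith
  have hsg : s * S * g ≤ T := by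
    have : 0 ≤ S * g := mul_nonneg (by linarith) hg
    rw [hT]; nlinarith
  have hgT : g ≤ 2 * T := by
    have : 0 ≤ s * g := mul_nonneg hs hg
    nlinarith
  obtain ⟨hWa, hWb⟩ := abs_le.1 hW
  have hWT : W ≤ T + ε / 8 * (2 * T) := by
    have : ε / 8 * ((1 + s) * g) ≤ ε / 8 * (2 * T) := mul_le_mul_of_nonneg_left hg1 (by linarith)
    linarith
  have hWc : ε / 8 * ((1 + s) * g) ≤ ε / 4 * T := by
    have : ε / 8 * ((1 + s) * g) ≤ ε / 8 * (2 * T) := mul_le_mul_of_nonneg_left hg1 (by linarith)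
    linarith
  have hLe : L ≤ (1 + 2 * ε') * W := by
    have h3 : (1 - ε') * L ≤ (1 - ε') * ((1 + 2 * ε') * W) := by
      have h4 : W ≤ (1 - ε') * ((1 + 2 * ε') * W) := by
        have : 0 ≤ ε' * (1 - 2 * ε') * W := mul_nonneg (mul_nonneg hε'0.le (by linarith)) hW0
        nlinarith
      linarith
    exact le_of_mul_le_mul_left h3 (by linarith)
  have hEW : 2 * ε' * W ≤ ε / 4 * T + ε / 4 * T := by
    have e1 : 2 * ε' * W ≤ 2 * ε' * (T + ε / 8 * (2 * T)) := mul_le_mul_of_nonneg_left hWT (by linarith)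
    have e2 : 2 * ε' * T ≤ ε / 4 * T := mul_le_mul_of_nonneg_right (by linarith) hT0
    have e3 : 2 * ε' * (ε / 8 * (2 * T)) ≤ 1 * (ε / 8 * (2 * T)) := mul_le_mul_of_nonneg_right (by linarith) (by positivity)
    nlinarith
  have hgl : g / l ≤ ε / 2 * T := by
    rw [div_le_iff₀ hl0]
    have : 4 * T ≤ ε * l * T := mul_le_mul_of_nonneg_right hl hT0
    nlinarith
  have hεT : 0 ≤ ε * T := mul_nonneg hε.le hT0
  have hcomm : S * s * g = s * S * g := by ring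
  rw [hcomm, abs_le]
  constructor
  · linarith
  · linarith

theorem lgG (k A : ℕ) (hk : 2 ≤ k) : ∃ c10 : ℕ, ∀ c1 : ℕ, c10 ≤ c1 → ∃ C : ℕ, ∀ ε : ℝ, 0 < ε → ∃ (M : ℕ) (x0 : ℝ), ∀ Y : ℕ, x0 ≤ Y →
    ∀ w w' : ℕ, Rg2 (4 * Y) w w' c1 M → ∀ H : ℕ, (w' : ℝ) * (Real.log Y) ^ C ≤ H → H * H ≤ Y →
      (((Ioc (Y + H) (3 * Y)).filter fun N => Even N ∧ ε * (SS N * (1 + sgK k w w') * (H / Real.log Y)) <
        |LH k w w' H N - SS N * sgK k w w' * (H / Real.log Y)|).card : ℝ) ≤ Y / (Real.log Y) ^ A := by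
  classical
  obtain ⟨c0, hw0⟩ := wtG k (A + 1) hk
  refine ⟨max c0 (A + 5), fun c1 hc1 => ?_⟩
  have hc0 : c0 ≤ c1 := (le_max_left _ _).trans hc1
  have hcA : A + 5 ≤ c1 := (le_max_right _ _).trans hc1
  obtain ⟨C, hw1⟩ := hw0 c1 hc0
  refine ⟨C, fun ε hε => ?_⟩
  obtain ⟨ε', hε'⟩ : ∃ e : ℝ, e = min (ε / 8) (1 / 2) := ⟨_, rfl⟩
  have hε'0 : 0 < ε' := by rw [hε']; exact lt_min (by positivity) (by norm_num)
  have hε'1 : ε' ≤ ε / 8 := by rw [hε']; exact min_le_left _ _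
  have hε'2 : ε' ≤ 1 / 2 := by rw [hε']; exact min_le_right _ _
  obtain ⟨x1, h1⟩ := hw1 (ε / 8) (by positivity)
  obtain ⟨M, x2, h2⟩ := fiG k c1 hk ε' hε'0
  obtain ⟨x3, h3⟩ := sgK2_le k c1
  obtain ⟨x4, h4⟩ := lg_big (2 * (A + 3))
  refine ⟨max M (1000 * k), max (max x1 x2) (max (max x3 x4) (Real.exp (max 4 (4 / ε)))), fun Y hY w w' hR H hH hHH => ?_⟩
  have hY1 : x1 ≤ Y := ((le_max_left _ _).trans (le_max_left _ _)).trans hY
  have hY2 : x2 ≤ Y := ((le_max_right _ _).trans (le_max_left _ _)).trans hY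
  have hY3 : x3 ≤ Y := ((le_max_left _ _).trans ((le_max_left _ _).trans (le_max_right _ _))).trans hY
  have hY4 : x4 ≤ Y := ((le_max_right _ _).trans ((le_max_left _ _).trans (le_max_right _ _))).trans hY
  have hYe : Real.exp (max 4 (4 / ε)) ≤ Y := ((le_max_right _ _).trans (le_max_right _ _)).trans hY
  have hY0 : (0 : ℝ) < Y := (Real.exp_pos _).trans_le hYe
  obtain ⟨l, hl⟩ : ∃ l : ℝ, l = Real.log Y := ⟨_, rfl⟩
  have hlz : max 4 (4 / ε) ≤ l := by rw [hl, Real.le_log_iff_exp_le hY0]; exact hYe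
  have hl4 : 4 ≤ l := (le_max_left _ _).trans hlz
  have hle : 4 ≤ ε * l := by
    have : 4 / ε ≤ l := (le_max_right _ _).trans hlz
    rw [div_le_iff₀ hε] at this
    linarith
  have hl0 : 0 < l := by linarith
  have hYn : 3 ≤ Y := by
    have e1 : (4 : ℝ) + 1 ≤ Real.exp 4 := Real.add_one_le_exp 4
    have e2 : Real.exp 4 ≤ Real.exp (max 4 (4 / ε)) := Real.exp_le_exp.2 (le_max_left _ _)
    have : (3 : ℝ) ≤ Y := by linarith
    exact_mod_cast this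
  -- the parameters `w`, `w'`
  have hlog4 : l ≤ Real.log ((4 * Y : ℕ) : ℝ) := by
    rw [hl]
    refine Real.log_le_log hY0 ?_
    push_cast
    linarith
  have hwl : l ^ (A + 6) ≤ w := by
    refine le_trans ?_ hR.h1
    calc l ^ (A + 6) ≤ l ^ (c1 + 1) := pow_le_pow_right₀ (by linarith) (by omega)
      _ ≤ _ := pow_le_pow_left₀ hl0.le hlog4 _
  have hlpow : ∀ n : ℕ, 1 ≤ l ^ n := fun n => one_le_pow₀ (by linarith)
  have hw1 : 1 ≤ w := by
    have : (1 : ℝ) ≤ w := (hlpow _).trans hwl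
    exact_mod_cast this
  have hw'1 : 1 ≤ w' := hw1.trans hR.h2
  have hRM : ∀ m : ℕ, m ≤ max M (1000 * k) → Rg2 (4 * Y) w w' c1 m := fun m hm =>
    ⟨hR.h1, hR.h2, (Nat.pow_le_pow_right hw'1 hm).trans hR.h3⟩
  have hw'H : (w' : ℝ) ≤ H := by
    refine le_trans ?_ hH
    rw [← hl]
    exact le_mul_of_one_le_right (Nat.cast_nonneg _) (hlpow C)
  have hw'Hn : w' ≤ H := by exact_mod_cast hw'H
  have hH1 : 1 ≤ H := hw'1.trans hw'Hn
  have hHY : H ≤ Y := le_trans (Nat.le_mul_self H) hHH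
  have hs0 : 0 ≤ sgK k w w' := (h3 Y hY3 w w' (max M (1000 * k)) ((by omega : 1 ≤ 1000 * k).trans (le_max_right _ _)) hR k hk le_rfl).1
  have hE1 := h1 Y hY1 w w' (hRM _ (le_max_right _ _)) H hH hHH
  have hE2 := sqG Y w w' H hw1 hH1 hHY hYn
  have hFi := h2 Y w w' hY2 (hRM _ (le_max_left _ _))
  have hg : (0 : ℝ) ≤ H / l := div_nonneg (Nat.cast_nonneg _) hl0.le
  rw [← hl] at hE1 hE2 ⊢
  -- the exceptions
  have hsub : ((Ioc (Y + H) (3 * Y)).filter fun N => Even N ∧ ε * (SS N * (1 + sgK k w w') * (H / l)) <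
        |LH k w w' H N - SS N * sgK k w w' * (H / l)|) ⊆
      ((Ioc (Y + H) (3 * Y)).filter fun N => ε / 8 * ((1 + sgK k w w') * (H / l)) <
        |WH Y k w w' H N - sgK k w w' * SS N * (H / l)|) ∪
      ((Ioc (Y + H) (3 * Y)).filter fun N => (H : ℝ) / l ^ 2 <
        ∑ p ∈ Icc 1 H, if ∃ q ∈ PP w w', q ^ 2 ∣ N - p then lp p else 0) := by
    intro N hN
    rw [mem_filter] at hN
    rw [mem_union, mem_filter, mem_filter]
    by_contra hcon
    push Not at hcon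
    obtain ⟨hc1', hc2'⟩ := hcon
    have ha := hc1' hN.1
    have hb := hc2' hN.1
    have hN1 := mem_Ioc.1 hN.1
    obtain ⟨p1, p2, p3⟩ := lg_pt hN1.1 hN1.2 hFi
    have hSq : (∑ p ∈ Icc 1 H, if ∃ q ∈ PP w w', q ^ 2 ∣ N - p then lp p else 0) ≤ (H / l) / l := by
      refine hb.trans (le_of_eq ?_)
      rw [div_div, pow_two]
    have hfin := lg_real hε hε'0 hε'1 hε'2 hle hl0 hg hs0 (Pool.Agent.Lib.G5.q8 N hN.2.1) p1 p2 p3 hSq ha
    exact absurd hN.2.2 (not_lt.2 hfin)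
  have hcard := (Nat.cast_le (α := ℝ)).2 ((card_le_card hsub).trans (card_union_le _ _))
  push_cast at hcard
  refine hcard.trans ((add_le_add hE1 hE2).trans ?_)
  -- the sizes
  have hw0' : (0 : ℝ) < w := by exact_mod_cast hw1
  have hlA : 0 < l ^ A := pow_pos hl0 A
  have t1 : (Y : ℝ) / l ^ (A + 1) ≤ (1 / 4) * (Y / l ^ A) := by
    rw [pow_succ, ← div_div, div_le_iff₀ hl0]
    have : 0 ≤ (Y : ℝ) / l ^ A := by positivity
    nlinarith
  have t2 : l ^ 3 * (4 * Y / w) ≤ (1 / 4) * (Y / l ^ A) := by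
    have e1 : 4 * (Y : ℝ) / w ≤ 4 * Y / l ^ (A + 6) := div_le_div_of_nonneg_left (by positivity) (pow_pos hl0 _) hwl
    have e2 : l ^ 3 * (4 * Y / l ^ (A + 6)) = (4 / l ^ 3) * (Y / l ^ A) := by
      rw [show A + 6 = A + 3 + 3 by ring, pow_add, pow_add]
      field_simp
    have e3 : 4 / l ^ 3 ≤ 1 / 4 := by
      rw [div_le_div_iff₀ (pow_pos hl0 3) (by norm_num)]
      have : (4 : ℝ) ^ 3 ≤ l ^ 3 := pow_le_pow_left₀ (by norm_num) hl4 3
      linarith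
    calc l ^ 3 * (4 * Y / w) ≤ l ^ 3 * (4 * Y / l ^ (A + 6)) := mul_le_mul_of_nonneg_left e1 (by positivity)
      _ = (4 / l ^ 3) * (Y / l ^ A) := e2
      _ ≤ _ := mul_le_mul_of_nonneg_right e3 (by positivity)
  have t3 : l ^ 3 * (w' : ℝ) ≤ (1 / 4) * (Y / l ^ A) := by
    have hww : (w' : ℝ) * w' ≤ Y := by
      have : w' * w' ≤ Y := (Nat.mul_le_mul hw'Hn hw'Hn).trans hHH
      exact_mod_cast this
    have h16 : 16 * l ^ (2 * (A + 3)) ≤ Y := by rw [hl]; exact h4 Y hY4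
    have e1 : (4 * l ^ (A + 3) * w') ^ 2 ≤ (Y : ℝ) ^ 2 := by
      calc (4 * l ^ (A + 3) * w') ^ 2 = 16 * l ^ (2 * (A + 3)) * ((w' : ℝ) * w') := by ring
        _ ≤ Y * Y := mul_le_mul h16 hww (by positivity) hY0.le
        _ = (Y : ℝ) ^ 2 := by ring
    have e2 : 4 * l ^ (A + 3) * w' ≤ (Y : ℝ) := by
      exact le_of_sq_le_sq e1 hY0.le
    rw [← mul_div_assoc, le_div_iff₀ hlA]
    calc l ^ 3 * (w' : ℝ) * l ^ A = (1 / 4) * (4 * l ^ (A + 3) * w') := by rw [pow_add]; ring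
      _ ≤ 1 / 4 * Y := by linarith
  have hYA : 0 ≤ (Y : ℝ) / l ^ A := by positivity
  rw [mul_add]
  linarith

end Pool.Agent.Lib.G9
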