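import Pool.Agent.Lib.G3.FourV

/-!
# G9 / Pars: Parseval in windows with fixed coefficients (row PARS)

PROOF. Compare `fourV` (G3/FourV.lean), `four_parsM` and `sum_eM` (orthogonality mod `M`). Let `M = 2 H'`, `W_y(n) = D n` for `n ∈ (y - H', y]`,
else `0`. (1) For every `N` and `1 ≤ h ≤ H`, `D (N - h) ≠ 0`: `n = N - h ≥ 1`, `n + H' ≤ T`; the `y` with `N - 1 ≤ y < N - H + H'` (at least `H' - H ≥ H'/2` of them,
all `< T` if some `D (N - h) ≠ 0`: `y ≤ N - H + H' - 1 ≤ n + H' - 1 < T`) have all of `[N-H, N-1]` in the window `(y - H', y]`. So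
`(H'/2) ∑_{N < T} ‖c(N)‖² ≤ ∑_{y < T} ∑_N ‖c_y(N)‖²`, `c(N) = ∑_{h ≤ H} b h D(N - h)`, `c_y(N) = ∑_{h ≤ H} b h W_y(N - h)` (the second sum over `N < T + H`;
with integers or natural numbers, `D 0 = 0` and truncated subtraction do no harm). (2) For fixed `y` the `N` with `c_y(N) ≠ 0` lie in `(y - H' + 1, y + H]`, fewer than `M`,
and `c_y(N) = (1/M) ∑_{β mod M} B(β) WW D H' (β/M) y e(-βN/M)`, `B(β) = ∑_h b h e(βh/M)` (`WW D H' α y = ∑_{n ∈ Ioc (y-H') y} D n e(nα)`), so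
`∑_N ‖c_y(N)‖² = (1/M) ∑_β ‖B(β)‖² ‖WW D H' (β/M) y‖²`. (3) Sum over `y < T` first: `∑_y ‖WW D H' (β/M) y‖² = VV D H' (β/M) T ≤ Bd`, then `(1/M) ∑_β ‖B(β)‖² = ∑_h ‖b h‖²`
(`H < M`). In all `∑_N ‖c(N)‖² ≤ (2 Bd/H') ∑ ‖b h‖²`.
-/

set_option autoImplicit false

open Finset

namespace Pool.Agent.Lib.G9

open Pool.Agent.Lib.G3 (VV)
open Pool.Agent.Lib.G3 (WW eM eM_comm eM_add four_parsM)
open Pool.Agent.Lib.GT (e)

private noncomputable def cw (H H' : ℕ) (D b : ℕ → ℂ) (y N : ℕ) : ℂ :=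
  ∑ h ∈ Icc 1 H, b h * (if N - h ∈ Ioc (y - H') y then D (N - h) else 0)

private noncomputable def Bf (H M : ℕ) (b : ℕ → ℂ) (β : ℕ) : ℂ := ∑ h ∈ Icc 1 H, b h * eM M β h

private noncomputable def Af (H' M : ℕ) (D : ℕ → ℂ) (y β : ℕ) : ℂ := ∑ n ∈ Ioc (y - H') y, D n * eM M β n

private theorem cw_eq_zero {H H' : ℕ} (hHH : 2 * H ≤ H') (D b : ℕ → ℂ) (y N : ℕ) (hN : N ∉ Icc (y + 1 - H') (y + H')) :
    cw H H' D b y N = 0 := by
  unfold cw
  refine sum_eq_zero fun h hh => ?_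
  rw [mem_Icc] at hh
  rw [mem_Icc] at hN
  rw [if_neg, mul_zero]
  rw [mem_Ioc]
  omega

private theorem cw_four {H H' : ℕ} (hHH : 2 * H ≤ H') (D b : ℕ → ℂ) (y M β : ℕ) :
    ∑ N ∈ Icc (y + 1 - H') (y + H'), cw H H' D b y N * eM M (N : ℤ) (0 + (β : ℕ)) = Bf H M b β * Af H' M D y β := by
  have h1 : ∀ h ∈ Icc 1 H, ∑ N ∈ Icc (y + 1 - H') (y + H'), (if N - h ∈ Ioc (y - H') y then D (N - h) else 0) * eM M β (N : ℤ) =
      ∑ n ∈ Ioc (y - H') y, D n * eM M β ((n : ℤ) + h) := by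
    intro h hh
    rw [mem_Icc] at hh
    have h3 : ∑ N ∈ Icc (y + 1 - H') (y + H'), (if N - h ∈ Ioc (y - H') y then D (N - h) else 0) * eM M β (N : ℤ) =
        ∑ N ∈ (Icc (y + 1 - H') (y + H')).filter (fun N => h < N ∧ N - h ∈ Ioc (y - H') y),
          (if N - h ∈ Ioc (y - H') y then D (N - h) else 0) * eM M β (N : ℤ) := by
      symm
      refine sum_filter_of_ne ?_
      intro N hN h2
      by_contra h3
      apply h2
      rw [if_neg, zero_mul]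
      intro h4
      apply h3
      refine ⟨?_, h4⟩
      rw [mem_Ioc] at h4
      omega
    rw [h3]
    symm
    refine sum_nbij' (fun n => n + h) (fun N => N - h) ?_ ?_ ?_ ?_ ?_
    · intro n hn
      rw [mem_Ioc] at hn
      rw [mem_filter, mem_Icc]
      refine ⟨by omega, by omega, ?_⟩
      rw [mem_Ioc]
      omega
    · intro N hN
      rw [mem_filter] at hN
      exact hN.2.2
    · intro n _
      show n + h - h = n
      omega
    · intro N hN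
      rw [mem_filter] at hN
      show N - h + h = N
      omega
    · intro n hn
      have h2 : n + h - h = n := by omega
      rw [h2, if_pos hn]
      push_cast
      rfl
  have h2 : ∀ N ∈ Icc (y + 1 - H') (y + H'), cw H H' D b y N * eM M (N : ℤ) (0 + (β : ℕ)) =
      ∑ h ∈ Icc 1 H, b h * ((if N - h ∈ Ioc (y - H') y then D (N - h) else 0) * eM M β (N : ℤ)) := by
    intro N _
    unfold cw
    rw [zero_add, eM_comm, sum_mul]
    refine sum_congr rfl fun h _ => ?_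
    ring
  rw [sum_congr rfl h2, sum_comm]
  unfold Bf Af
  rw [sum_mul]
  refine sum_congr rfl fun h hh => ?_
  rw [← mul_sum, h1 h hh]
  have h3 : ∑ n ∈ Ioc (y - H') y, D n * eM M β ((n : ℤ) + h) = eM M β h * ∑ n ∈ Ioc (y - H') y, D n * eM M β n := by
    rw [mul_sum]
    refine sum_congr rfl fun n _ => ?_
    rw [eM_add]
    ring
  rw [h3]
  ring

private theorem inj_of_lt {M : ℕ} {a b : ℕ} (h1 : a < b + M) (h2 : b < a + M) (h : (M : ℤ) ∣ (a : ℤ) - b) : a = b := by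
  have h4 : (a : ℤ) - b = 0 := by
    apply Int.eq_zero_of_abs_lt_dvd h
    rw [abs_lt]
    omega
  omega

private theorem step2 {H H' : ℕ} (hH' : 0 < H') (hHH : 2 * H ≤ H') (D b : ℕ → ℂ) (y : ℕ) (S : Finset ℕ) :
    ((2 * H' : ℕ) : ℝ) * ∑ N ∈ S, ‖cw H H' D b y N‖ ^ 2 ≤
      ∑ β ∈ range (2 * H'), ‖Bf H (2 * H') b β‖ ^ 2 * ‖Af H' (2 * H') D y β‖ ^ 2 := by
  have h1 := four_parsM (2 * H') (by omega) 0 (Icc (y + 1 - H') (y + H')) (fun N => (N : ℤ)) (by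
    intro a ha c hc hac
    rw [mem_Icc] at ha hc
    exact inj_of_lt (by omega) (by omega) hac) (cw H H' D b y)
  have h2 : ∀ β ∈ range (2 * H'), ‖∑ N ∈ Icc (y + 1 - H') (y + H'), cw H H' D b y N * eM (2 * H') (N : ℤ) (0 + (β : ℕ))‖ ^ 2 =
      ‖Bf H (2 * H') b β‖ ^ 2 * ‖Af H' (2 * H') D y β‖ ^ 2 := by
    intro β _
    rw [cw_four hHH, norm_mul, mul_pow]
  rw [sum_congr rfl h2] at h1
  rw [h1]
  refine mul_le_mul_of_nonneg_left ?_ (by positivity)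
  have h3 : ∑ N ∈ S, ‖cw H H' D b y N‖ ^ 2 = ∑ N ∈ S.filter (fun N => N ∈ Icc (y + 1 - H') (y + H')), ‖cw H H' D b y N‖ ^ 2 := by
    symm
    refine sum_filter_of_ne ?_
    intro N _ h4
    by_contra h5
    apply h4
    rw [cw_eq_zero hHH D b y N h5]
    simp
  rw [h3]
  refine sum_le_sum_of_subset_of_nonneg ?_ fun _ _ _ => by positivity
  intro N hN
  exact (mem_filter.1 hN).2

private theorem Af_WW (H' : ℕ) (D : ℕ → ℂ) (y β : ℕ) :
    ‖Af H' (2 * H') D y β‖ ^ 2 = ‖WW D H' ((β : ℝ) / (2 * H' : ℕ)) y‖ ^ 2 := by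
  unfold Af WW eM e
  congr 2
  refine sum_congr rfl fun n _ => ?_
  congr 3
  push_cast
  ring

private theorem step1 {H H' T : ℕ} (D b : ℕ → ℂ) (hH : 1 ≤ H) (hHH : 2 * H ≤ H')
    (hD : ∀ n, D n ≠ 0 → 1 ≤ n ∧ n + H' ≤ T) (N : ℕ) :
    ((H' : ℝ) / 2) * ‖∑ h ∈ Icc 1 H, b h * D (N - h)‖ ^ 2 ≤ ∑ y ∈ range T, ‖cw H H' D b y N‖ ^ 2 := by
  by_cases h0 : ∀ h ∈ Icc 1 H, D (N - h) = 0
  · have h1 : ∑ h ∈ Icc 1 H, b h * D (N - h) = 0 := sum_eq_zero fun h hh => by rw [h0 h hh, mul_zero]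
    rw [h1]
    simp only [norm_zero, ne_eq, OfNat.ofNat_ne_zero, not_false_eq_true, zero_pow, mul_zero]
    exact sum_nonneg fun _ _ => by positivity
  · push Not at h0
    obtain ⟨h0, hh0, hD0⟩ := h0
    rw [mem_Icc] at hh0
    obtain ⟨h1, h2⟩ := hD _ hD0
    have h3 : ∀ y ∈ Ico (N - 1) (N + H' - H), cw H H' D b y N = ∑ h ∈ Icc 1 H, b h * D (N - h) := by
      intro y hy
      rw [mem_Ico] at hy
      unfold cw
      refine sum_congr rfl fun h hh => ?_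
      rw [mem_Icc] at hh
      congr 1
      by_cases h4 : D (N - h) = 0
      · rw [h4]
        simp
      · obtain ⟨h5, h6⟩ := hD _ h4
        rw [if_pos]
        rw [mem_Ioc]
        omega
    have h4 : Ico (N - 1) (N + H' - H) ⊆ range T := by
      intro y hy
      rw [mem_Ico] at hy
      rw [mem_range]
      omega
    calc ((H' : ℝ) / 2) * ‖∑ h ∈ Icc 1 H, b h * D (N - h)‖ ^ 2
        ≤ ((Ico (N - 1) (N + H' - H)).card : ℝ) * ‖∑ h ∈ Icc 1 H, b h * D (N - h)‖ ^ 2 := by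
          refine mul_le_mul_of_nonneg_right ?_ (by positivity)
          rw [Nat.card_Ico]
          have h5 : H' ≤ 2 * (N + H' - H - (N - 1)) := by omega
          have h6 : (H' : ℝ) ≤ 2 * ((N + H' - H - (N - 1) : ℕ) : ℝ) := by exact_mod_cast h5
          linarith
      _ = ∑ y ∈ Ico (N - 1) (N + H' - H), ‖cw H H' D b y N‖ ^ 2 := by
          have h5 : ∑ y ∈ Ico (N - 1) (N + H' - H), ‖cw H H' D b y N‖ ^ 2 =
              ∑ _y ∈ Ico (N - 1) (N + H' - H), ‖∑ h ∈ Icc 1 H, b h * D (N - h)‖ ^ 2 :=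
            sum_congr rfl fun y hy => by rw [h3 y hy]
          rw [h5, sum_const, nsmul_eq_mul]
      _ ≤ _ := sum_le_sum_of_subset_of_nonneg h4 fun _ _ _ => by positivity

theorem parsW {H H' T : ℕ} {Bd : ℝ} (D b : ℕ → ℂ) (hH : 1 ≤ H) (hHH : 2 * H ≤ H') (hD : ∀ n, D n ≠ 0 → 1 ≤ n ∧ n + H' ≤ T)
    (hV : ∀ α : ℝ, VV D H' α T ≤ Bd) :
    ∑ N ∈ range T, ‖∑ h ∈ Icc 1 H, b h * D (N - h)‖ ^ 2 ≤ 2 * Bd / H' * ∑ h ∈ Icc 1 H, ‖b h‖ ^ 2 := by
  have hH' : 0 < H' := by omega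
  have hHr : (0 : ℝ) < H' := by exact_mod_cast hH'
  have e1 : ((H' : ℝ) / 2) * ∑ N ∈ range T, ‖∑ h ∈ Icc 1 H, b h * D (N - h)‖ ^ 2 ≤
      ∑ y ∈ range T, ∑ N ∈ range T, ‖cw H H' D b y N‖ ^ 2 := by
    rw [mul_sum, sum_comm]
    exact sum_le_sum fun N _ => step1 D b hH hHH hD N
  have e2 : ((2 * H' : ℕ) : ℝ) * ∑ y ∈ range T, ∑ N ∈ range T, ‖cw H H' D b y N‖ ^ 2 ≤
      ∑ β ∈ range (2 * H'), ‖Bf H (2 * H') b β‖ ^ 2 * Bd := by
    rw [mul_sum]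
    refine (sum_le_sum fun y _ => step2 hH' hHH D b y (range T)).trans ?_
    rw [sum_comm]
    refine sum_le_sum fun β _ => ?_
    rw [← mul_sum]
    refine mul_le_mul_of_nonneg_left ?_ (by positivity)
    refine le_trans (le_of_eq ?_) (hV ((β : ℝ) / (2 * H' : ℕ)))
    exact sum_congr rfl fun y _ => Af_WW H' D y β
  have e3 : ∑ β ∈ range (2 * H'), ‖Bf H (2 * H') b β‖ ^ 2 = ((2 * H' : ℕ) : ℝ) * ∑ h ∈ Icc 1 H, ‖b h‖ ^ 2 := by
    have h1 := four_parsM (2 * H') (by omega) 0 (Icc 1 H) (fun h => (h : ℤ)) (by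
      intro a ha c hc hac
      rw [mem_Icc] at ha hc
      exact inj_of_lt (by omega) (by omega) hac) b
    rw [← h1]
    refine sum_congr rfl fun β _ => ?_
    unfold Bf
    congr 2
    refine sum_congr rfl fun h _ => ?_
    rw [zero_add, eM_comm]
  rw [← sum_mul, e3] at e2
  have hM : (0 : ℝ) < ((2 * H' : ℕ) : ℝ) := by exact_mod_cast (by omega : 0 < 2 * H')
  have e4 : ∑ y ∈ range T, ∑ N ∈ range T, ‖cw H H' D b y N‖ ^ 2 ≤ (∑ h ∈ Icc 1 H, ‖b h‖ ^ 2) * Bd := by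
    refine le_of_mul_le_mul_left (e2.trans (le_of_eq ?_)) hM
    ring
  have e5 := e1.trans e4
  have e6 : ∑ N ∈ range T, ‖∑ h ∈ Icc 1 H, b h * D (N - h)‖ ^ 2 ≤ ((∑ h ∈ Icc 1 H, ‖b h‖ ^ 2) * Bd) / ((H' : ℝ) / 2) := by
    rw [le_div_iff₀ (by positivity)]
    linarith
  refine e6.trans (le_of_eq ?_)
  field_simp

end Pool.Agent.Lib.G9
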