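import Pool.Agent.Lib.G9.Defs
import Pool.Agent.Lib.G9.Gq
import Pool.Agent.Lib.BV.Main
import Pool.Agent.Lib.G3.Defs2
import Pool.Agent.Lib.SW.VinoSum

/-!
# G9 / Rh: the primes up to `H` against the truncated Ramanujan series, by Bombieri-Vinogradov (row RH)

PROOF. `ram Q n = ∑_{q ≤ Q squarefree} gq q n` (`LQ`), `lp = th` (BV/Defs). For one `q ≤ Q ≤ H^(1/4)`: `gq q (N - p)` depends on `p mod q` (`gq_periodic`), so
`∑_{p ≤ H} lp p gq q (N - p) = ∑_{b < q} gq q (N - b) θ(b)`, `θ(b) = ∑_{p ≤ H, p ≡ b (q)} th p`. For `(b, q) > 1` only primes dividing `q`: these `b` together contribute at most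
`∑_{p | q} log p ≤ log q` (`|gq| ≤ 1`). For `(b, q) = 1`: `θ(b) = EE th H q b + θ'/φ(q)`, `θ' = ∑_{n ≤ H, (n,q)=1} th n`, `|θ' - ∑_{n ≤ H} th n| ≤ log q`, and
`∑_{n ≤ H} th n = H + O(H/(log H)^(B+3))` (prime number theorem: `SW.theta_ap` with `q = 1`). `∑_{(b,q)=1} gq q (N - b) = μ(q) gq q N` (`gq_cop_sum`): main term
`(μ(q)/φ(q)) gq q N · H`, sum over `q`: `H sg Q N`. Errors: (a) `∑_q ∑_b |gq q (N - b)| |EE th H q b| ≤ ∑_q 3^ω(q) max_b |EE th H q b|` (`gq_abs_sum`; take `a q` a `b < q` coprime to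
`q` with the maximal `|EE|`, `a q = 1` for `q = 1`): `≤ H/(log H)^(B+1)` by `BV.bvp (B+1) 3 (1/8)` (`Q ≤ H^(1/4) ≤ H^(1/2 - 1/8)`); (b) `∑_q 2 log q ≤ 2 Q log Q`; (c) PNT:
`(∑_{q ≤ Q} 1/φ(q)) H/(log H)^(B+3)`, with the trivial bound `1/φ(q) ≤ 1`... use `∑_{q ≤ Q squarefree} 1/φ(q) ≤ ∏_{p ≤ Q} (1 + 1/(p-1)) ≤ C log Q` or simply take the
exponent of the prime number theorem and `1/φ(q) ≤ 2 (log q + 1)/q`; any bound `(log H)^2` suffices.
-/

set_option autoImplicit false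

open Finset

namespace Pool.Agent.Lib.G9

open Pool.Agent.Lib.G3 (lp sg)
open Pool.Agent.Lib.VKT (ram)

private theorem th_nonneg' (n : ℕ) : 0 ≤ BV.th n := by
  unfold BV.th
  split_ifs
  · exact Real.log_natCast_nonneg n
  · exact le_rfl

private theorem non_le {q : ℕ} (hq : 1 ≤ q) (H : ℕ) (c : ℕ → ℝ) (hc : ∀ n, |c n| ≤ 1) :
    |∑ n ∈ (Icc 1 H).filter (fun n => ¬ n.Coprime q), BV.th n * c n| ≤ Real.log q := by
  calc |∑ n ∈ (Icc 1 H).filter (fun n => ¬ n.Coprime q), BV.th n * c n|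
      ≤ ∑ n ∈ (Icc 1 H).filter (fun n => ¬ n.Coprime q), BV.th n := by
        refine (abs_sum_le_sum_abs _ _).trans (sum_le_sum fun n _ => ?_)
        rw [abs_mul, abs_of_nonneg (th_nonneg' n)]
        exact mul_le_of_le_one_right (th_nonneg' n) (hc n)
    _ = ∑ n ∈ ((Icc 1 H).filter (fun n => ¬ n.Coprime q)).filter Nat.Prime, Real.log n := by
        exact (sum_filter Nat.Prime (fun n : ℕ => Real.log (n : ℝ))).symm
    _ ≤ ∑ n ∈ q.primeFactors, Real.log n := by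
        refine sum_le_sum_of_subset_of_nonneg (fun n hn => ?_) fun n _ _ => Real.log_natCast_nonneg n
        rw [mem_filter, mem_filter] at hn
        obtain ⟨⟨-, h1⟩, h2⟩ := hn
        refine Nat.mem_primeFactors.2 ⟨h2, ?_, by omega⟩
        by_contra h3
        exact h1 ((Nat.Prime.coprime_iff_not_dvd h2).2 h3)
    _ = Real.log ((∏ n ∈ q.primeFactors, n : ℕ) : ℝ) := by
        rw [Nat.cast_prod, Real.log_prod]
        intro n hn
        have := (Nat.prime_of_mem_primeFactors hn).pos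
        positivity
    _ ≤ Real.log q := by
        refine Real.log_le_log ?_ ?_
        · exact_mod_cast prod_pos fun n hn => (Nat.prime_of_mem_primeFactors hn).pos
        · exact_mod_cast Nat.le_of_dvd hq (Nat.prod_primeFactors_dvd q)

private theorem cop_eq {q : ℕ} (hq : 1 ≤ q) (H : ℕ) (N : ℤ) :
    ∑ n ∈ (Icc 1 H).filter (fun n => n.Coprime q), BV.th n * SW.gq q (N - n) =
      ∑ b ∈ (range q).filter (fun b => Nat.Coprime b q), SW.gq q (N - b) *
        ∑ n ∈ (Icc 1 H).filter (fun n => n ≡ b [MOD q]), BV.th n := by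
  rw [← sum_fiberwise_of_maps_to (g := fun n => n % q) (t := (range q).filter (fun b => Nat.Coprime b q))]
  · refine sum_congr rfl fun b hb => ?_
    rw [mem_filter, mem_range] at hb
    have hset : ((Icc 1 H).filter (fun n => n.Coprime q)).filter (fun n => n % q = b) =
        (Icc 1 H).filter (fun n => n ≡ b [MOD q]) := by
      ext n
      simp only [mem_filter]
      constructor
      · rintro ⟨⟨h1, -⟩, h3⟩
        refine ⟨h1, ?_⟩
        unfold Nat.ModEq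
        rw [h3, Nat.mod_eq_of_lt hb.1]
      · rintro ⟨h1, h2⟩
        have h3 : n % q = b := by
          have := h2
          unfold Nat.ModEq at this
          rwa [Nat.mod_eq_of_lt hb.1] at this
        refine ⟨⟨h1, ?_⟩, h3⟩
        have h4 : Nat.gcd n q = Nat.gcd b q := by
          rw [Nat.gcd_comm n q, Nat.gcd_rec q n, h3]
        unfold Nat.Coprime
        rw [h4]
        exact hb.2
    rw [hset, mul_sum]
    refine sum_congr rfl fun n hn => ?_
    rw [mem_filter] at hn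
    have h3 : n % q = b := by
      have := hn.2
      unfold Nat.ModEq at this
      rwa [Nat.mod_eq_of_lt hb.1] at this
    have h4 : (N - n : ℤ) = (N - b) + (q : ℤ) * (-((n / q : ℕ) : ℤ)) := by
      have h5 : ((n : ℕ) : ℤ) = (q : ℤ) * ((n / q : ℕ) : ℤ) + ((n % q : ℕ) : ℤ) := by
        exact_mod_cast (Nat.div_add_mod n q).symm
      rw [h5, h3]
      ring
    rw [h4, SW.gq_periodic]
    ring
  · intro n hn
    rw [mem_filter] at hn ⊢
    refine ⟨mem_range.2 (Nat.mod_lt _ hq), ?_⟩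
    have h4 : Nat.gcd (n % q) q = Nat.gcd n q := by
      rw [Nat.gcd_comm n q, Nat.gcd_rec q n]
    unfold Nat.Coprime
    rw [h4]
    exact hn.2

private theorem per_q {q : ℕ} (hq1 : 1 ≤ q) (hq : Squarefree q) (H N c : ℕ)
    (hmax : ∀ b ∈ (range q).filter (fun b => Nat.Coprime b q), |BV.EE BV.th H q b| ≤ |BV.EE BV.th H q c|) :
    |∑ n ∈ Icc 1 H, BV.th n * SW.gq q ((N : ℤ) - n) -
        H * (((ArithmeticFunction.moebius q : ℤ) : ℝ) / (q.totient : ℝ) * SW.gq q N)| ≤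
      (3 : ℝ) ^ q.primeFactors.card * |BV.EE BV.th H q c| +
        |∑ n ∈ Icc 1 H, BV.th n - H| * (1 / (q.totient : ℝ)) + 2 * Real.log q := by
  set G : ℝ := ((ArithmeticFunction.moebius q : ℤ) : ℝ) * SW.gq q N with hG
  set φ : ℝ := (q.totient : ℝ) with hφ
  have hφ1 : 1 ≤ φ := by
    rw [hφ]
    exact_mod_cast Nat.totient_pos.2 hq1
  have hφ0 : 0 < φ := by linarith
  set θ : ℝ := ∑ n ∈ Icc 1 H, BV.th n with hθ
  set θn : ℝ := ∑ n ∈ (Icc 1 H).filter (fun n => ¬ n.Coprime q), BV.th n with hθn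
  set θc : ℝ := ∑ n ∈ (Icc 1 H).filter (fun n => n.Coprime q), BV.th n with hθc
  set Sn : ℝ := ∑ n ∈ (Icc 1 H).filter (fun n => ¬ n.Coprime q), BV.th n * SW.gq q ((N : ℤ) - n) with hSn
  set E : ℝ := ∑ b ∈ (range q).filter (fun b => Nat.Coprime b q), SW.gq q ((N : ℤ) - b) * BV.EE BV.th H q b with hE
  have h1 : θc + θn = θ := sum_filter_add_sum_filter_not _ _ _
  have h2 : ∑ n ∈ Icc 1 H, BV.th n * SW.gq q ((N : ℤ) - n) = E + 1 / φ * θc * G + Sn := by
    rw [← sum_filter_add_sum_filter_not (Icc 1 H) (fun n => n.Coprime q), cop_eq hq1, hG,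
      ← gq_cop_sum q hq (N : ℤ), hE, mul_sum, ← sum_add_distrib]
    congr 1
    refine sum_congr rfl fun b _ => ?_
    unfold BV.EE
    ring
  have hGa : |G| ≤ 1 := by
    rw [hG, abs_mul]
    refine mul_le_one₀ ?_ (abs_nonneg _) (SW.abs_gq_le q N)
    have := ArithmeticFunction.abs_moebius_le_one (n := q)
    exact_mod_cast this
  have hn1 : |Sn| ≤ Real.log q := non_le hq1 H _ fun n => SW.abs_gq_le q _
  have hn2 : |θn| ≤ Real.log q := by
    have := non_le hq1 H (fun _ => 1) fun n => by simp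
    simpa using this
  have hEa : |E| ≤ (3 : ℝ) ^ q.primeFactors.card * |BV.EE BV.th H q c| := by
    calc |E| ≤ ∑ b ∈ (range q).filter (fun b => Nat.Coprime b q), |SW.gq q ((N : ℤ) - b)| * |BV.EE BV.th H q c| := by
          refine (abs_sum_le_sum_abs _ _).trans (sum_le_sum fun b hb => ?_)
          rw [abs_mul]
          exact mul_le_mul_of_nonneg_left (hmax b hb) (abs_nonneg _)
      _ ≤ ∑ b ∈ range q, |SW.gq q ((N : ℤ) - b)| * |BV.EE BV.th H q c| :=
          sum_le_sum_of_subset_of_nonneg (filter_subset _ _) fun b _ _ => by positivity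
      _ = (∑ b ∈ range q, |SW.gq q ((N : ℤ) - b)|) * |BV.EE BV.th H q c| := by rw [sum_mul]
      _ ≤ _ := mul_le_mul_of_nonneg_right (gq_abs_sum q hq N) (abs_nonneg _)
  have h3 : ∑ n ∈ Icc 1 H, BV.th n * SW.gq q ((N : ℤ) - n) -
      H * (((ArithmeticFunction.moebius q : ℤ) : ℝ) / φ * SW.gq q N) =
      E + (θ - H) * (1 / φ) * G + (Sn - 1 / φ * θn * G) := by
    rw [h2, ← h1, hG]
    ring
  have hf0 : 0 ≤ 1 / φ := by positivity
  have hf1 : 1 / φ ≤ 1 := by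
    rw [div_le_one hφ0]
    exact hφ1
  have h4 : |(θ - H) * (1 / φ) * G| ≤ |θ - H| * (1 / φ) := by
    rw [abs_mul, abs_mul, abs_of_nonneg hf0]
    exact mul_le_of_le_one_right (by positivity) hGa
  have h5 : |Sn - 1 / φ * θn * G| ≤ 2 * Real.log q := by
    have h6 : |1 / φ * θn * G| ≤ Real.log q := by
      rw [abs_mul, abs_mul, abs_of_nonneg hf0]
      calc 1 / φ * |θn| * |G| ≤ 1 * |θn| * 1 := by gcongr
        _ = |θn| := by ring
        _ ≤ _ := hn2
    have h7 := abs_sub Sn (1 / φ * θn * G)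
    linarith
  rw [h3]
  have h8 := abs_add_le (E + (θ - H) * (1 / φ) * G) (Sn - 1 / φ * θn * G)
  have h9 := abs_add_le E ((θ - H) * (1 / φ) * G)
  linarith

private theorem exists_max_class (q : ℕ) (hq1 : 1 ≤ q) (f : ℕ → ℝ) :
    ∃ c : ℕ, c.Coprime q ∧ ∀ b ∈ (range q).filter (fun b => Nat.Coprime b q), f b ≤ f c := by
  have hne : ((range q).filter (fun b => Nat.Coprime b q)).Nonempty := by
    rcases eq_or_lt_of_le hq1 with h | h
    · refine ⟨0, ?_⟩
      rw [← h]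
      simp
    · exact ⟨1, by simp [h]⟩
  obtain ⟨c, hc, hm⟩ := exists_max_image _ f hne
  exact ⟨c, (mem_filter.1 hc).2, hm⟩

private theorem rh_le (H Q N : ℕ) (hHN : H < N) : ∃ a : ℕ → ℕ, (∀ q ∈ Icc 1 Q, (a q).Coprime q) ∧
    |RH Q H N - H * sg Q N| ≤ ∑ q ∈ Icc 1 Q, (3 : ℝ) ^ q.primeFactors.card * |BV.EE BV.th H q (a q)| +
      |∑ n ∈ Icc 1 H, BV.th n - H| * (1 + Real.log Q) ^ 2 + 2 * (Q * Real.log Q) := by
  have hch : ∀ q : ℕ, ∃ c : ℕ, 1 ≤ q → (c.Coprime q ∧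
      ∀ b ∈ (range q).filter (fun b => Nat.Coprime b q), |BV.EE BV.th H q b| ≤ |BV.EE BV.th H q c|) := by
    intro q
    by_cases h : 1 ≤ q
    · obtain ⟨c, hc⟩ := exists_max_class q h (fun b => |BV.EE BV.th H q b|)
      exact ⟨c, fun _ => hc⟩
    · exact ⟨0, fun h' => absurd h' h⟩
  choose a ha using hch
  refine ⟨a, fun q hq => (ha q (mem_Icc.1 hq).1).1, ?_⟩
  have h1 : RH Q H N = ∑ q ∈ (Icc 1 Q).filter Squarefree, ∑ n ∈ Icc 1 H, BV.th n * SW.gq q ((N : ℤ) - n) := by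
    rw [sum_comm]
    unfold RH
    refine sum_congr rfl fun n hn => ?_
    have hnN : n ≤ N := (mem_Icc.1 hn).2.trans hHN.le
    unfold ram SW.LQ
    rw [← mul_sum, Nat.cast_sub hnN]
    rfl
  have h2 : (H : ℝ) * sg Q N = ∑ q ∈ (Icc 1 Q).filter Squarefree,
      H * (((ArithmeticFunction.moebius q : ℤ) : ℝ) / (q.totient : ℝ) * SW.gq q N) := by
    unfold sg
    rw [mul_sum]
  rw [h1, h2, ← sum_sub_distrib]
  refine (abs_sum_le_sum_abs _ _).trans ?_
  have h3 : ∀ q ∈ (Icc 1 Q).filter Squarefree,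
      |∑ n ∈ Icc 1 H, BV.th n * SW.gq q ((N : ℤ) - n) -
        H * (((ArithmeticFunction.moebius q : ℤ) : ℝ) / (q.totient : ℝ) * SW.gq q N)| ≤
      (3 : ℝ) ^ q.primeFactors.card * |BV.EE BV.th H q (a q)| +
        |∑ n ∈ Icc 1 H, BV.th n - H| * (1 / (q.totient : ℝ)) + 2 * Real.log Q := by
    intro q hq
    rw [mem_filter, mem_Icc] at hq
    have h4 := per_q hq.1.1 hq.2 H N (a q) (ha q hq.1.1).2
    have h5 : Real.log q ≤ Real.log Q := by
      refine Real.log_le_log (by exact_mod_cast hq.1.1) (by exact_mod_cast hq.1.2)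
    linarith
  refine (sum_le_sum h3).trans ?_
  have h6 : ∑ q ∈ (Icc 1 Q).filter Squarefree, ((3 : ℝ) ^ q.primeFactors.card * |BV.EE BV.th H q (a q)| +
        |∑ n ∈ Icc 1 H, BV.th n - H| * (1 / (q.totient : ℝ)) + 2 * Real.log Q) ≤
      ∑ q ∈ Icc 1 Q, ((3 : ℝ) ^ q.primeFactors.card * |BV.EE BV.th H q (a q)| +
        |∑ n ∈ Icc 1 H, BV.th n - H| * (1 / (q.totient : ℝ)) + 2 * Real.log Q) := by
    refine sum_le_sum_of_subset_of_nonneg (filter_subset _ _) fun q _ _ => ?_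
    have := Real.log_natCast_nonneg Q
    positivity
  refine h6.trans ?_
  rw [sum_add_distrib, sum_add_distrib, ← mul_sum, sum_const, Nat.card_Icc]
  have h7 := BV.sum_pow_omega 1 Q
  have h8 : ∑ q ∈ Icc 1 Q, (1 / (q.totient : ℝ)) ≤ (1 + Real.log Q) ^ 2 := by
    simpa using h7
  have h9 := mul_le_mul_of_nonneg_left h8 (abs_nonneg (∑ n ∈ Icc 1 H, BV.th n - (H : ℝ)))
  have h10 : (Q + 1 - 1) • (2 * Real.log Q) = 2 * (Q * Real.log Q) := by
    rw [Nat.add_sub_cancel, nsmul_eq_mul]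
    ring
  rw [h10]
  linarith

private theorem theta_one (B : ℕ) : ∃ C : ℝ, 0 < C ∧ ∀ H : ℕ, 2 ≤ H →
    |∑ n ∈ Icc 1 H, BV.th n - H| ≤ C * H / (Real.log H) ^ B := by
  obtain ⟨C, hC, h⟩ := SW.theta_ap B 1 one_pos
  refine ⟨C, hC, fun H hH => ?_⟩
  have h1 := h 1 0 le_rfl (by simp) (H : ℝ) (by exact_mod_cast hH)
  have h2 : ∑ n ∈ (Icc 1 ⌊(H : ℝ)⌋₊).filter (fun n => n.Prime ∧ n ≡ 0 [MOD 1]), Real.log n =
      ∑ n ∈ Icc 1 H, BV.th n := by
    rw [Nat.floor_natCast]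
    have h3 : (Icc 1 H).filter (fun n => n.Prime ∧ n ≡ 0 [MOD 1]) = (Icc 1 H).filter (fun n => n.Prime) := by
      refine filter_congr fun n _ => ?_
      simp [Nat.modEq_one]
    rw [h3, sum_filter]
    rfl
  rw [h2] at h1
  simpa using h1

private theorem ev_log (k : ℕ) : ∃ H0 : ℕ, ∀ H : ℕ, H0 ≤ H → 2 * (Real.log H) ^ k ≤ (H : ℝ) ^ (3 / 4 : ℝ) := by
  have h1 := isLittleO_log_rpow_rpow_atTop (k : ℝ) (show (0 : ℝ) < 3 / 4 by norm_num)
  have h2 := (h1.bound (show (0 : ℝ) < 1 / 2 by norm_num))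
  have h3 := tendsto_natCast_atTop_atTop (R := ℝ) |>.eventually h2
  obtain ⟨H0, h4⟩ := Filter.eventually_atTop.1 h3
  refine ⟨H0, fun H hH => ?_⟩
  have h5 := h4 H hH
  rw [Real.rpow_natCast, Real.norm_of_nonneg (pow_nonneg (Real.log_natCast_nonneg H) k),
    Real.norm_of_nonneg (by positivity)] at h5
  linarith

theorem rhB (B : ℕ) : ∃ H0 : ℕ, ∀ H Q N : ℕ, H0 ≤ H → Q ^ 4 ≤ H → H < N → |RH Q H N - H * sg Q N| ≤ H / (Real.log H) ^ B := by
  obtain ⟨C, hC, hθ⟩ := theta_one (B + 3)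
  obtain ⟨H1, hbv⟩ := BV.bvp (B + 1) 3 (1 / 4) (by norm_num)
  obtain ⟨H2, hlog⟩ := ev_log (B + 2)
  obtain ⟨H3, hbig⟩ := Filter.eventually_atTop.1
    ((Real.tendsto_log_atTop.comp (tendsto_natCast_atTop_atTop (R := ℝ))).eventually_ge_atTop (2 + C + 4))
  refine ⟨max 2 (max H1 (max H2 H3)), fun H Q N hH hQ hHN => ?_⟩
  simp only [max_le_iff] at hH
  obtain ⟨hH2, hH1', hH2', hH3'⟩ := hH
  have hL : 2 + C + 4 ≤ Real.log H := hbig H hH3'
  set L := Real.log H with hLdef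
  have hL0 : 0 < L := by linarith
  have hHpos : (0 : ℝ) < H := by exact_mod_cast (by omega : 0 < H)
  have hQr : (Q : ℝ) ≤ (H : ℝ) ^ (1 / 4 : ℝ) := by
    have h1 : ((Q : ℝ) ^ 4) ≤ H := by exact_mod_cast hQ
    calc (Q : ℝ) = ((Q : ℝ) ^ 4) ^ (1 / 4 : ℝ) := by
          rw [← Real.rpow_natCast, ← Real.rpow_mul (by positivity)]
          norm_num
      _ ≤ _ := Real.rpow_le_rpow (by positivity) h1 (by norm_num)
  obtain ⟨a, hac, hle⟩ := rh_le H Q N hHN
  have hb := hbv H hH1' Q (by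
    have : (1 / 2 - 1 / 4 : ℝ) = 1 / 4 := by norm_num
    rw [this]
    exact hQr) a hac
  have hb' : ∑ q ∈ Icc 1 Q, (3 : ℝ) ^ q.primeFactors.card * |BV.EE BV.th H q (a q)| ≤ H / L ^ (B + 1) := by
    simpa using hb
  have hQlog : Real.log Q ≤ L / 4 := by
    rcases Nat.eq_zero_or_pos Q with h0 | h0
    · rw [h0]
      simp only [CharP.cast_eq_zero, Real.log_zero]
      linarith
    · have h1 : Real.log Q ≤ Real.log ((H : ℝ) ^ (1 / 4 : ℝ)) :=
        Real.log_le_log (by exact_mod_cast h0) hQr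
      rw [Real.log_rpow hHpos] at h1
      linarith
  have hQ0 : 0 ≤ Real.log Q := Real.log_natCast_nonneg Q
  have h2 : |∑ n ∈ Icc 1 H, BV.th n - H| * (1 + Real.log Q) ^ 2 ≤ C * (H / L ^ (B + 1)) := by
    calc |∑ n ∈ Icc 1 H, BV.th n - H| * (1 + Real.log Q) ^ 2 ≤ (C * H / L ^ (B + 3)) * L ^ 2 := by
          have h3 := hθ H hH2
          have h4 : 1 + Real.log Q ≤ L := by linarith
          gcongr
      _ = C * (H / L ^ (B + 1)) := by
          rw [show B + 3 = (B + 1) + 2 by ring, pow_add]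
          field_simp
  have h3 : 2 * (Q * Real.log Q) ≤ H / L ^ (B + 1) := by
    rw [le_div_iff₀ (by positivity)]
    have h4 := hlog H hH2'
    calc 2 * (Q * Real.log Q) * L ^ (B + 1) ≤ 2 * ((H : ℝ) ^ (1 / 4 : ℝ) * L) * L ^ (B + 1) := by
          have : Real.log Q ≤ L := by linarith
          gcongr
      _ = (H : ℝ) ^ (1 / 4 : ℝ) * (2 * L ^ (B + 2)) := by ring
      _ ≤ (H : ℝ) ^ (1 / 4 : ℝ) * (H : ℝ) ^ (3 / 4 : ℝ) := by gcongr
      _ = H := by
          rw [← Real.rpow_add hHpos]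
          norm_num
  have h4 : (2 + C) * (H / L ^ (B + 1)) ≤ H / L ^ B := by
    rw [pow_succ, mul_div_assoc', div_le_div_iff₀ (by positivity) (by positivity)]
    have h5 : (2 + C) * (H * L ^ B) ≤ L * (H * L ^ B) := by
      refine mul_le_mul_of_nonneg_right ?_ (by positivity)
      linarith
    nlinarith [h5]
  linarith

end Pool.Agent.Lib.G9
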