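import Pool.Agent.Lib.G9.Pars
import Pool.Agent.Lib.G9.Rh
import Pool.Agent.Lib.G5.ASg
import Pool.Agent.Lib.G5.Q2
import Pool.Agent.Lib.G3.MajV

/-!
# G9 / Wt: the weighted count for almost all `N` (row WT)

PROOF. `l = log 32Y`. `c` from `G5.sgQ (A+4)`; `varK2 k (A+20) (max c 1)` gives `g ≥ c`, `a1`, then `c6` for `c1 ≥ a1` (c10 = a1 + 1, `C = c6 + 4g + 30`; `Rg2 (4Y) w w' c1 M` with
`M = 1000 k` gives the condition with `c1 - 1`: `(c1 - 1) + 1 = c1`). `Q = ⌊l^g⌋`, `Q^4 ≤ H`. (1) `D n = Fk n - rk n ram Q n`, supported in `[1, 32Y]` (`Fk2_le`, `rk2_le`),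
`parsW` with `b = lp` on `[1, H]`, `H' = 2H`, `T = 32Y + 2H + 1`, `Bd = 32Y (2H)²/l^(A+20)`: `∑_N |∑_p lp p D(N-p)|² ≤ 2 · 32Y (2H)/l^(A+20) · H (log H)²`, so at most
`Y/l^(A+8)` of the `N` have `|∑_p lp p D(N-p)| > H/l²`. (2) For `Y + H < N ≤ 3Y` all `N - p ∈ (Y, 3Y]`, `rk = sgK/l` (`platK2`), so
`∑_p lp p rk(N-p) ram Q (N-p) = (sgK/l) RH Q H N`. (3) `rhB 1`: `|RH - H sg Q N| ≤ H/log H` (`H ≥ (log Y)^C → ∞`). (4) `sgQ` at `X := Y`, `H := Y` and at `X := 2Y`, `H := Y`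
(`l^g/2 ≤ Q ≤ 2 (log X)^g` for `X = Y, 2Y`; `log Y ~ l`; windows `(Y, 2Y]`, `(2Y, 3Y]`): all but `2·2Y/l^(A+4)` of the `N` have `|sg Q N - SS N| ≤ 1/(log Y)^(A+4)`. `|sg Q N|`: use
`|sg - SS| ≤ 1`. Error for these `N`: `H/l² + (sgK/l)(H/log H + H/l) ≤ ε (1 + sgK) H/log Y`. `sgK ≥ 0`; `H ≤ Y` from `H*H ≤ Y`.
-/

set_option autoImplicit false

open Finset

namespace Pool.Agent.Lib.G9

open Pool.Agent.Lib.G3 (SS)
open Pool.Agent.Lib.G5 (sgK Rg2)

open Pool.Agent.Lib.G3 (lp sg VV siP siF siH) in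
private theorem wt_sg : ∃ C : ℝ, 0 < C ∧ ∀ Q N : ℕ, 2 ≤ Q → |sg Q N| ≤ C * Real.log Q := by
  classical
  obtain ⟨C, hC, hmer⟩ := Pool.Agent.Lib.G3.si_mer
  refine ⟨C, hC, fun Q N hQ => le_trans ?_ (hmer Q hQ)⟩
  rw [Pool.Agent.Lib.G3.si_sg, prod_one_add]
  refine (abs_sum_le_sum_abs _ _).trans ?_
  have hpr : ∀ s ∈ (siP Q).powerset, ∀ p ∈ s, p.Prime := fun s hs p hp =>
    (Pool.Agent.Lib.G3.si_mem.1 (mem_powerset.1 hs hp)).2
  calc ∑ s ∈ (siP Q).powerset.filter (fun s => ∏ p ∈ s, p ≤ Q), |∏ p ∈ s, siF N p|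
      ≤ ∑ s ∈ (siP Q).powerset.filter (fun s => ∏ p ∈ s, p ≤ Q), ∏ p ∈ s, 1 / ((p : ℝ) - 1) := by
        refine sum_le_sum fun s hs => ?_
        have hs' := (mem_filter.1 hs).1
        rw [abs_prod]
        refine prod_le_prod (fun p _ => abs_nonneg _) fun p hp => ?_
        rw [Pool.Agent.Lib.G3.si_abs (hpr s hs' p hp)]
        exact Pool.Agent.Lib.G3.si_H1 (hpr s hs' p hp)
    _ ≤ ∑ s ∈ (siP Q).powerset, ∏ p ∈ s, 1 / ((p : ℝ) - 1) := by
        refine sum_le_sum_of_subset_of_nonneg (filter_subset _ _) fun s hs _ => ?_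
        refine prod_nonneg fun p hp => ?_
        have h1 := Pool.Agent.Lib.G3.si_sub (hpr s hs p hp)
        have h2 : (0 : ℝ) < (p : ℝ) - 1 := by linarith
        positivity

open Pool.Agent.Lib.G3 (lp VV) in
/-- the exceptional set from the mean square -/
private theorem wt_exc {H T : ℕ} {V : ℝ} (D : ℕ → ℝ) (hH : 1 ≤ H) (hD : ∀ n, D n ≠ 0 → 1 ≤ n ∧ n + 2 * H ≤ T)
    (hV : ∀ α : ℝ, VV (fun n => ((D n : ℝ) : ℂ)) (2 * H) α T ≤ V) (hV0 : 0 ≤ V) {δ : ℝ} (hδ : 0 < δ) :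
    (((range T).filter fun N => δ < |∑ p ∈ Icc 1 H, lp p * D (N - p)|).card : ℝ) * δ ^ 2 ≤
      V * (Real.log H) ^ 2 := by
  classical
  have hp := parsW (H := H) (H' := 2 * H) (T := T) (Bd := V) (fun n => ((D n : ℝ) : ℂ)) (fun n => ((lp n : ℝ) : ℂ)) hH le_rfl
    (fun n hn => hD n (fun h => hn (by simp [h]))) hV
  have hHr : (0 : ℝ) < H := by exact_mod_cast hH
  have h1 : ∑ h ∈ Icc 1 H, ‖((lp h : ℝ) : ℂ)‖ ^ 2 ≤ H * (Real.log H) ^ 2 := by
    calc ∑ h ∈ Icc 1 H, ‖((lp h : ℝ) : ℂ)‖ ^ 2 ≤ ∑ h ∈ Icc 1 H, (Real.log H) ^ 2 := by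
          refine sum_le_sum fun h hh => ?_
          rw [mem_Icc] at hh
          rw [Complex.norm_real, Real.norm_eq_abs, sq_abs]
          have h0 : 0 ≤ Real.log h := Real.log_nonneg (by exact_mod_cast hh.1)
          have h2 : Real.log h ≤ Real.log H :=
            Real.log_le_log (by exact_mod_cast hh.1) (by exact_mod_cast hh.2)
          unfold Pool.Agent.Lib.G3.lp
          split_ifs
          · exact pow_le_pow_left₀ h0 h2 2
          · exact pow_le_pow_left₀ le_rfl (h0.trans h2) 2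
      _ = H * (Real.log H) ^ 2 := by
          rw [sum_const, Nat.card_Icc, nsmul_eq_mul]
          simp
  have h2 : ∀ N, ‖∑ h ∈ Icc 1 H, ((lp h : ℝ) : ℂ) * ((D (N - h) : ℝ) : ℂ)‖ = |∑ p ∈ Icc 1 H, lp p * D (N - p)| := by
    intro N
    rw [← Real.norm_eq_abs, ← Complex.norm_real]
    congr 1
    push_cast
    rfl
  calc (((range T).filter fun N => δ < |∑ p ∈ Icc 1 H, lp p * D (N - p)|).card : ℝ) * δ ^ 2
      = ∑ N ∈ (range T).filter (fun N => δ < |∑ p ∈ Icc 1 H, lp p * D (N - p)|), δ ^ 2 := by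
        rw [sum_const, nsmul_eq_mul]
    _ ≤ ∑ N ∈ (range T).filter (fun N => δ < |∑ p ∈ Icc 1 H, lp p * D (N - p)|),
          ‖∑ h ∈ Icc 1 H, ((lp h : ℝ) : ℂ) * ((D (N - h) : ℝ) : ℂ)‖ ^ 2 := by
        refine sum_le_sum fun N hN => ?_
        rw [h2 N]
        exact pow_le_pow_left₀ hδ.le (mem_filter.1 hN).2.le 2
    _ ≤ ∑ N ∈ range T, ‖∑ h ∈ Icc 1 H, ((lp h : ℝ) : ℂ) * ((D (N - h) : ℝ) : ℂ)‖ ^ 2 :=
        sum_le_sum_of_subset_of_nonneg (filter_subset _ _) fun N _ _ => by positivity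
    _ ≤ 2 * V / (2 * H : ℕ) * ∑ h ∈ Icc 1 H, ‖((lp h : ℝ) : ℂ)‖ ^ 2 := hp
    _ ≤ 2 * V / (2 * H : ℕ) * (H * (Real.log H) ^ 2) := by
        refine mul_le_mul_of_nonneg_left h1 ?_
        positivity
    _ = V * (Real.log H) ^ 2 := by
        push_cast
        field_simp

/-- the final inequality -/
private theorem wt_fin {W R S s σ H L l lH ε K : ℝ} (hH : 0 < H) (hL : 4 ≤ L) (hl : L ≤ l) (hl4 : l ≤ L + 4) (hσ : 0 ≤ σ)
    (hε : 0 < ε) (h1 : |W - σ / l * R| ≤ H / l ^ 2) (h2 : |R - H * s| ≤ H / lH) (h3 : |s - S| ≤ 1 / L) (h4 : |S| ≤ K)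
    (h5 : 4 / ε ≤ L) (h6 : 4 / ε ≤ lH) (h7 : 16 * K ≤ ε * L) : |W - σ * S * (H / L)| ≤ ε * ((1 + σ) * (H / L)) := by
  have hL0 : 0 < L := by linarith
  have hl0 : 0 < l := by linarith
  have hlH : 0 < lH := lt_of_lt_of_le (by positivity) h6
  have e1 : 1 / L ≤ ε / 4 := by
    rw [div_le_iff₀ hL0]
    have := (div_le_iff₀ hε).1 h5
    linarith
  have e2 : 1 / lH ≤ ε / 4 := by
    rw [div_le_iff₀ hlH]
    have := (div_le_iff₀ hε).1 h6
    linarith
  have e3 : 1 / l ≤ 1 / L := one_div_le_one_div_of_le hL0 hl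
  have e3' : 0 < 1 / l := by positivity
  have hHL : 0 < H / L := by positivity
  have hK0 : 0 ≤ K := (abs_nonneg _).trans h4
  have k1 : H / l ^ 2 ≤ (H / L) * (ε / 4) := by
    have : H / l ^ 2 = H * (1 / l) * (1 / l) := by field_simp
    rw [this]
    calc H * (1 / l) * (1 / l) ≤ H * (1 / L) * (1 / L) := by gcongr
      _ ≤ H * (1 / L) * (ε / 4) := by gcongr
      _ = (H / L) * (ε / 4) := by ring
  have k2 : |σ / l * (R - H * s)| ≤ σ * ((H / L) * (ε / 4)) := by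
    rw [abs_mul, abs_of_nonneg (by positivity : (0 : ℝ) ≤ σ / l)]
    calc σ / l * |R - H * s| ≤ σ / l * (H / lH) := by gcongr
      _ = σ * (H * (1 / l) * (1 / lH)) := by field_simp
      _ ≤ σ * (H * (1 / L) * (ε / 4)) := by gcongr
      _ = σ * ((H / L) * (ε / 4)) := by ring
  have k3 : |σ / l * (H * (s - S))| ≤ σ * ((H / L) * (ε / 4)) := by
    rw [abs_mul, abs_of_nonneg (by positivity : (0 : ℝ) ≤ σ / l), abs_mul, abs_of_pos hH]
    calc σ / l * (H * |s - S|) ≤ σ / l * (H * (1 / L)) := by gcongr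
      _ = σ * (H * (1 / l) * (1 / L)) := by field_simp
      _ ≤ σ * (H * (1 / L) * (ε / 4)) := by gcongr
      _ = σ * ((H / L) * (ε / 4)) := by ring
  have k4 : |σ * S * H * (1 / l - 1 / L)| ≤ σ * ((H / L) * (ε / 4)) := by
    have a1 : |1 / l - 1 / L| ≤ 4 / (L * L) := by
      rw [abs_sub_comm, abs_of_nonneg (by linarith)]
      have : 1 / L - 1 / l = (l - L) / (L * l) := by field_simp
      rw [this]
      calc (l - L) / (L * l) ≤ 4 / (L * l) := by gcongr; linarith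
        _ ≤ 4 / (L * L) := by gcongr
    rw [abs_mul, abs_mul, abs_mul, abs_of_nonneg hσ, abs_of_pos hH]
    calc σ * |S| * H * |1 / l - 1 / L| ≤ σ * K * H * (4 / (L * L)) := by gcongr
      _ = σ * ((H / L) * ((16 * K) / L / 4)) := by field_simp; ring
      _ ≤ σ * ((H / L) * ((ε * L) / L / 4)) := by gcongr
      _ = σ * ((H / L) * (ε / 4)) := by field_simp
  have e : W - σ * S * (H / L) = (W - σ / l * R) + σ / l * (R - H * s) + σ / l * (H * (s - S)) + σ * S * H * (1 / l - 1 / L) := by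
    field_simp
    ring
  rw [e]
  have t1 := abs_add_le ((W - σ / l * R) + σ / l * (R - H * s) + σ / l * (H * (s - S))) (σ * S * H * (1 / l - 1 / L))
  have t2 := abs_add_le ((W - σ / l * R) + σ / l * (R - H * s)) (σ / l * (H * (s - S)))
  have t3 := abs_add_le (W - σ / l * R) (σ / l * (R - H * s))
  have t4 : (H / L) * (ε / 4) + 3 * (σ * ((H / L) * (ε / 4))) ≤ ε * ((1 + σ) * (H / L)) := by
    have : 0 ≤ σ * (H / L) * ε := by positivity
    have : 0 ≤ (H / L) * ε := by positivity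
    nlinarith
  linarith

theorem wtG (k A : ℕ) (hk : 2 ≤ k) : ∃ c10 : ℕ, ∀ c1 : ℕ, c10 ≤ c1 → ∃ C : ℕ, ∀ ε : ℝ, 0 < ε → ∃ x0 : ℝ, ∀ Y : ℕ, x0 ≤ Y →
    ∀ w w' : ℕ, Rg2 (4 * Y) w w' c1 (1000 * k) → ∀ H : ℕ, (w' : ℝ) * (Real.log Y) ^ C ≤ H → H * H ≤ Y →
      (((Ioc (Y + H) (3 * Y)).filter fun N => ε * ((1 + sgK k w w') * (H / Real.log Y)) <
        |WH Y k w w' H N - sgK k w w' * SS N * (H / Real.log Y)|).card : ℝ) ≤ Y / (Real.log Y) ^ A := by
  classical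
  obtain ⟨c, hc⟩ := Pool.Agent.Lib.G5.sgQ (A + 4)
  obtain ⟨g, hg, a1, hv⟩ := Pool.Agent.Lib.VKT.varK2 k (A + 20) (max c 1)
  obtain ⟨xs, hxs⟩ := hc g ((le_max_left _ _).trans hg)
  have hg1 : 1 ≤ g := (le_max_right _ _).trans hg
  obtain ⟨C0, hC0, hsg⟩ := wt_sg
  obtain ⟨H0, hH0⟩ := rhB 1
  refine ⟨a1 + 1, fun c1 hc1 => ?_⟩
  obtain ⟨c6, hc6, x1, hx1⟩ := hv (c1 - 1) (by omega)
  have hc1e : c1 - 1 + 1 = c1 := by omega
  rw [hc1e] at hx1
  obtain ⟨x2, hx2⟩ := Pool.Agent.Lib.VKT.Fk2_le k c1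
  obtain ⟨x3, hx3⟩ := Pool.Agent.Lib.VKT.rk2_le k c1
  obtain ⟨x4, hx4⟩ := Pool.Agent.Lib.VKT.platK2 k c1
  obtain ⟨x5, hx5⟩ := Pool.Agent.Lib.VKT.sgK2_le k c1
  refine ⟨c6 + 4 * g + 30, fun ε hε => ?_⟩
  -- the logarithm condition
  obtain ⟨L1, hL1⟩ : ∃ L1 : ℝ, ∀ L : ℝ, L1 ≤ L → 16 * (C0 * ((g + 1) * Real.log L) + 1) ≤ ε * L := by
    have hev := (Real.isLittleO_log_id_atTop).def (c := ε / (32 * (C0 * (g + 1)))) (by positivity)
    obtain ⟨L2, hL2⟩ := (hev.and (Filter.eventually_ge_atTop (max 1 (32 / ε)))).exists_forall_of_atTop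
    refine ⟨L2, fun L hL => ?_⟩
    obtain ⟨h1, h2⟩ := hL2 L hL
    have hL1 : 1 ≤ L := (le_max_left _ _).trans h2
    have hLe : 32 / ε ≤ L := (le_max_right _ _).trans h2
    simp only [id, Real.norm_eq_abs] at h1
    rw [abs_of_nonneg (Real.log_nonneg hL1), abs_of_pos (by linarith)] at h1
    have h3 : C0 * ((g + 1) * Real.log L) ≤ ε * L / 32 := by
      calc C0 * ((g + 1) * Real.log L) ≤ C0 * ((g + 1) * (ε / (32 * (C0 * (g + 1))) * L)) := by gcongr
        _ = ε * L / 32 := by field_simp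
    have h4 : 32 ≤ ε * L := by
      have := (div_le_iff₀ hε).1 hLe
      linarith
    linarith
  set M0 : ℝ := max (max (max 16 (2 ^ c6)) (max (2 ^ (4 * g + 20)) (8 * g))) (max (max (4 / ε) (Real.exp (4 / ε))) (max L1 H0))
    with hM0
  refine ⟨max (Real.exp M0) (max (max x1 (max x2 x3)) (max (max x4 x5) (max xs 1))), fun Y hY w w' hR H hH hHY => ?_⟩
  simp only [max_le_iff] at hY
  obtain ⟨hYM, ⟨hY1, hY2, hY3⟩, ⟨hY4, hY5⟩, hYs, hY01⟩ := hY
  have hY0 : (0 : ℝ) < Y := by linarith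
  set L := Real.log Y with hLdef
  have hLM : M0 ≤ L := by
    rw [hLdef, Real.le_log_iff_exp_le hY0]
    exact hYM
  have hM := hLM
  rw [hM0] at hM
  simp only [max_le_iff] at hM
  obtain ⟨⟨⟨hL16, hLc6⟩, hLg, hL8g⟩, ⟨hLε, hLexp⟩, hLL1, hLH0⟩ := hM
  have hL0 : 0 < L := by linarith
  have hL1' : 1 ≤ L := by linarith
  set l := Real.log (32 * Y : ℕ) with hldef
  have hle : l = Real.log 32 + L := by
    rw [hldef, hLdef]
    push_cast
    rw [Real.log_mul (by norm_num) hY0.ne']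
  have hlog32 : Real.log 32 ≤ 4 := by
    have h1 : Real.log 32 = 5 * Real.log 2 := by
      rw [show (32 : ℝ) = 2 ^ 5 by norm_num, Real.log_pow]
      norm_num
    have h2 := Real.log_two_lt_d9
    linarith
  have hlog320 : 0 ≤ Real.log 32 := Real.log_nonneg (by norm_num)
  have hLl : L ≤ l := by linarith
  have hl4 : l ≤ L + 4 := by linarith
  have hl2 : l ≤ 2 * L := by linarith
  have hl0 : 0 < l := by linarith
  have hl1 : 1 ≤ l := by linarith
  -- powers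
  have hpow : ∀ n : ℕ, (2 : ℝ) ^ n ≤ L → l ^ n ≤ L ^ (n + 1) := by
    intro n hn
    calc l ^ n ≤ (2 * L) ^ n := pow_le_pow_left₀ hl0.le hl2 n
      _ = 2 ^ n * L ^ n := mul_pow _ _ _
      _ ≤ L * L ^ n := by gcongr
      _ = L ^ (n + 1) := by ring
  -- `H`
  have hw1 : (1 : ℝ) ≤ w' := by
    have h1 := hR.h1
    have h2 : (1 : ℝ) ≤ (Real.log ((4 * Y : ℕ) : ℝ)) ^ (c1 + 1) := by
      refine one_le_pow₀ (hL1'.trans ?_)
      refine Real.log_le_log hY0 ?_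
      push_cast
      linarith
    have h3 : (w : ℝ) ≤ w' := by exact_mod_cast hR.h2
    linarith
  have hHL : L ^ (c6 + 4 * g + 30) ≤ H := by
    refine le_trans ?_ hH
    have : 0 ≤ L ^ (c6 + 4 * g + 30) := by positivity
    nlinarith
  have hHLL : L ≤ H := by
    refine le_trans ?_ hHL
    calc L = L ^ 1 := (pow_one L).symm
      _ ≤ _ := pow_le_pow_right₀ hL1' (by omega)
  have hHr1 : (1 : ℝ) ≤ H := hL1'.trans hHLL
  have hHr0 : (0 : ℝ) < H := by linarith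
  have hH1 : 1 ≤ H := by exact_mod_cast hHr1
  have hHleY : H ≤ Y := by nlinarith
  have hHleYr : (H : ℝ) ≤ Y := by exact_mod_cast hHleY
  -- `Q`
  set Q := ⌊l ^ g⌋₊ with hQdef
  have hlg0 : 0 ≤ l ^ g := by positivity
  have hQle : (Q : ℝ) ≤ l ^ g := Nat.floor_le hlg0
  have hlgL : L ≤ l ^ g := by
    calc L ≤ l := hLl
      _ = l ^ 1 := (pow_one l).symm
      _ ≤ l ^ g := pow_le_pow_right₀ hl1 hg1
  have hQge : l ^ g / 2 ≤ Q := by
    have h1 : l ^ g < Q + 1 := Nat.lt_floor_add_one _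
    linarith
  have hQ2 : 2 ≤ Q := by
    have : (2 : ℝ) ≤ Q := by linarith
    exact_mod_cast this
  have hQ0 : (0 : ℝ) < Q := by
    have : 0 < Q := by omega
    exact_mod_cast this
  have hQ4 : Q ^ 4 ≤ H := by
    have h1 : ((Q ^ 4 : ℕ) : ℝ) ≤ H := by
      push_cast
      calc (Q : ℝ) ^ 4 ≤ (l ^ g) ^ 4 := by gcongr
        _ = l ^ (4 * g) := by ring
        _ ≤ L ^ (4 * g + 1) := hpow _ (le_trans (pow_le_pow_right₀ (by norm_num) (by omega)) hLg)
        _ ≤ L ^ (c6 + 4 * g + 30) := pow_le_pow_right₀ hL1' (by omega)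
        _ ≤ H := hHL
    exact_mod_cast h1
  -- `l ^ g ≤ 2 L ^ g`
  have hlgle : l ^ g ≤ 2 * L ^ g := by
    have h1 : l ≤ L * Real.exp (4 / L) := by
      have h2 := Real.add_one_le_exp (4 / L)
      calc l ≤ L + 4 := hl4
        _ = L * (4 / L + 1) := by field_simp; ring
        _ ≤ L * Real.exp (4 / L) := by gcongr
    calc l ^ g ≤ (L * Real.exp (4 / L)) ^ g := pow_le_pow_left₀ hl0.le h1 g
      _ = Real.exp (g * (4 / L)) * L ^ g := by rw [mul_pow, ← Real.exp_nat_mul]; ring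
      _ ≤ 2 * L ^ g := by
          refine mul_le_mul_of_nonneg_right ?_ (by positivity)
          have h3 : (g : ℝ) * (4 / L) ≤ 1 / 2 := by
            rw [mul_div_assoc', div_le_div_iff₀ hL0 (by norm_num)]
            linarith
          have h4 : Real.exp (1 / 2) ≤ 2 := by
            have h5 : Real.exp (1 / 2) ^ 2 ≤ 2 ^ 2 := by
              rw [← Real.exp_nat_mul]
              have h6 := Real.exp_one_lt_d9
              have h7 : ((2 : ℕ) : ℝ) * (1 / 2) = 1 := by norm_num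
              rw [h7]
              linarith
            exact le_of_sq_le_sq h5 (by norm_num)
          exact (Real.exp_le_exp.2 h3).trans h4
  have hlogQ : Real.log Q ≤ (g + 1) * Real.log L := by
    have h1 : (Q : ℝ) ≤ L ^ (g + 1) := by
      refine hQle.trans (hlgle.trans ?_)
      calc 2 * L ^ g ≤ L * L ^ g := by gcongr; linarith
        _ = L ^ (g + 1) := by ring
    have h2 := Real.log_le_log hQ0 h1
    rw [Real.log_pow] at h2
    push_cast at h2
    exact h2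
  -- sigma
  have hσ : 0 ≤ sgK k w w' := (hx5 Y hY5 w w' (1000 * k) (by omega) hR k hk le_rfl).1
  -- the mean square
  set D : ℕ → ℝ := fun n => Pool.Agent.Lib.VKT.Fk Y k w w' n -
    Pool.Agent.Lib.VKT.rk Y k w w' n * Pool.Agent.Lib.VKT.ram Q n with hD
  set T := 32 * Y + 2 * H + 1 with hT
  set V : ℝ := 1 / l ^ (A + 20) * (32 * Y : ℕ) * ((2 * H : ℕ) : ℝ) ^ 2 with hV
  have hV0 : 0 ≤ V := by positivity
  have hcond : (w' : ℝ) * l ^ c6 ≤ ((2 * H : ℕ) : ℝ) := by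
    have h1 : l ^ c6 ≤ L ^ (c6 + 1) := hpow _ hLc6
    have h2 : L ^ (c6 + 1) ≤ L ^ (c6 + 4 * g + 30) := pow_le_pow_right₀ hL1' (by omega)
    calc (w' : ℝ) * l ^ c6 ≤ w' * L ^ (c6 + 4 * g + 30) := by gcongr; exact h1.trans h2
      _ ≤ H := hH
      _ ≤ ((2 * H : ℕ) : ℝ) := by push_cast; linarith
  have hVV : ∀ α : ℝ, Pool.Agent.Lib.G3.VV (fun n => ((D n : ℝ) : ℂ)) (2 * H) α T ≤ V := by
    intro α
    have h1 := hx1 Y hY1 k w w' hk le_rfl hR (2 * H) hcond α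
    have h2 : (fun n => ((D n : ℝ) : ℂ)) = fun n => ((Pool.Agent.Lib.VKT.Fk Y k w w' n : ℝ) : ℂ) -
        ((Pool.Agent.Lib.VKT.rk Y k w w' n * Pool.Agent.Lib.VKT.ram Q n : ℝ) : ℂ) := by
      funext n
      rw [hD]
      push_cast
      ring
    rw [h2]
    exact h1
  have hDs : ∀ n, D n ≠ 0 → 1 ≤ n ∧ n + 2 * H ≤ T := by
    intro n hn
    have h1 := (hx2 Y hY2 w w' hR k hk le_rfl n).2.2
    have h2 := (hx3 Y hY3 w w' hR k hk le_rfl n).2.2
    by_cases hf : Pool.Agent.Lib.VKT.Fk Y k w w' n = 0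
    · have hr : Pool.Agent.Lib.VKT.rk Y k w w' n ≠ 0 := by
        intro hr
        apply hn
        rw [hD]
        simp [hf, hr]
      have := h2 hr
      exact ⟨this.1, by omega⟩
    · have := h1 hf
      exact ⟨this.1, by omega⟩
  set δ : ℝ := H / l ^ 2 with hδ
  have hδ0 : 0 < δ := by positivity
  have hexc := wt_exc D hH1 hDs hVV hV0 hδ0
  set EA := (range T).filter (fun N => δ < |∑ p ∈ Icc 1 H, Pool.Agent.Lib.G3.lp p * D (N - p)|) with hEA
  have hcardA : (EA.card : ℝ) ≤ 128 * (Y / L ^ (A + 14)) := by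
    have hlogH : Real.log H ≤ l := by
      calc Real.log H ≤ L := Real.log_le_log hHr0 hHleYr
        _ ≤ l := hLl
    have hlogH0 : 0 ≤ Real.log H := Real.log_nonneg hHr1
    have h1 : (EA.card : ℝ) * δ ^ 2 ≤ 128 * (Y / l ^ (A + 14)) * δ ^ 2 := by
      refine hexc.trans ?_
      calc V * (Real.log H) ^ 2 ≤ V * l ^ 2 := by gcongr
        _ = 128 * (Y / l ^ (A + 14)) * δ ^ 2 := by
            rw [hV, hδ]
            push_cast
            have : l ^ (A + 20) = l ^ (A + 14) * l ^ 6 := by rw [← pow_add]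
            rw [this]
            field_simp
            ring
    have h2 : (EA.card : ℝ) ≤ 128 * (Y / l ^ (A + 14)) := le_of_mul_le_mul_right h1 (by positivity)
    refine h2.trans ?_
    gcongr
  -- the singular series
  set B1 := (Ioc Y (Y + Y)).filter (fun N => 1 / (Real.log Y) ^ (A + 4) < |Pool.Agent.Lib.G3.sg Q N - SS N|) with hB1
  set B2 := (Ioc (2 * Y) (2 * Y + Y)).filter
    (fun N => 1 / (Real.log (2 * Y : ℕ)) ^ (A + 4) < |Pool.Agent.Lib.G3.sg Q N - SS N|) with hB2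
  have hL2Y : L ≤ Real.log (2 * Y : ℕ) := by
    rw [hLdef]
    refine Real.log_le_log hY0 ?_
    push_cast
    linarith
  have hL2Yl : Real.log (2 * Y : ℕ) ≤ l := by
    rw [hldef]
    refine Real.log_le_log ?_ ?_
    · push_cast
      linarith
    · push_cast
      linarith
  have hbig : l ^ (4 * g + 20) ≤ Y := by
    calc l ^ (4 * g + 20) ≤ L ^ (4 * g + 20 + 1) := hpow _ hLg
      _ ≤ L ^ (c6 + 4 * g + 30) := pow_le_pow_right₀ hL1' (by omega)
      _ ≤ H := hHL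
      _ ≤ Y := hHleYr
  have hcardB1 : (B1.card : ℝ) ≤ Y / L ^ (A + 4) := by
    refine hxs Y hYs Q Y ?_ ?_ ?_ le_rfl
    · refine le_trans ?_ hQge
      gcongr
    · exact hQle.trans hlgle
    · refine le_trans ?_ hbig
      gcongr
  have hcardB2 : (B2.card : ℝ) ≤ Y / L ^ (A + 4) := by
    have h1 : xs ≤ ((2 * Y : ℕ) : ℝ) := by
      push_cast
      linarith
    have h2 := hxs (2 * Y) h1 Q Y ?_ ?_ ?_ (by omega)
    · refine h2.trans ?_
      gcongr
    · refine le_trans ?_ hQge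
      have : 0 ≤ Real.log (2 * Y : ℕ) := hL0.le.trans hL2Y
      gcongr
    · refine (hQle.trans hlgle).trans ?_
      gcongr
    · refine le_trans ?_ hbig
      have : 0 ≤ Real.log (2 * Y : ℕ) := hL0.le.trans hL2Y
      gcongr
  -- the inclusion
  have hsub : (Ioc (Y + H) (3 * Y)).filter (fun N => ε * ((1 + sgK k w w') * (H / L)) <
      |WH Y k w w' H N - sgK k w w' * SS N * (H / L)|) ⊆ EA ∪ (B1 ∪ B2) := by
    intro N hN
    rw [mem_filter, mem_Ioc] at hN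
    obtain ⟨⟨hN1, hN2⟩, hN3⟩ := hN
    by_contra hcon
    simp only [mem_union, not_or] at hcon
    obtain ⟨hnA, hnB1, hnB2⟩ := hcon
    apply absurd hN3
    rw [not_lt]
    -- (1), (2)
    have hsum : ∑ p ∈ Icc 1 H, Pool.Agent.Lib.G3.lp p * D (N - p) = WH Y k w w' H N - sgK k w w' / l * RH Q H N := by
      unfold WH RH
      rw [mul_sum, ← sum_sub_distrib]
      refine sum_congr rfl fun p hp => ?_
      rw [mem_Icc] at hp
      have h1 : Pool.Agent.Lib.VKT.rk Y k w w' (N - p) = sgK k w w' / l :=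
        hx4 Y hY4 w w' hR k hk le_rfl (N - p) (by omega) (by omega)
      rw [hD]
      simp only
      rw [h1]
      ring
    have h1 : |WH Y k w w' H N - sgK k w w' / l * RH Q H N| ≤ H / l ^ 2 := by
      rw [← hsum]
      by_contra h
      rw [not_le] at h
      refine hnA ?_
      rw [hEA, mem_filter, mem_range]
      exact ⟨by omega, h⟩
    -- (3)
    have h2 : |RH Q H N - H * Pool.Agent.Lib.G3.sg Q N| ≤ H / Real.log H := by
      have hHH0 : H0 ≤ H := by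
        have : (H0 : ℝ) ≤ H := hLH0.trans hHLL
        exact_mod_cast this
      have := hH0 H Q N hHH0 hQ4 (by omega)
      rwa [pow_one] at this
    -- (4)
    have hLA : 1 / L ^ (A + 4) ≤ 1 / L := by
      refine one_div_le_one_div_of_le hL0 ?_
      calc L = L ^ 1 := (pow_one L).symm
        _ ≤ L ^ (A + 4) := pow_le_pow_right₀ hL1' (by omega)
    have h3 : |Pool.Agent.Lib.G3.sg Q N - SS N| ≤ 1 / L := by
      by_cases hN2Y : N ≤ Y + Y
      · by_contra h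
        rw [not_le] at h
        refine hnB1 ?_
        rw [hB1, mem_filter, mem_Ioc]
        exact ⟨⟨by omega, hN2Y⟩, lt_of_le_of_lt hLA h⟩
      · by_contra h
        rw [not_le] at h
        refine hnB2 ?_
        rw [hB2, mem_filter, mem_Ioc]
        refine ⟨⟨by omega, by omega⟩, lt_of_le_of_lt ?_ h⟩
        refine le_trans ?_ hLA
        gcongr
    have h4 : |SS N| ≤ C0 * ((g + 1) * Real.log L) + 1 := by
      have e1 : |SS N| ≤ |Pool.Agent.Lib.G3.sg Q N| + |Pool.Agent.Lib.G3.sg Q N - SS N| := by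
        have := abs_sub_abs_le_abs_sub (SS N) (Pool.Agent.Lib.G3.sg Q N)
        rw [abs_sub_comm] at this
        linarith
      have e2 : |Pool.Agent.Lib.G3.sg Q N| ≤ C0 * ((g + 1) * Real.log L) :=
        (hsg Q N hQ2).trans (by gcongr)
      have e3 : 1 / L ≤ 1 := by
        rw [div_le_one hL0]
        exact hL1'
      linarith
    refine wt_fin hHr0 (by linarith) hLl hl4 hσ hε h1 h2 h3 h4 hLε ?_ (hL1 L hLL1)
    rw [Real.le_log_iff_exp_le hHr0]
    exact hLexp.trans hHLL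
  have hcard := card_le_card hsub
  have hcu : ((EA ∪ (B1 ∪ B2)).card : ℝ) ≤ EA.card + (B1.card + B2.card) := by
    have h1 := card_union_le EA (B1 ∪ B2)
    have h2 := card_union_le B1 B2
    have : (EA ∪ (B1 ∪ B2)).card ≤ EA.card + (B1.card + B2.card) := by omega
    exact_mod_cast this
  have hcardr : (((Ioc (Y + H) (3 * Y)).filter fun N => ε * ((1 + sgK k w w') * (H / L)) <
      |WH Y k w w' H N - sgK k w w' * SS N * (H / L)|).card : ℝ) ≤ ((EA ∪ (B1 ∪ B2)).card : ℝ) := by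
    exact_mod_cast hcard
  refine hcardr.trans (hcu.trans ?_)
  have hfin : 128 * (Y / L ^ (A + 14)) + (Y / L ^ (A + 4) + Y / L ^ (A + 4)) ≤ Y / L ^ A := by
    have e1 : Y / L ^ (A + 14) ≤ Y / L ^ A / 16 ^ 14 := by
      rw [div_div]
      have : L ^ A * 16 ^ 14 ≤ L ^ (A + 14) := by
        rw [pow_add]
        gcongr
      gcongr
    have e2 : Y / L ^ (A + 4) ≤ Y / L ^ A / 16 ^ 4 := by
      rw [div_div]
      have : L ^ A * 16 ^ 4 ≤ L ^ (A + 4) := by
        rw [pow_add]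
        gcongr
      gcongr
    have e3 : 0 ≤ Y / L ^ A := by positivity
    norm_num at e1 e2
    linarith
  linarith

end Pool.Agent.Lib.G9
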