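import Pool.Agent.Lib.G9.ZLg

/-!
# G9 / ZCt: the typical count for almost all `N`, `S`-form (row ZCT; copy of G9/Ct.lean)

PROOF. `L = log Y`. `lgZ k (A+1) B` at `H` and at `H1 = ⌊δ H⌋ + 1`, `δ = δ(ε)` small (`w' L^C0 ≤ δ H ≤ H1` if `w' L^(C0+1) ≤ H`, `Y` large; `C = C0 + 2B + 10`; `H1 ≤ H`), both with `ε1 = ε1(ε)`.
(upper) `TZ(H) ≤ TZ(H1) + LZ(H)/log H1`, as `LZ(H) ≥ ∑_{H1 < p ≤ H} ... log H1`; (lower) `LZ(H) ≤ log H · TZ(H)`. `TZ(H1) ≤ √H + (2/log H) LZ(H1)` (primes `p ≤ √H`: at most `√H`; the others have `log p ≥ (log H)/2`),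
`LZ(H1) ≤ 2 SS (sL + 1/L^B) H1/L`. `√H log H L ≤ (ε/8) H/L^B` because `H ≥ L^(2B+10)`; `log H1 ≥ (1 - ε/8) log H` as `H1 ≥ δH`, `H` large. So `|TZ - SS sL H/(log H L)| ≤ ε SS (sL + 1/L^B) H/(log H L)` for even `N`
(`SS ≥ 1`, or `≥ 1/2`, `G5.q8`) outside two exceptional sets (that of `H1` lives on `(Y + H1, 3Y]` ⊇ `(Y+H, 3Y]`). `H ≥ L^C` as `w' ≥ 1`.
-/

set_option autoImplicit false

open Finset

namespace Pool.Agent.Lib.G9

open Pool.Agent.Lib.G3 (SS)
open Pool.Agent.Lib.G8 (sL RgL)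

private theorem zct_real {T T1 LL L1 l l1 η E X rt ε ε1 δ : ℝ} (hl : 0 < l) (hη0 : 0 ≤ η) (hη : η ≤ 1 / 2)
    (hl1 : (1 - η) * l ≤ l1) (hT : T1 ≤ T) (h1 : LL ≤ l * T) (h2 : l1 * (T - T1) ≤ LL) (h3 : l / 2 * (T1 - rt) ≤ L1)
    (h4 : |LL - X| ≤ ε1 * E) (h5 : L1 ≤ 4 * δ * E) (h6 : l * rt ≤ ε / 8 * E) (hX : X ≤ E) (hE : 0 ≤ E)
    (hsum : ε / 8 + 8 * δ + ε1 * (1 + 2 * η) + 2 * η ≤ ε) (hε : ε1 ≤ ε) : |T - X / l| ≤ ε * (E / l) := by
  obtain ⟨h4a, h4b⟩ := abs_le.mp h4
  have key : |l * T - X| ≤ ε * E := by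
    rw [abs_le]
    constructor
    · nlinarith [mul_le_mul_of_nonneg_right hε hE]
    · have a1 : (1 - η) * l * (T - T1) ≤ X + ε1 * E := by
        have := mul_le_mul_of_nonneg_right hl1 (sub_nonneg.mpr hT)
        linarith
      have a2 : 0 ≤ l * (T - T1) := mul_nonneg hl.le (sub_nonneg.mpr hT)
      have a3 : l * (T - T1) ≤ (1 + 2 * η) * (X + ε1 * E) := by
        have b1 : l * (T - T1) ≤ (1 + 2 * η) * ((1 - η) * l * (T - T1)) := by
          have : (1 + 2 * η) * ((1 - η) * l * (T - T1)) - l * (T - T1) = η * (1 - 2 * η) * (l * (T - T1)) := by ring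
          have h0 : 0 ≤ η * (1 - 2 * η) * (l * (T - T1)) := mul_nonneg (mul_nonneg hη0 (by linarith)) a2
          linarith
        exact b1.trans (mul_le_mul_of_nonneg_left a1 (by linarith))
      have a4 : 2 * η * X ≤ 2 * η * E := mul_le_mul_of_nonneg_left hX (by linarith)
      have a5 := mul_le_mul_of_nonneg_right hsum hE
      nlinarith
  have e1 : T - X / l = (l * T - X) / l := by
    field_simp
  rw [e1, abs_div, abs_of_pos hl, ← mul_div_assoc]
  exact div_le_div_of_nonneg_right key hl.le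

open Classical in
private theorem zct_low (k U : ℕ) (S : Finset ℕ) (H N : ℕ) :
    LZ k U S H N ≤ Real.log H * (TZ k U S H N : ℝ) := by
  unfold LZ TZ
  rw [Finset.card_filter, Nat.cast_sum, Finset.mul_sum]
  refine Finset.sum_le_sum fun p hp => ?_
  have hp' := mem_Icc.mp hp
  have hlog : Real.log p ≤ Real.log H := Real.log_le_log (by exact_mod_cast hp'.1) (by exact_mod_cast hp'.2)
  have hlH : 0 ≤ Real.log H := Real.log_natCast_nonneg H
  by_cases h1 : Pool.Agent.Lib.G8.EL k U S (N - p)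
  · by_cases h2 : p.Prime
    · simp only [h1, h2, and_self, if_true, Pool.Agent.Lib.G3.lp, Nat.cast_one, mul_one]
      exact hlog
    · simp [h1, h2, Pool.Agent.Lib.G3.lp]
  · simp [h1]

open Classical in
private theorem zct_up (k U : ℕ) (S : Finset ℕ) {H H1 : ℕ} (h1 : 1 ≤ H1) (hH : H1 ≤ H) (N : ℕ) :
    Real.log H1 * ((TZ k U S H N : ℝ) - TZ k U S H1 N) ≤ LZ k U S H N := by
  have hlH : 0 ≤ Real.log H1 := Real.log_natCast_nonneg H1
  have e1 : (TZ k U S H1 N : ℝ) = ∑ p ∈ Icc 1 H, if (p ≤ H1 ∧ p.Prime ∧ Pool.Agent.Lib.G8.EL k U S (N - p)) then (1 : ℝ) else 0 := by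
    unfold TZ
    rw [Finset.sum_boole]
    congr 2
    ext p
    simp only [mem_filter, mem_Icc]
    constructor
    · rintro ⟨⟨a, b⟩, c, d⟩
      exact ⟨⟨a, b.trans hH⟩, b, c, d⟩
    · rintro ⟨⟨a, b⟩, c, d, e⟩
      exact ⟨⟨a, c⟩, d, e⟩
  have e2 : (TZ k U S H N : ℝ) = ∑ p ∈ Icc 1 H, if (p.Prime ∧ Pool.Agent.Lib.G8.EL k U S (N - p)) then (1 : ℝ) else 0 := by
    unfold TZ
    rw [Finset.sum_boole]
  rw [e1, e2, ← Finset.sum_sub_distrib, Finset.mul_sum]
  unfold LZ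
  refine Finset.sum_le_sum fun p hp => ?_
  have hp' := mem_Icc.mp hp
  by_cases hE : Pool.Agent.Lib.G8.EL k U S (N - p)
  · by_cases h2 : p.Prime
    · by_cases h3 : p ≤ H1
      · simp only [hE, h2, h3, and_self, if_true, Pool.Agent.Lib.G3.lp, sub_self, mul_zero]
        exact Real.log_natCast_nonneg p
      · simp only [hE, h2, h3, and_self, and_true, if_true, if_false, Pool.Agent.Lib.G3.lp, sub_zero, mul_one]
        exact Real.log_le_log (by exact_mod_cast h1) (by exact_mod_cast (not_le.mp h3).le)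
    · simp [hE, h2, Pool.Agent.Lib.G3.lp]
  · simp [hE]

open Classical in
private theorem zct_sqrt (k U : ℕ) (S : Finset ℕ) {H H1 : ℕ} (hH : 1 ≤ H) (N : ℕ) :
    Real.log H / 2 * ((TZ k U S H1 N : ℝ) - Real.sqrt H) ≤ LZ k U S H1 N := by
  have hlH : 0 ≤ Real.log H := Real.log_natCast_nonneg H
  have e2 : (TZ k U S H1 N : ℝ) = ∑ p ∈ Icc 1 H1, if (p.Prime ∧ Pool.Agent.Lib.G8.EL k U S (N - p)) then (1 : ℝ) else 0 := by
    unfold TZ
    rw [Finset.sum_boole]
  have e3 : (∑ p ∈ Icc 1 H1, if p ≤ Nat.sqrt H then (1 : ℝ) else 0) ≤ Real.sqrt H := by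
    rw [Finset.sum_boole]
    have : ((Icc 1 H1).filter fun p => p ≤ Nat.sqrt H) ⊆ Icc 1 (Nat.sqrt H) := by
      intro p hp
      rw [mem_filter, mem_Icc] at hp
      exact mem_Icc.mpr ⟨hp.1.1, hp.2⟩
    have h := Finset.card_le_card this
    rw [Nat.card_Icc, Nat.add_sub_cancel] at h
    calc ((((Icc 1 H1).filter fun p => p ≤ Nat.sqrt H).card : ℕ) : ℝ) ≤ (Nat.sqrt H : ℕ) := by exact_mod_cast h
      _ ≤ Real.sqrt H := Real.nat_sqrt_le_real_sqrt
  have e4 : Real.log H / 2 * (TZ k U S H1 N : ℝ) ≤ LZ k U S H1 N + Real.log H / 2 * ∑ p ∈ Icc 1 H1, if p ≤ Nat.sqrt H then (1 : ℝ) else 0 := by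
    rw [e2, Finset.mul_sum, Finset.mul_sum]
    unfold LZ
    rw [← Finset.sum_add_distrib]
    refine Finset.sum_le_sum fun p hp => ?_
    have hp' := mem_Icc.mp hp
    have hpl : 0 ≤ Real.log p := Real.log_natCast_nonneg p
    by_cases hE : Pool.Agent.Lib.G8.EL k U S (N - p)
    · by_cases h2 : p.Prime
      · by_cases h3 : p ≤ Nat.sqrt H
        · simp only [hE, h2, h3, and_self, if_true, Pool.Agent.Lib.G3.lp, mul_one]
          linarith
        · simp only [hE, h2, h3, and_self, if_true, if_false, Pool.Agent.Lib.G3.lp, mul_one, mul_zero, add_zero]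
          have h4 : H < p * p := Nat.sqrt_lt.mp (not_le.mp h3)
          have h5 : Real.log H ≤ Real.log ((p : ℝ) * p) :=
            Real.log_le_log (by exact_mod_cast hH) (by exact_mod_cast h4.le)
          have h6 : (p : ℝ) ≠ 0 := by exact_mod_cast (h2.ne_zero)
          rw [Real.log_mul h6 h6] at h5
          linarith
      · simp only [hE, h2, false_and, if_false, mul_zero, if_true, Pool.Agent.Lib.G3.lp, zero_add]
        split_ifs
        · linarith
        · linarith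
    · simp only [hE, and_false, if_false, mul_zero, zero_add]
      split_ifs
      · linarith
      · linarith
  have e5 := mul_le_mul_of_nonneg_left e3 (show (0 : ℝ) ≤ Real.log H / 2 by linarith)
  rw [mul_sub]
  linarith

private theorem zct_mono (k U : ℕ) (S : Finset ℕ) {H H1 : ℕ} (hH : H1 ≤ H) (N : ℕ) :
    (TZ k U S H1 N : ℝ) ≤ TZ k U S H N := by
  classical
  unfold TZ
  have h : ((Icc 1 H1).filter fun p => p.Prime ∧ Pool.Agent.Lib.G8.EL k U S (N - p)) ⊆
      ((Icc 1 H).filter fun p => p.Prime ∧ Pool.Agent.Lib.G8.EL k U S (N - p)) :=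
    Finset.filter_subset_filter _ (Finset.Icc_subset_Icc_right hH)
  exact_mod_cast Finset.card_le_card (by convert h)

private theorem zct_sL (k U : ℕ) (S : Finset ℕ) : 0 ≤ sL k U S :=
  Finset.sum_nonneg fun q _ => mul_nonneg (by positivity)
    (Finset.sum_nonneg fun s _ => Finset.prod_nonneg fun p _ => by positivity)

theorem ctZ (k A B : ℕ) (hk : 2 ≤ k) : ∃ c10 : ℕ, ∀ c1 : ℕ, c10 ≤ c1 → ∃ C : ℕ, ∀ ε : ℝ, 0 < ε → ∃ (M : ℕ) (x0 : ℝ), ∀ Y : ℕ, x0 ≤ Y →
    ∀ (U w' : ℕ) (S : Finset ℕ), RgL (4 * Y) U w' c1 M S → 1 ≤ w' → ∀ H : ℕ, (w' : ℝ) * (Real.log Y) ^ C ≤ H → H * H ≤ Y →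
      (((Ioc (Y + H) (3 * Y)).filter fun N => Even N ∧
        ε * (SS N * (sL k U S + 1 / (Real.log Y) ^ B) * (H / (Real.log H * Real.log Y))) <
        |(TZ k U S H N : ℝ) - SS N * sL k U S * (H / (Real.log H * Real.log Y))|).card : ℝ) ≤ Y / (Real.log Y) ^ A := by
  obtain ⟨c10, h10⟩ := lgZ k (A + 1) B hk
  refine ⟨c10, fun c1 hc1 => ?_⟩
  obtain ⟨C0, hC0⟩ := h10 c1 hc1
  refine ⟨C0 + 1 + (2 * B + 10), fun ε hε => ?_⟩
  set ε' : ℝ := min ε 1 with hε'
  have hε'0 : 0 < ε' := lt_min hε one_pos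
  have hε'1 : ε' ≤ 1 := min_le_right _ _
  have hε'e : ε' ≤ ε := min_le_left _ _
  set δ : ℝ := ε' / 64 with hδ
  have hδ0 : 0 < δ := by positivity
  set η : ℝ := ε' / 32 with hη
  have hη0 : 0 < η := by positivity
  obtain ⟨M, x0, hM⟩ := hC0 (ε' / 8) (by positivity)
  refine ⟨M, max x0 (Real.exp (2 + 1 / δ + 16 / ε' + Real.exp (-Real.log δ / η))), ?_⟩
  intro Y hY U w' S hRg hw' H hH hHH
  have hYx0 : x0 ≤ Y := (le_max_left _ _).trans hY
  have hYe := (le_max_right _ _).trans hY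
  have hY0 : (0 : ℝ) < Y := (Real.exp_pos _).trans_le hYe
  set L := Real.log Y with hL
  have hLbig : 2 + 1 / δ + 16 / ε' + Real.exp (-Real.log δ / η) ≤ L := by
    rw [hL, Real.le_log_iff_exp_le hY0]
    exact hYe
  have hd1 : 0 < 1 / δ := by positivity
  have hd2 : 0 < 16 / ε' := by positivity
  have hd3 := Real.exp_pos (-Real.log δ / η)
  have hL2 : 2 ≤ L := by linarith
  have hLδ : 1 / δ ≤ L := by linarith
  have hLε : 16 / ε' ≤ L := by linarith
  have hLη : Real.exp (-Real.log δ / η) ≤ L := by linarith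
  have hL1 : 1 ≤ L := by linarith
  have hL0 : 0 < L := by linarith
  have hw1 : (1 : ℝ) ≤ (w' : ℝ) := by exact_mod_cast hw'
  -- sizes
  have hHL : L ^ (C0 + 1 + (2 * B + 10)) ≤ H := by
    refine le_trans ?_ hH
    exact le_mul_of_one_le_left (by positivity) hw1
  have hH10 : L ^ (2 * B + 10) ≤ H := (pow_le_pow_right₀ hL1 (by omega)).trans hHL
  have hHL' : L ≤ H := by
    calc L = L ^ 1 := (pow_one L).symm
      _ ≤ L ^ (2 * B + 10) := pow_le_pow_right₀ hL1 (by omega)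
      _ ≤ H := hH10
  have hH0 : (0 : ℝ) < H := by linarith
  have hH1n : 1 ≤ H := by exact_mod_cast (show (0 : ℝ) < H from hH0)
  have hHY : (H : ℝ) ≤ Y := by
    have : H ≤ Y := (Nat.le_mul_of_pos_left H hH1n).trans hHH
    exact_mod_cast this
  set l := Real.log H with hl
  have hll : l ≤ L := Real.log_le_log hH0 hHY
  have hlpos : 0 < l := Real.log_pos (by linarith)
  have hlη : -Real.log δ ≤ η * l := by
    have h1 : -Real.log δ / η ≤ Real.log L := by
      rw [Real.le_log_iff_exp_le hL0]; exact hLη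
    have h2 : Real.log L ≤ l := Real.log_le_log hL0 hHL'
    have h3 := h1.trans h2
    rw [div_le_iff₀ hη0] at h3
    linarith
  have hδH : 1 ≤ δ * H := by
    have h1 : 1 / δ ≤ H := hLδ.trans hHL'
    rw [div_le_iff₀ hδ0] at h1
    linarith
  set H1 : ℕ := ⌊δ * H⌋₊ + 1 with hH1
  have hH1a : δ * H ≤ H1 := by
    rw [hH1]
    push_cast
    exact (Nat.lt_floor_add_one _).le
  have hH1b : (H1 : ℝ) ≤ 2 * δ * H := by
    have h1 : (⌊δ * H⌋₊ : ℝ) ≤ δ * H := Nat.floor_le (by positivity)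
    rw [hH1]
    push_cast
    linarith
  have hH1H : H1 ≤ H := by
    have h1 : (H1 : ℝ) ≤ H := by
      refine hH1b.trans ?_
      have : 2 * δ ≤ 1 := by rw [hδ]; linarith
      nlinarith
    exact_mod_cast h1
  have hH1p : 1 ≤ H1 := by rw [hH1]; omega
  have hl1 : (1 - η) * l ≤ Real.log H1 := by
    have h1 : Real.log (δ * H) ≤ Real.log H1 := Real.log_le_log (by positivity) hH1a
    rw [Real.log_mul hδ0.ne' hH0.ne'] at h1
    linarith
  have hC0a : (w' : ℝ) * L ^ C0 ≤ H := by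
    refine le_trans ?_ hH
    exact mul_le_mul_of_nonneg_left (pow_le_pow_right₀ hL1 (by omega)) (by positivity)
  have hC0b : (w' : ℝ) * L ^ C0 ≤ H1 := by
    refine le_trans ?_ hH1a
    have h1 : (w' : ℝ) * L ^ C0 * L ≤ H := by
      refine le_trans ?_ hH
      rw [mul_assoc, ← pow_succ]
      exact mul_le_mul_of_nonneg_left (pow_le_pow_right₀ hL1 (by omega)) (by positivity)
    have h2 : 1 ≤ δ * L := by
      rw [div_le_iff₀ hδ0] at hLδ
      linarith
    have h3 : 0 ≤ (w' : ℝ) * L ^ C0 := by positivity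
    calc (w' : ℝ) * L ^ C0 ≤ (w' : ℝ) * L ^ C0 * (δ * L) := le_mul_of_one_le_right h3 h2
      _ = δ * ((w' : ℝ) * L ^ C0 * L) := by ring
      _ ≤ δ * H := mul_le_mul_of_nonneg_left h1 hδ0.le
  have hb1 := hM Y hYx0 U w' S hRg hw' H hC0a hHH
  have hb2 := hM Y hYx0 U w' S hRg hw' H1 hC0b ((Nat.mul_le_mul hH1H hH1H).trans hHH)
  -- the exceptional set
  classical
  have hsub : ((Ioc (Y + H) (3 * Y)).filter fun N => Even N ∧
        ε * (SS N * (sL k U S + 1 / L ^ B) * (H / (l * L))) <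
        |(TZ k U S H N : ℝ) - SS N * sL k U S * (H / (l * L))|) ⊆
      ((Ioc (Y + H) (3 * Y)).filter fun N => Even N ∧ ε' / 8 * (SS N * (sL k U S + 1 / L ^ B) * (H / L)) <
        |LZ k U S H N - SS N * sL k U S * (H / L)|) ∪
      ((Ioc (Y + H1) (3 * Y)).filter fun N => Even N ∧ ε' / 8 * (SS N * (sL k U S + 1 / L ^ B) * (H1 / L)) <
        |LZ k U S H1 N - SS N * sL k U S * (H1 / L)|) := by
    intro N hN
    rw [mem_filter, mem_Ioc] at hN
    obtain ⟨⟨hN1, hN2⟩, hev, hbad⟩ := hN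
    by_contra hcon
    rw [mem_union, not_or, mem_filter, mem_filter, mem_Ioc, mem_Ioc] at hcon
    obtain ⟨hc1, hc2⟩ := hcon
    have g1 : |LZ k U S H N - SS N * sL k U S * (H / L)| ≤ ε' / 8 * (SS N * (sL k U S + 1 / L ^ B) * (H / L)) := by
      by_contra h
      exact hc1 ⟨⟨hN1, hN2⟩, hev, not_le.mp h⟩
    have g2 : |LZ k U S H1 N - SS N * sL k U S * (H1 / L)| ≤ ε' / 8 * (SS N * (sL k U S + 1 / L ^ B) * (H1 / L)) := by
      by_contra h
      exact hc2 ⟨⟨by omega, hN2⟩, hev, not_le.mp h⟩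
    have hSS : 1 / 2 ≤ SS N := Pool.Agent.Lib.G5.q8 N hev
    have hs := zct_sL k U S
    have hLB : 0 < 1 / L ^ B := by positivity
    set E : ℝ := SS N * (sL k U S + 1 / L ^ B) * (H / L) with hE
    set X : ℝ := SS N * sL k U S * (H / L) with hX
    have hHdL : 0 < (H : ℝ) / L := by positivity
    have hE0 : 0 ≤ E := mul_nonneg (mul_nonneg (by linarith) (by linarith)) hHdL.le
    have hXE : X ≤ E := by
      refine mul_le_mul_of_nonneg_right (mul_le_mul_of_nonneg_left ?_ (by linarith)) hHdL.le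
      linarith
    have g5 : LZ k U S H1 N ≤ 4 * δ * E := by
      have a1 : SS N * sL k U S * ((H1 : ℝ) / L) ≤ SS N * (sL k U S + 1 / L ^ B) * (H1 / L) :=
        mul_le_mul_of_nonneg_right (mul_le_mul_of_nonneg_left (by linarith) (by linarith)) (by positivity)
      have a2 : SS N * (sL k U S + 1 / L ^ B) * ((H1 : ℝ) / L) ≤ 2 * δ * E := by
        have b1 : (H1 : ℝ) / L ≤ 2 * δ * (H / L) := by
          rw [← mul_div_assoc]
          exact div_le_div_of_nonneg_right hH1b hL0.le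
        calc SS N * (sL k U S + 1 / L ^ B) * ((H1 : ℝ) / L) ≤ SS N * (sL k U S + 1 / L ^ B) * (2 * δ * (H / L)) :=
              mul_le_mul_of_nonneg_left b1 (mul_nonneg (by linarith) (by linarith))
          _ = 2 * δ * E := by rw [hE]; ring
      have a0 : 0 ≤ SS N * (sL k U S + 1 / L ^ B) * ((H1 : ℝ) / L) :=
        mul_nonneg (mul_nonneg (by linarith) (by linarith)) (by positivity)
      have a3 := (abs_le.mp g2).2
      nlinarith
    have g6 : l * Real.sqrt H ≤ ε' / 8 * E := by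
      have a1 : L ^ (B + 5) ≤ Real.sqrt H := by
        apply Real.le_sqrt_of_sq_le
        rw [← pow_mul]
        refine le_trans (le_of_eq ?_) hH10
        congr 1
        ring
      have a2 : 16 ≤ ε' * L ^ 3 := by
        rw [div_le_iff₀ hε'0] at hLε
        have : L ≤ L ^ 3 := by
          calc L = L ^ 1 := (pow_one L).symm
            _ ≤ L ^ 3 := pow_le_pow_right₀ hL1 (by norm_num)
        nlinarith
      have a3 : 16 * L ^ (B + 2) ≤ ε' * Real.sqrt H := by
        calc 16 * L ^ (B + 2) ≤ ε' * L ^ 3 * L ^ (B + 2) := mul_le_mul_of_nonneg_right a2 (by positivity)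
          _ = ε' * L ^ (B + 5) := by ring
          _ ≤ ε' * Real.sqrt H := mul_le_mul_of_nonneg_left a1 hε'0.le
      have a4 : 1 / 2 * (1 / L ^ B) * (H / L) ≤ E := by
        refine mul_le_mul_of_nonneg_right ?_ hHdL.le
        exact mul_le_mul hSS (by linarith) (by positivity) (by linarith)
      have a5 : Real.sqrt H * Real.sqrt H = H := Real.mul_self_sqrt hH0.le
      have a6 : ε' / 8 * (1 / 2 * (1 / L ^ B) * (H / L)) = (ε' * Real.sqrt H) * Real.sqrt H / (16 * L ^ (B + 1)) := by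
        rw [mul_assoc ε', a5]
        field_simp
        ring
      have a7 : l * Real.sqrt H ≤ (ε' * Real.sqrt H) * Real.sqrt H / (16 * L ^ (B + 1)) := by
        rw [le_div_iff₀ (by positivity)]
        have b1 : l * (16 * L ^ (B + 1)) ≤ ε' * Real.sqrt H := by
          calc l * (16 * L ^ (B + 1)) ≤ L * (16 * L ^ (B + 1)) := mul_le_mul_of_nonneg_right hll (by positivity)
            _ = 16 * L ^ (B + 2) := by ring
            _ ≤ _ := a3
        calc l * Real.sqrt H * (16 * L ^ (B + 1)) = l * (16 * L ^ (B + 1)) * Real.sqrt H := by ring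
          _ ≤ ε' * Real.sqrt H * Real.sqrt H := mul_le_mul_of_nonneg_right b1 (Real.sqrt_nonneg _)
      calc l * Real.sqrt H ≤ _ := a7
        _ = ε' / 8 * (1 / 2 * (1 / L ^ B) * (H / L)) := a6.symm
        _ ≤ ε' / 8 * E := mul_le_mul_of_nonneg_left a4 (by positivity)
    have hfin := zct_real (T := (TZ k U S H N : ℝ)) (T1 := (TZ k U S H1 N : ℝ)) (ε := ε') hlpos hη0.le
      (by rw [hη]; linarith) hl1 (zct_mono k U S hH1H N) (zct_low k U S H N) (zct_up k U S hH1p hH1H N)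
      (zct_sqrt k U S hH1n N) g1 g5 g6 hXE hE0 (by rw [hδ, hη]; nlinarith) (by linarith)
    have e1 : X / l = SS N * sL k U S * (H / (l * L)) := by
      rw [hX]; field_simp
    have e2 : E / l = SS N * (sL k U S + 1 / L ^ B) * (H / (l * L)) := by
      rw [hE]; field_simp
    rw [e1, e2] at hfin
    have e3 : 0 ≤ SS N * (sL k U S + 1 / L ^ B) * ((H : ℝ) / (l * L)) :=
      mul_nonneg (mul_nonneg (by linarith) (by linarith)) (by positivity)
    have e4 := mul_le_mul_of_nonneg_right hε'e e3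
    linarith
  have hcard := (Finset.card_le_card hsub).trans (Finset.card_union_le _ _)
  have hcard' : ((((Ioc (Y + H) (3 * Y)).filter fun N => Even N ∧
        ε * (SS N * (sL k U S + 1 / L ^ B) * (H / (l * L))) <
        |(TZ k U S H N : ℝ) - SS N * sL k U S * (H / (l * L))|).card : ℕ) : ℝ) ≤ Y / L ^ (A + 1) + Y / L ^ (A + 1) := by
    refine le_trans (Nat.cast_le.mpr hcard) ?_
    rw [Nat.cast_add]
    exact add_le_add hb1 hb2
  refine hcard'.trans ?_
  rw [pow_succ, ← add_div, div_le_div_iff₀ (by positivity) (by positivity)]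
  have : (Y : ℝ) + Y ≤ Y * L := by nlinarith
  calc ((Y : ℝ) + Y) * L ^ A ≤ Y * L * L ^ A := mul_le_mul_of_nonneg_right this (by positivity)
    _ = Y * (L ^ A * L) := by ring

end Pool.Agent.Lib.G9
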