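import Pool.Agent.Lib.G9.Defs
import Pool.Agent.Lib.T8.Def

/-!
# G9 / ZDefs: a tiny prime plus a number with exactly `k` prime factors, the least one in a given set `S`: definitions
-/

set_option autoImplicit false

open Finset

namespace Pool.Agent.Lib.G9

open Pool.Agent.Lib.G3 (SS lp)
open Pool.Agent.Lib.G8 (EL mL)
open Pool.Agent.Lib.T8 (FZ)

/-- the weighted count with the function `FZ` -/
noncomputable def WZ (Y k U : ℕ) (S : Finset ℕ) (H N : ℕ) : ℝ := ∑ p ∈ Icc 1 H, lp p * FZ Y k U S (N - p)

open Classical in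
/-- the primes `p ≤ H` with typical `N - p`, with the weight `log p` -/
noncomputable def LZ (k U : ℕ) (S : Finset ℕ) (H N : ℕ) : ℝ := ∑ p ∈ Icc 1 H, if EL k U S (N - p) then lp p else 0

open Classical in
/-- number of the primes `p ≤ H` with typical `N - p` -/
noncomputable def TZ (k U : ℕ) (S : Finset ℕ) (H N : ℕ) : ℕ := ((Icc 1 H).filter fun p => p.Prime ∧ EL k U S (N - p)).card

/-- number of the primes `p ≤ H` such that `N - p` has exactly `k` prime factors, the least one in `S` -/
def CZ (k : ℕ) (S : Finset ℕ) (H N : ℕ) : ℕ :=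
  ((Icc 1 H).filter fun p => p.Prime ∧ ArithmeticFunction.cardFactors (N - p) = k ∧ (N - p).minFac ∈ S).card

/-- the main term -/
noncomputable def MZ (k : ℕ) (S : Finset ℕ) (H N : ℕ) : ℝ :=
  SS N * (H / (Real.log H * Real.log N) * (mL k S N / (Nat.factorial (k - 2) : ℝ)))

end Pool.Agent.Lib.G9
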