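import Pool.Agent.Lib.G9.ZDefs
import Pool.Agent.Lib.T8.Pt
import Pool.Agent.Lib.T8.Bd

/-!
# G9 / ZFi: `FZ` and the indicator of `EL` (over T8/Pt.lean and T8/Bd.lean)
-/

set_option autoImplicit false

open Finset

namespace Pool.Agent.Lib.G9

open Pool.Agent.Lib.G8 (EL RgL)
open Pool.Agent.Lib.T8 (FZ)

private theorem rgL_mono {Y U w' c1 M M' : ℕ} {S : Finset ℕ} (hM : M' ≤ M) (hU : 1 ≤ U) (h : RgL Y U w' c1 M S) : RgL Y U w' c1 M' S :=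
  ⟨h.hS, h.h2, (Nat.pow_le_pow_right hU hM).trans h.h3⟩

theorem fiZ (k c1 : ℕ) (hk : 2 ≤ k) (ε : ℝ) (hε : 0 < ε) : ∃ (M : ℕ) (x0 : ℝ), ∀ (Y U w' : ℕ) (S : Finset ℕ), x0 ≤ Y → 1 ≤ w' →
    RgL (4 * Y) U w' c1 M S → ∀ n : ℕ, Y < n → n ≤ 3 * Y →
      (0 ≤ FZ Y k U S n ∧ FZ Y k U S n ≤ 1) ∧ (EL k U S n → 1 - ε ≤ FZ Y k U S n) ∧ (FZ Y k U S n ≠ 0 → EL k U S n) := by
  obtain ⟨M1, x1, h1⟩ := Pool.Agent.Lib.T8.FZ_pt k c1 ε hε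
  obtain ⟨x2, h2⟩ := Pool.Agent.Lib.T8.FZ_le k c1
  refine ⟨max M1 (1000 * k), max x1 x2, fun Y U w' S hY hw' hR n hn1 hn2 => ?_⟩
  have hU : 1 ≤ U := by
    have := hR.h2
    omega
  have hR1 := rgL_mono (le_max_left M1 (1000 * k)) hU hR
  have hR2 := rgL_mono (le_max_right M1 (1000 * k)) hU hR
  have a1 := h1 Y ((le_max_left _ _).trans hY) U w' S hR1 k hk le_rfl n hn1 hn2
  have a2 := h2 Y ((le_max_right _ _).trans hY) U w' S hR2 k hk le_rfl n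
  exact ⟨⟨a2.1, a2.2.1⟩, a1.2, a1.1⟩

end Pool.Agent.Lib.G9
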