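import Pool.Agent.Lib.G9.ZWt
import Pool.Agent.Lib.G9.ZFi
import Pool.Agent.Lib.G5.Q8

/-!
# G9 / ZLg: the typical count with the weight `log p` for almost all `N`, `S`-form (row ZLG; G9/Lg.lean without the squares)

PROOF. `wtZ k A B` with `ε/4`, `fiZ k c1` with `ε' = min (ε/8) (1/2)`. For `N ∈ (Y+H, 3Y]` and `p ≤ H`: `n = N - p ∈ (Y, 3Y]`, so `(1 - ε') LZ ≤ WZ ≤ LZ` (`lp ≥ 0`; `FZ n = 0` if `EL` is false, `1 - ε' ≤ FZ n ≤ 1` otherwise). For all but the exceptional `N` of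
`wtZ`: `WZ` is within `(ε/4)(sL + 1/L^B) H/L` of `sL SS H/L`, `L = log Y`. `LZ - WZ ≤ 2 ε' WZ`. For EVEN `N`: `SS N ≥ 1` (see `G5.q8` and G3: if only `SS N ≥ 1/2` is available use `ε/8`), so all errors are `≤ ε SS (sL + 1/L^B) H/L`.
`M = max (1000 k) (M of fiZ)` (`RgL` with `M` implies the one with `1000 k`: `1 ≤ w' ≤ U`).
-/

set_option autoImplicit false

open Finset

namespace Pool.Agent.Lib.G9

open Pool.Agent.Lib.G3 (SS)
open Pool.Agent.Lib.G8 (sL RgL)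

private theorem zlg_mono {Y U w' c1 M M' : ℕ} {S : Finset ℕ} (hM : M' ≤ M) (hU : 1 ≤ U) (h : RgL Y U w' c1 M S) :
    RgL Y U w' c1 M' S :=
  ⟨h.hS, h.h2, (Nat.pow_le_pow_right hU hM).trans h.h3⟩

private theorem zlg_sL (k U : ℕ) (S : Finset ℕ) : 0 ≤ sL k U S := by
  unfold Pool.Agent.Lib.G8.sL Pool.Agent.Lib.G5.esy
  refine sum_nonneg fun q _ => mul_nonneg (by positivity) (sum_nonneg fun s _ => prod_nonneg fun p _ => by positivity)

private theorem zlg_lp (p : ℕ) : 0 ≤ Pool.Agent.Lib.G3.lp p := by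
  unfold Pool.Agent.Lib.G3.lp
  split_ifs
  · exact Real.log_natCast_nonneg p
  · exact le_rfl

/-- the numbers -/
private theorem zlg_num {ε ε' s m e W L : ℝ} (hε : 0 < ε) (h1 : ε' ≤ ε / 8) (h2 : ε' ≤ 1 / 2) (h0 : 0 < ε') (hs : 1 / 2 ≤ s)
    (hm : 0 ≤ m) (he : 0 ≤ e) (hW1 : W ≤ L) (hW2 : (1 - ε') * L ≤ W) (hW0 : 0 ≤ W) (hW : |W - s * m| ≤ ε / 8 * (m + e)) :
    |L - s * m| ≤ ε * (s * (m + e)) := by
  rw [abs_le] at hW
  have hL0 : 0 ≤ L := hW0.trans hW1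
  -- `L ≤ (1 + 2 ε') W`
  have h3 : L ≤ (1 + 2 * ε') * W := by
    have h4 : (1 + 2 * ε') * ((1 - ε') * L) ≤ (1 + 2 * ε') * W := mul_le_mul_of_nonneg_left hW2 (by linarith)
    have h5 : L ≤ (1 + 2 * ε') * ((1 - ε') * L) := by
      have : 0 ≤ ε' * (1 - 2 * ε') * L := mul_nonneg (mul_nonneg h0.le (by linarith)) hL0
      nlinarith
    linarith
  have h6 : m + e ≤ 2 * s * (m + e) := by
    have : 0 ≤ (2 * s - 1) * (m + e) := mul_nonneg (by linarith) (by linarith)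
    nlinarith
  have h7 : 2 * ε' * W ≤ 2 * ε' * (s * m) + ε / 8 * (m + e) := by
    have h8 : W ≤ s * m + ε / 8 * (m + e) := by linarith
    have h9 : 2 * ε' * W ≤ 2 * ε' * (s * m + ε / 8 * (m + e)) := mul_le_mul_of_nonneg_left h8 (by linarith)
    have h10 : 2 * ε' * (ε / 8 * (m + e)) ≤ 1 * (ε / 8 * (m + e)) :=
      mul_le_mul_of_nonneg_right (by linarith) (by positivity)
    nlinarith
  have h11 : 2 * ε' * (s * m) ≤ ε / 4 * (s * (m + e)) := by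
    have h12 : s * m ≤ s * (m + e) := mul_le_mul_of_nonneg_left (by linarith) (by linarith)
    have h13 : 0 ≤ s * (m + e) := mul_nonneg (by linarith) (by linarith)
    calc 2 * ε' * (s * m) ≤ 2 * ε' * (s * (m + e)) := mul_le_mul_of_nonneg_left h12 (by linarith)
      _ ≤ ε / 4 * (s * (m + e)) := mul_le_mul_of_nonneg_right (by linarith) h13
  have h14 : ε / 8 * (m + e) ≤ ε / 4 * (s * (m + e)) := by
    have := mul_le_mul_of_nonneg_left h6 (show 0 ≤ ε / 8 by positivity)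
    nlinarith
  have h15 : 0 ≤ ε * (s * (m + e)) := mul_nonneg hε.le (mul_nonneg (by linarith) (by linarith))
  rw [abs_le]
  constructor
  · nlinarith
  · nlinarith

theorem lgZ (k A B : ℕ) (hk : 2 ≤ k) : ∃ c10 : ℕ, ∀ c1 : ℕ, c10 ≤ c1 → ∃ C : ℕ, ∀ ε : ℝ, 0 < ε → ∃ (M : ℕ) (x0 : ℝ), ∀ Y : ℕ, x0 ≤ Y →
    ∀ (U w' : ℕ) (S : Finset ℕ), RgL (4 * Y) U w' c1 M S → 1 ≤ w' → ∀ H : ℕ, (w' : ℝ) * (Real.log Y) ^ C ≤ H → H * H ≤ Y →
      (((Ioc (Y + H) (3 * Y)).filter fun N => Even N ∧ ε * (SS N * (sL k U S + 1 / (Real.log Y) ^ B) * (H / Real.log Y)) <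
        |LZ k U S H N - SS N * sL k U S * (H / Real.log Y)|).card : ℝ) ≤ Y / (Real.log Y) ^ A := by
  obtain ⟨c10, h10⟩ := wtZ k A B hk
  refine ⟨c10, fun c1 hc1 => ?_⟩
  obtain ⟨C, hC⟩ := h10 c1 hc1
  refine ⟨C, fun ε hε => ?_⟩
  obtain ⟨x1, h1⟩ := hC (ε / 8) (by positivity)
  have hε' : 0 < min (ε / 8) (1 / 2) := lt_min (by positivity) (by norm_num)
  obtain ⟨M1, x2, h2⟩ := fiZ k c1 hk (min (ε / 8) (1 / 2)) hε'
  refine ⟨max (1000 * k) M1, max (max x1 x2) 3, fun Y hY U w' S hR hw' H hH1 hH2 => ?_⟩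
  have hY1 : x1 ≤ Y := ((le_max_left _ _).trans (le_max_left _ _)).trans hY
  have hY2 : x2 ≤ Y := ((le_max_right _ _).trans (le_max_left _ _)).trans hY
  have hY3 : (3 : ℝ) ≤ Y := (le_max_right _ _).trans hY
  have hU : 1 ≤ U := by
    have := hR.h2
    omega
  have hR1 := zlg_mono (le_max_left (1000 * k) M1) hU hR
  have hR2 := zlg_mono (le_max_right (1000 * k) M1) hU hR
  have hl : 0 < Real.log Y := Real.log_pos (by linarith)
  refine le_trans ?_ (h1 Y hY1 U w' S hR1 hw' H hH1 hH2)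
  refine Nat.cast_le.2 (card_le_card fun N hN => ?_)
  rw [mem_filter] at hN ⊢
  obtain ⟨hN1, hev, hN2⟩ := hN
  refine ⟨hN1, ?_⟩
  by_contra hcon
  rw [not_lt] at hcon
  rw [mem_Ioc] at hN1
  have hpt : ∀ p ∈ Icc 1 H, Y < N - p ∧ N - p ≤ 3 * Y := by
    intro p hp
    rw [mem_Icc] at hp
    omega
  have hW1 : WZ Y k U S H N ≤ LZ k U S H N := by
    unfold WZ LZ
    refine sum_le_sum fun p hp => ?_
    obtain ⟨a1, a2⟩ := hpt p hp
    obtain ⟨⟨b0, b1⟩, b2, b3⟩ := h2 Y U w' S hY2 hw' hR2 (N - p) a1 a2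
    split_ifs with hE
    · exact mul_le_of_le_one_right (zlg_lp p) b1
    · have : Pool.Agent.Lib.T8.FZ Y k U S (N - p) = 0 := by
        by_contra h
        exact hE (b3 h)
      rw [this, mul_zero]
  have hW2 : (1 - min (ε / 8) (1 / 2)) * LZ k U S H N ≤ WZ Y k U S H N := by
    unfold WZ LZ
    rw [mul_sum]
    refine sum_le_sum fun p hp => ?_
    obtain ⟨a1, a2⟩ := hpt p hp
    obtain ⟨⟨b0, b1⟩, b2, b3⟩ := h2 Y U w' S hY2 hw' hR2 (N - p) a1 a2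
    split_ifs with hE
    · rw [mul_comm]
      exact mul_le_mul_of_nonneg_left (b2 hE) (zlg_lp p)
    · rw [mul_zero]
      exact mul_nonneg (zlg_lp p) b0
  have hW0 : 0 ≤ WZ Y k U S H N := by
    unfold WZ
    refine sum_nonneg fun p hp => ?_
    obtain ⟨a1, a2⟩ := hpt p hp
    exact mul_nonneg (zlg_lp p) (h2 Y U w' S hY2 hw' hR2 (N - p) a1 a2).1.1
  have hm : 0 ≤ sL k U S * (H / Real.log Y) := mul_nonneg (zlg_sL k U S) (by positivity)
  have he : 0 ≤ 1 / (Real.log Y) ^ B * (H / Real.log Y) := by positivity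
  have hcon' : |WZ Y k U S H N - SS N * (sL k U S * (H / Real.log Y))| ≤
      ε / 8 * (sL k U S * (H / Real.log Y) + 1 / (Real.log Y) ^ B * (H / Real.log Y)) := by
    have e1 : SS N * (sL k U S * (H / Real.log Y)) = sL k U S * SS N * (H / Real.log Y) := by ring
    rw [e1, ← add_mul]
    exact hcon
  have hfin := zlg_num hε (min_le_left _ _) (min_le_right _ _) hε' (Pool.Agent.Lib.G5.q8 N hev) hm he hW1 hW2 hW0 hcon'
  have e2 : SS N * (sL k U S * (H / Real.log Y)) = SS N * sL k U S * (H / Real.log Y) := by ring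
  have e3 : SS N * (sL k U S * (H / Real.log Y) + 1 / (Real.log Y) ^ B * (H / Real.log Y)) =
      SS N * (sL k U S + 1 / (Real.log Y) ^ B) * (H / Real.log Y) := by ring
  rw [e2, e3] at hfin
  exact absurd hfin (not_le.2 hN2)

end Pool.Agent.Lib.G9
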