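import Pool.Agent.Lib.G8.L8b
import Pool.Agent.Lib.G8.L8c

/-!
# G9 / ZRc: the numbers of `(Y, 2Y]` with exactly `k` prime factors, the least one in `S`, which are not typical (row ZRC)

PROOF. Let `Y < n ≤ 2Y`, `Ω(n) = k`, `q = n.minFac ∈ S`, not `EL k U S n`. `q ≤ Y^η`, `η < 1/(4M)`, so `2 q ≤ U` for large `Y` (`Y ≤ (U+1)^M`). Let `r` be the largest prime factor: `r^k ≥ n > Y ≥ U^M`, so `r > U`, `r ≥ Y^(1/k)`. (a) `k = 2`: `n = q r`, `r > U ≥ 2q`, so `n` is squarefree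
and `EL 2 U S n` holds (`2^(di q + 1) ≤ 2q < r`): no such `n`. (b) `k ≥ 3`. If `n` is not squarefree: `s^2 ∣ n`, `s ≥ q ≥ l^(B+4)`: at most `∑_{s ≥ l^(B+4)} 2Y/s^2 ≤ 4Y/l^(B+4)` such `n` (`l = log Y`; compare the squares in G8/L8a, L8.lean). If `n` is squarefree, it has `k` different
prime factors; as `EL` fails, some prime factor `s ≠ q` is `≤ 2^(di q + 1)` (`≤ 2q ≤ U < r`, so `s ≠ r`), or the number of prime factors `> U` is not `1`, so another `s ≠ r` is `> U` (`s ≠ q` since `q ≤ U`). In both cases `Q = n/r ∈ QL (k-1) U S (2Y)`: `Ω(Q) = k - 1`, `q ∣ Q`, `q s ∣ Q`,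
all prime factors of `Q` are `≥ q`. `n = Q r`, `r ≤ 2Y/Q`, `2Y/Q ≥ r ≥ Y^(1/k)`: for given `Q` at most `π(2Y/Q) ≤ C (2Y/Q)/log(2Y/Q) ≤ 2 C k (Y/Q)/l` (Chebyshev). Sum: `l8b` with `j = k - 3` and `l8c` with `j = k - 3`, `N = Y + 1` or `2Y`, `x = 2Y`, `ε' = ε/(constant)`, for each `q ∈ S`
(`log Y ≤ l^(B+4) ≤ q`; `(log (log N/log q))^(k-2) ≤ 2 (log (log Y/log q))^(k-2)`, as `log (log Y/log q) ≥ 1`).
-/

set_option autoImplicit false

open Finset

namespace Pool.Agent.Lib.G9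

open Pool.Agent.Lib.G8 (EL mL)

/-- `n ≤ b^Ω(n)` when all the prime factors of `n` are at most `b` -/
private theorem rcZ_pow {n b k : ℕ} (hn : n ≠ 0) (hk : ArithmeticFunction.cardFactors n = k)
    (hb : ∀ q ∈ n.primeFactors, q ≤ b) : n ≤ b ^ k := by
  rw [ArithmeticFunction.cardFactors_apply] at hk
  rw [← hk]
  conv_lhs => rw [← Nat.prod_primeFactorsList hn]
  refine List.prod_le_pow_card _ _ ?_
  intro q hq
  exact hb q (by rw [Nat.mem_primeFactors_iff_mem_primeFactorsList]; exact hq)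

private theorem rcZ_om {n : ℕ} (hn : n ≠ 0) (hs : Squarefree n) : n.primeFactors.card = ArithmeticFunction.cardFactors n := by
  rw [← (ArithmeticFunction.cardDistinctFactors_eq_cardFactors_iff_squarefree hn).2 hs]
  rfl

private theorem rcZ_two {p : ℕ} (hp : 2 ≤ p) : 2 ^ Pool.Agent.Lib.G8.di p < p ∧ p ≤ 2 ^ (Pool.Agent.Lib.G8.di p + 1) := by
  have h1 := Nat.pow_log_le_self 2 (show p - 1 ≠ 0 by omega)
  have h2 := Nat.lt_pow_succ_log_self (show 1 < 2 by norm_num) (p - 1)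
  rw [Nat.succ_eq_add_one] at h2
  unfold Pool.Agent.Lib.G8.di
  omega

/-- the largest prime factor -/
private theorem rcZ_big (k z Y n : ℕ) (hk : 2 ≤ k) (h2 : z ^ k ≤ Y) (hn1 : Y < n)
    (hΩ : ArithmeticFunction.cardFactors n = k) : ∃ r ∈ n.primeFactors, z < r := by
  have hn0 : n ≠ 0 := by omega
  have hn1' : n ≠ 1 := by
    intro h
    rw [h, ArithmeticFunction.cardFactors_one] at hΩ
    omega
  have hne : n.primeFactors.Nonempty := Nat.nonempty_primeFactors.2 (by omega)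
  obtain ⟨r, hr, hmax⟩ := n.primeFactors.exists_max_image id hne
  have hnr : n ≤ r ^ k := rcZ_pow hn0 hΩ fun q hq => hmax q hq
  refine ⟨r, hr, ?_⟩
  by_contra h
  have h4 : r ^ k ≤ z ^ k := Nat.pow_le_pow_left (not_lt.1 h) k
  omega

/-- the representation `n = Q r` of a squarefree number -/
private theorem rcZ_rep (k U w Y z n : ℕ) (S : Finset ℕ) (hk : 2 ≤ k) (hS : ∀ q ∈ S, q.Prime ∧ w < q ∧ 2 * q ≤ U)
    (h1 : U ≤ z) (h2 : z ^ k ≤ Y) (hn1 : Y < n) (hn2 : n ≤ 2 * Y) (hΩ : ArithmeticFunction.cardFactors n = k)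
    (hmS : n.minFac ∈ S) (hsf : Squarefree n) (hT : ¬ EL k U S n) :
    ∃ Q r : ℕ, Q ∈ Pool.Agent.Lib.G8.QL (k - 1) U S (2 * Y / z) ∧ r.Prime ∧ r ≤ 2 * Y / Q ∧ Q * r = n := by
  have hn0 : n ≠ 0 := by omega
  obtain ⟨q, hqm⟩ : ∃ q, q = n.minFac := ⟨_, rfl⟩
  rw [← hqm] at hmS
  obtain ⟨hqp, hwq, hqU⟩ := hS q hmS
  have hqn : q ∣ n := by
    rw [hqm]
    exact Nat.minFac_dvd n
  have hmin : ∀ s : ℕ, s.Prime → s ∣ n → q ≤ s := by
    intro s hs hsn
    rw [hqm]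
    exact Nat.minFac_le_of_dvd hs.two_le hsn
  obtain ⟨hd1, hd2⟩ := rcZ_two hqp.two_le
  obtain ⟨r, hr, hzr⟩ := rcZ_big k z Y n hk h2 hn1 hΩ
  have hrp : r.Prime := Nat.prime_of_mem_primeFactors hr
  have hrd : r ∣ n := Nat.dvd_of_mem_primeFactors hr
  -- the other prime
  have hs : ∃ s : ℕ, s.Prime ∧ s ∣ n ∧ s ≠ r ∧ s ≠ q ∧ (s ≤ 2 ^ (Pool.Agent.Lib.G8.di q + 1) ∨ U < s) := by
    by_cases hc : ∃ s : ℕ, s.Prime ∧ s ∣ n ∧ s ≠ q ∧ s ≤ 2 ^ (Pool.Agent.Lib.G8.di q + 1)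
    · obtain ⟨s, hsp, hsd, hsq', hsw⟩ := hc
      refine ⟨s, hsp, hsd, ?_, hsq', Or.inl hsw⟩
      have h5 : 2 ^ (Pool.Agent.Lib.G8.di q + 1) = 2 * 2 ^ Pool.Agent.Lib.G8.di q := by rw [pow_succ, mul_comm]
      omega
    · have hcard : (n.primeFactors.filter fun q => U < q).card ≠ 1 := by
        intro h
        refine hT ⟨hsf, (rcZ_om hn0 hsf).trans hΩ, ⟨q, hmS, hqn, ?_⟩, h⟩
        intro s hs hsq'
        by_contra h6
        exact hc ⟨s, Nat.prime_of_mem_primeFactors hs, Nat.dvd_of_mem_primeFactors hs, hsq', not_lt.1 h6⟩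
      have hcard0 : (n.primeFactors.filter fun q => U < q).card ≠ 0 := by
        intro h
        rw [card_eq_zero, filter_eq_empty_iff] at h
        exact h hr (by omega)
      have h4 : 1 < (n.primeFactors.filter fun q => U < q).card := by omega
      obtain ⟨a, ha, b, hb, hab⟩ := Finset.one_lt_card.1 h4
      rw [mem_filter] at ha hb
      by_cases har : a = r
      · exact ⟨b, Nat.prime_of_mem_primeFactors hb.1, Nat.dvd_of_mem_primeFactors hb.1, fun h => hab (har.trans h.symm), by omega, Or.inr hb.2⟩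
      · exact ⟨a, Nat.prime_of_mem_primeFactors ha.1, Nat.dvd_of_mem_primeFactors ha.1, har, by omega, Or.inr ha.2⟩
  obtain ⟨s, hsp, hsd, hsr, hsqq, hsw⟩ := hs
  obtain ⟨Q, hQ⟩ := hrd
  have hQ0 : Q ≠ 0 := by
    rintro rfl
    omega
  have hqr : q ≠ r := by omega
  have hqQ : q ∣ Q := by
    rw [hQ] at hqn
    rcases (Nat.Prime.dvd_mul hqp).1 hqn with h | h
    · exact absurd ((Nat.prime_dvd_prime_iff_eq hqp hrp).1 h) hqr
    · exact h
  have hsQ : s ∣ Q := by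
    rw [hQ] at hsd
    rcases (Nat.Prime.dvd_mul hsp).1 hsd with h | h
    · exact absurd ((Nat.prime_dvd_prime_iff_eq hsp hrp).1 h) hsr
    · exact h
  have hqsQ : q * s ∣ Q :=
    Nat.Coprime.mul_dvd_of_dvd_of_dvd ((Nat.coprime_primes hqp hsp).2 (fun h => hsqq h.symm)) hqQ hsQ
  have hΩQ : ArithmeticFunction.cardFactors Q = k - 1 := by
    rw [hQ, ArithmeticFunction.cardFactors_mul hrp.ne_zero hQ0, ArithmeticFunction.cardFactors_apply_prime hrp] at hΩ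
    omega
  have hQz : Q * z ≤ 2 * Y := by
    calc Q * z ≤ Q * r := Nat.mul_le_mul_left _ hzr.le
      _ = n := by rw [hQ, mul_comm]
      _ ≤ 2 * Y := hn2
  have hz0 : 0 < z := by have := hqp.two_le; omega
  have hrQ : r * Q ≤ 2 * Y := by
    rw [← hQ]
    exact hn2
  have hminQ : ∀ t : ℕ, t.Prime → t ∣ Q → q ≤ t := by
    intro t ht htQ
    refine hmin t ht ?_
    rw [hQ]
    exact htQ.mul_left r
  refine ⟨Q, r, ?_, hrp, (Nat.le_div_iff_mul_le (Nat.pos_of_ne_zero hQ0)).2 hrQ, by rw [hQ, mul_comm]⟩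
  classical
  unfold Pool.Agent.Lib.G8.QL
  rw [mem_filter, mem_Icc]
  exact ⟨⟨Nat.one_le_iff_ne_zero.2 hQ0, (Nat.le_div_iff_mul_le hz0).2 hQz⟩, hΩQ, q, hmS, hqQ, hminQ, s, hsp, hqsQ, hsw⟩

/-- two prime factors: squarefree -/
private theorem rcZ_sf (U w Y z n : ℕ) (S : Finset ℕ) (hS : ∀ q ∈ S, q.Prime ∧ w < q ∧ 2 * q ≤ U)
    (h1 : U ≤ z) (h2 : z ^ 2 ≤ Y) (hn1 : Y < n) (hΩ : ArithmeticFunction.cardFactors n = 2)
    (hmS : n.minFac ∈ S) : Squarefree n := by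
  obtain ⟨q, hqm⟩ : ∃ q, q = n.minFac := ⟨_, rfl⟩
  rw [← hqm] at hmS
  obtain ⟨hqp, hwq, hqU⟩ := hS q hmS
  have hqn : q ∣ n := by
    rw [hqm]
    exact Nat.minFac_dvd n
  obtain ⟨r, hr, hzr⟩ := rcZ_big 2 z Y n le_rfl h2 hn1 hΩ
  have hrp : r.Prime := Nat.prime_of_mem_primeFactors hr
  obtain ⟨Q, hQ⟩ := Nat.dvd_of_mem_primeFactors hr
  have hQ0 : Q ≠ 0 := by
    rintro rfl
    omega
  have hqr : q ≠ r := by omega
  have hqQ : q ∣ Q := by
    rw [hQ] at hqn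
    rcases (Nat.Prime.dvd_mul hqp).1 hqn with h | h
    · exact absurd ((Nat.prime_dvd_prime_iff_eq hqp hrp).1 h) hqr
    · exact h
  have hΩQ : ArithmeticFunction.cardFactors Q = 1 := by
    rw [hQ, ArithmeticFunction.cardFactors_mul hrp.ne_zero hQ0, ArithmeticFunction.cardFactors_apply_prime hrp] at hΩ
    omega
  have hQp : Q.Prime := ArithmeticFunction.cardFactors_eq_one_iff_prime.1 hΩQ
  have hqQ' : q = Q := (Nat.prime_dvd_prime_iff_eq hqp hQp).1 hqQ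
  rw [hQ, Nat.squarefree_mul ((Nat.coprime_primes hrp hQp).2 (fun h => hqr (hqQ'.trans h.symm)))]
  exact ⟨hrp.prime.squarefree, hQp.prime.squarefree⟩

/-- the numbers divisible by the square of a number larger than `w` are few -/
private theorem rcZ_sq (w N : ℕ) (hw : 1 ≤ w) (s : Finset ℕ)
    (hs : ∀ x ∈ s, 0 < x ∧ x ≤ N ∧ ∃ q : ℕ, w < q ∧ q ^ 2 ∣ x) : (s.card : ℝ) ≤ N / w := by
  classical
  have h1 : s.card ≤ ((Ioc w (max w N)).biUnion fun q => (Ioc 0 N).filter fun x => q ^ 2 ∣ x).card := by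
    refine card_le_card fun x hx => ?_
    obtain ⟨h0, h2, q, hq, h3⟩ := hs x hx
    have h4 : q ≤ x := (Nat.le_self_pow (by norm_num) q).trans (Nat.le_of_dvd h0 h3)
    rw [mem_biUnion]
    refine ⟨q, ?_, ?_⟩
    · rw [mem_Ioc]
      exact ⟨hq, (h4.trans h2).trans (le_max_right _ _)⟩
    · rw [mem_filter, mem_Ioc]
      exact ⟨⟨h0, h2⟩, h3⟩
  have h2 : (((Ioc w (max w N)).biUnion fun q => (Ioc 0 N).filter fun x => q ^ 2 ∣ x).card : ℝ) ≤
      ∑ q ∈ Ioc w (max w N), (N : ℝ) * ((q : ℝ) ^ 2)⁻¹ := by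
    refine (Nat.cast_le.2 (card_biUnion_le (s := Ioc w (max w N)) (t := fun q => (Ioc 0 N).filter fun x => q ^ 2 ∣ x))).trans ?_
    rw [Nat.cast_sum]
    refine sum_le_sum fun q _ => ?_
    rw [Nat.Ioc_filter_dvd_card_eq_div]
    refine Nat.cast_div_le.trans ?_
    rw [Nat.cast_pow, div_eq_mul_inv]
  have h4 := sum_Ioc_inv_sq_le_sub (α := ℝ) (k := w) (n := max w N) (by omega) (le_max_left _ _)
  have h5 : (0 : ℝ) ≤ ((max w N : ℕ) : ℝ)⁻¹ := by positivity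
  rw [← mul_sum] at h2
  calc (s.card : ℝ) ≤ _ := Nat.cast_le.2 h1
    _ ≤ _ := h2
    _ ≤ N * ((w : ℝ)⁻¹) := by
        refine mul_le_mul_of_nonneg_left ?_ (Nat.cast_nonneg _)
        linarith
    _ = N / w := (div_eq_mul_inv _ _).symm

/-- Chebyshev -/
private theorem rcZ_pi (x : ℕ) (hx : 2 ≤ x) : (((Icc 1 x).filter fun r => r.Prime).card : ℝ) ≤ 4 * (x / Real.log x) := by
  have hx1 : (1 : ℝ) < x := by exact_mod_cast hx
  have hx0 : (0 : ℝ) < x := by linarith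
  have h0 : ((Icc 1 x).filter fun r => r.Prime).card = Nat.primeCounting x := by
    rw [Nat.primeCounting, Nat.primeCounting', Nat.count_eq_card_filter_range]
    congr 1
    ext r
    rw [mem_filter, mem_filter, mem_Icc, mem_range]
    constructor
    · rintro ⟨h1, h2⟩; exact ⟨by omega, h2⟩
    · rintro ⟨h1, h2⟩; exact ⟨⟨h2.one_le, by omega⟩, h2⟩
  have h1 := Chebyshev.pi_le_log4_mul_div hx1
  rw [Nat.floor_natCast] at h1
  have hl : 0 < Real.log x := Real.log_pos hx1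
  have h2 : Real.log (Real.sqrt x) = Real.log x / 2 := Real.log_sqrt hx0.le
  -- `√x ≤ x / log x`
  have h3 : Real.log x ≤ Real.sqrt x := by
    set t := Real.sqrt (Real.sqrt x) with ht
    have ht0 : 0 < t := Real.sqrt_pos.2 (Real.sqrt_pos.2 hx0)
    have ht2 : t ^ 2 = Real.sqrt x := Real.sq_sqrt (Real.sqrt_nonneg _)
    have h4 : Real.log t = Real.log x / 4 := by
      rw [ht, Real.log_sqrt (Real.sqrt_nonneg _), h2]
      ring
    have h5 := Real.log_le_sub_one_of_pos ht0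
    rw [← ht2]
    nlinarith [sq_nonneg (t - 2)]
  have h4 : Real.sqrt x ≤ x / Real.log x := by
    rw [le_div_iff₀ hl]
    calc Real.sqrt x * Real.log x ≤ Real.sqrt x * Real.sqrt x := mul_le_mul_of_nonneg_left h3 (Real.sqrt_nonneg _)
      _ = x := Real.mul_self_sqrt hx0.le
  have h5 : Real.log 4 ≤ 3 / 2 := by
    rw [show (4 : ℝ) = 2 ^ 2 by norm_num, Real.log_pow]
    have := Real.log_two_lt_d9
    push_cast
    linarith
  rw [h0]
  refine h1.trans ?_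
  rw [h2]
  have h6 : Real.log 4 * x / (Real.log x / 2) = 2 * Real.log 4 * (x / Real.log x) := by field_simp
  rw [h6]
  have h7 : 0 ≤ (x : ℝ) / Real.log x := by positivity
  nlinarith

/-- the integer root -/
private theorem rcZ_root (Y n : ℕ) (hn : 1 ≤ n) : ∃ z : ℕ, z ^ n ≤ Y ∧ Y < (z + 1) ^ n := by
  classical
  have hex : ∃ z : ℕ, Y < (z + 1) ^ n := ⟨Y, by
    calc Y < Y + 1 := Nat.lt_succ_self Y
      _ = (Y + 1) ^ 1 := (pow_one _).symm
      _ ≤ (Y + 1) ^ n := Nat.pow_le_pow_right (by omega) hn⟩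
  refine ⟨Nat.find hex, ?_, Nat.find_spec hex⟩
  rcases Nat.eq_zero_or_pos (Nat.find hex) with h0 | h0
  · rw [h0, zero_pow (by omega)]
    exact Nat.zero_le _
  · have h1 := Nat.find_min hex (m := Nat.find hex - 1) (by omega)
    rw [not_lt, show Nat.find hex - 1 + 1 = Nat.find hex by omega] at h1
    exact h1

/-- the terms of `mL` are nonnegative -/
private theorem rcZ_nonneg {q N : ℕ} (hq : q.Prime) (hqN : q ≤ N) (j : ℕ) :
    0 ≤ 1 / (q : ℝ) * (Real.log (Real.log N / Real.log q)) ^ j := by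
  have h2 : (1 : ℝ) < q := by exact_mod_cast hq.one_lt
  have hlq : 0 < Real.log q := Real.log_pos h2
  have h3 : Real.log q ≤ Real.log N := Real.log_le_log (by linarith) (by exact_mod_cast hqN)
  have h4 : 0 ≤ Real.log (Real.log N / Real.log q) := Real.log_nonneg (by rwa [le_div_iff₀ hlq, one_mul])
  positivity

/-- the sum over `Q` -/
private theorem rcZ_Q (k M : ℕ) (hk : 3 ≤ k) (hM : 1 ≤ M) (ε : ℝ) (hε : 0 < ε) : ∃ η : ℝ, 0 < η ∧ ∃ y0 : ℝ,
    ∀ (Y N U x : ℕ) (S : Finset ℕ), y0 ≤ Y → Y < N → x ≤ 2 * Y → U ^ M ≤ Y → Y ≤ (U + 1) ^ M →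
      (∀ q ∈ S, q.Prime ∧ Real.log Y ≤ q ∧ (q : ℝ) ≤ (Y : ℝ) ^ η) →
        ∑ Q ∈ Pool.Agent.Lib.G8.QL (k - 1) U S x, (1 : ℝ) / Q ≤ ε * mL k S N := by
  obtain ⟨j, rfl⟩ : ∃ j, k = j + 3 := ⟨k - 3, by omega⟩
  obtain ⟨η, hη, y0, h⟩ := Pool.Agent.Lib.G8.l8c j M hM ε hε
  refine ⟨η, hη, y0, fun Y N U x S hY hYN hx h1 h2 hS => ?_⟩
  rw [show j + 3 - 1 = j + 2 from rfl]
  refine (Pool.Agent.Lib.G8.l8b j U x S fun q hq => (hS q hq).1).trans ?_
  unfold mL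
  rw [mul_sum]
  refine sum_le_sum fun q hq => ?_
  have h3 := h Y N U q x hY hYN hx h1 h2 (hS q hq).2.1 (hS q hq).2.2
  rw [show j + 3 - 2 = j + 1 by omega]
  calc 1 / (q : ℝ) * ((Pool.Agent.Lib.G5.sg1 (q - 1) (2 ^ (Pool.Agent.Lib.G8.di q + 1)) + Pool.Agent.Lib.G5.sg1 U x) *
        (Pool.Agent.Lib.G5.sg1 (q - 1) x) ^ j)
      ≤ 1 / (q : ℝ) * (ε * (Real.log (Real.log N / Real.log q)) ^ (j + 1)) :=
        mul_le_mul_of_nonneg_left h3 (by positivity)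
    _ = _ := by ring

/-- `mL` at `2 Y` and at `Y` -/
private theorem rcZ_mL {k Y : ℕ} {S : Finset ℕ} (hY : (2 : ℝ) ≤ Y)
    (hS : ∀ q ∈ S, q.Prime ∧ (q : ℝ) ≤ (Y : ℝ) ^ (1 / 2 : ℝ)) :
    mL k S (2 * Y) ≤ 2 ^ (k - 2) * mL k S Y := by
  unfold mL
  rw [mul_sum]
  refine sum_le_sum fun q hq => ?_
  obtain ⟨hqp, hqY⟩ := hS q hq
  have hY0 : (0 : ℝ) < Y := by linarith
  have hq1 : (1 : ℝ) < q := by exact_mod_cast hqp.one_lt
  have hlq : 0 < Real.log q := Real.log_pos hq1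
  have hlY : 0 < Real.log Y := Real.log_pos (by linarith)
  have h1 : Real.log q ≤ Real.log Y / 2 := by
    have := Real.log_le_log (by linarith) hqY
    rw [Real.log_rpow hY0] at this
    linarith
  have h2 : 2 ≤ Real.log Y / Real.log q := by
    rw [le_div_iff₀ hlq]
    linarith
  have h3 : Real.log 2 ≤ Real.log (Real.log Y / Real.log q) := Real.log_le_log (by norm_num) h2
  have hlog2 : 0 < Real.log 2 := Real.log_pos (by norm_num)
  have h4 : Real.log (((2 * Y : ℕ) : ℝ)) ≤ 2 * Real.log Y := by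
    push_cast
    rw [Real.log_mul (by norm_num) hY0.ne']
    have := Real.log_le_log (by norm_num) hY
    linarith
  have h5 : 0 < Real.log (((2 * Y : ℕ) : ℝ)) := Real.log_pos (by push_cast; linarith)
  have h6 : Real.log (Real.log (((2 * Y : ℕ) : ℝ)) / Real.log q) ≤ 2 * Real.log (Real.log Y / Real.log q) := by
    calc Real.log (Real.log (((2 * Y : ℕ) : ℝ)) / Real.log q) ≤ Real.log (2 * (Real.log Y / Real.log q)) := by
          refine Real.log_le_log (by positivity) ?_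
          rw [← mul_div_assoc]
          exact div_le_div_of_nonneg_right h4 hlq.le
      _ = Real.log 2 + Real.log (Real.log Y / Real.log q) := Real.log_mul (by norm_num) (by linarith)
      _ ≤ _ := by linarith
  have h7 : 0 ≤ Real.log (Real.log (((2 * Y : ℕ) : ℝ)) / Real.log q) := by
    refine Real.log_nonneg ?_
    rw [one_le_div hlq]
    have h8 : Real.log Y ≤ Real.log (((2 * Y : ℕ) : ℝ)) := Real.log_le_log hY0 (by push_cast; linarith)
    linarith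
  calc 1 / (q : ℝ) * (Real.log (Real.log (((2 * Y : ℕ) : ℝ)) / Real.log q)) ^ (k - 2)
      ≤ 1 / (q : ℝ) * (2 * Real.log (Real.log Y / Real.log q)) ^ (k - 2) :=
        mul_le_mul_of_nonneg_left (pow_le_pow_left₀ h7 h6 _) (by positivity)
    _ = _ := by rw [mul_pow]; ring

/-- the numbers of `S` are below `U / 2` -/
private theorem rcZ_U {M Y U q : ℕ} {η : ℝ} (hM : 1 ≤ M) (hη : η ≤ 1 / (2 * M)) (hY : (3 : ℝ) ^ (2 * M) ≤ Y)
    (hU : Y ≤ (U + 1) ^ M) (hq : (q : ℝ) ≤ (Y : ℝ) ^ η) : 2 * q ≤ U ∧ q ≤ Y := by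
  have hM1 : (1 : ℝ) ≤ M := by exact_mod_cast hM
  have hY1 : (1 : ℝ) ≤ Y := (one_le_pow₀ (by norm_num)).trans hY
  set t : ℝ := (Y : ℝ) ^ (1 / (2 * M) : ℝ) with ht
  have ht0 : 0 ≤ t := by positivity
  have hqt : (q : ℝ) ≤ t := hq.trans (Real.rpow_le_rpow_of_exponent_le hY1 hη)
  have htM : t ^ (2 * M) = Y := by
    rw [ht, ← Real.rpow_natCast, ← Real.rpow_mul (by linarith)]
    have : (1 / (2 * M) : ℝ) * ((2 * M : ℕ) : ℝ) = 1 := by
      push_cast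
      field_simp
    rw [this, Real.rpow_one]
  have ht3 : 3 ≤ t := by
    refine le_of_pow_le_pow_left₀ (n := 2 * M) (by omega) ht0 ?_
    rw [htM]
    exact hY
  have hU1 : t ^ 2 ≤ (U : ℝ) + 1 := by
    refine le_of_pow_le_pow_left₀ (n := M) (by omega) (by positivity) ?_
    rw [← pow_mul, htM]
    exact_mod_cast hU
  constructor
  · have h1 : (2 : ℝ) * q ≤ U := by nlinarith
    exact_mod_cast h1
  · have h1 : t ≤ t ^ (2 * M) := le_self_pow₀ (by linarith) (by omega)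
    have h2 : (q : ℝ) ≤ Y := hqt.trans (h1.trans htM.le)
    exact_mod_cast h2

/-- the numbers `w`, `z` at the scale `Y` -/
private theorem rcZ_scale (k B M : ℕ) (hk : 2 ≤ k) (hM : 4 * k ≤ M) (c : ℝ) : ∃ y0 : ℝ, ∀ (Y U : ℕ) (S : Finset ℕ), y0 ≤ Y →
    U ^ M ≤ Y → Y ≤ (U + 1) ^ M → (∀ q ∈ S, q.Prime ∧ (Real.log Y) ^ (B + 4) ≤ q ∧ (q : ℝ) ≤ (Y : ℝ) ^ (1 / (2 * M) : ℝ)) →
      ∃ w z : ℕ, 1 ≤ w ∧ (Real.log Y) ^ (B + 4) ≤ 2 * w ∧ (∀ q ∈ S, q.Prime ∧ w < q ∧ 2 * q ≤ U ∧ q ≤ Y) ∧ U ≤ z ∧ z ^ k ≤ Y ∧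
        2 ≤ z ∧ Real.log Y / (2 * (4 * k : ℕ)) ≤ Real.log z ∧ 2 ≤ Real.log Y ∧ (2 : ℝ) ≤ Y ∧ c ≤ Real.log Y := by
  obtain ⟨n, hn4⟩ : ∃ n : ℕ, n = 4 * k := ⟨_, rfl⟩
  have hn : 1 ≤ n := by omega
  have hn1 : (1 : ℝ) ≤ n := by exact_mod_cast hn
  have hM1 : 1 ≤ M := by omega
  have e1 : ∀ᶠ y : ℝ in Filter.atTop, max ((2 : ℝ) * n + n * Real.log 3) c ≤ Real.log y :=
    Real.tendsto_log_atTop.eventually_ge_atTop _
  obtain ⟨y2, hy2⟩ := Filter.eventually_atTop.mp e1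
  refine ⟨max y2 (max 2 (3 ^ (2 * M))), fun Y U S hY hUM hMU hS => ?_⟩
  have g1 := (le_max_left _ _).trans (hy2 Y ((le_max_left _ _).trans hY))
  have g2 := (le_max_right _ _).trans (hy2 Y ((le_max_left _ _).trans hY))
  have hY2 : (2 : ℝ) ≤ Y := (le_max_left _ _).trans ((le_max_right _ _).trans hY)
  have hY3 : (3 : ℝ) ^ (2 * M) ≤ Y := (le_max_right _ _).trans ((le_max_right _ _).trans hY)
  set l : ℝ := Real.log Y with hldef
  have hl3 : 0 ≤ Real.log (3 : ℝ) := Real.log_nonneg (by norm_num)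
  have hl2 : 2 ≤ l := by nlinarith
  have hl0 : 0 < l := by linarith
  -- the root
  obtain ⟨z, hz1, hz2⟩ := rcZ_root Y n hn
  have hlw : l ≤ n * Real.log ((z : ℝ) + 1) := by
    have h1 : (Y : ℝ) ≤ ((z : ℝ) + 1) ^ n := by exact_mod_cast hz2.le
    calc l ≤ Real.log (((z : ℝ) + 1) ^ n) := Real.log_le_log (by linarith) h1
      _ = n * Real.log ((z : ℝ) + 1) := Real.log_pow _ _
  have hz22 : 2 ≤ z := by
    have h1 : n * Real.log (3 : ℝ) ≤ n * Real.log ((z : ℝ) + 1) := by nlinarith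
    have h2 : Real.log (3 : ℝ) ≤ Real.log ((z : ℝ) + 1) := le_of_mul_le_mul_left h1 (by linarith)
    have h3 : (3 : ℝ) ≤ (z : ℝ) + 1 := (Real.log_le_log_iff (by positivity) (by positivity)).mp h2
    have h4 : (2 : ℝ) ≤ z := by linarith
    exact_mod_cast h4
  have hz1r : (1 : ℝ) ≤ z := by exact_mod_cast (by omega : 1 ≤ z)
  have hlz : l / (2 * n) ≤ Real.log (z : ℝ) := by
    have h1 : Real.log ((z : ℝ) + 1) ≤ Real.log (z : ℝ) + 1 := by
      calc Real.log ((z : ℝ) + 1) ≤ Real.log (2 * z) := Real.log_le_log (by linarith) (by linarith)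
        _ = Real.log 2 + Real.log z := Real.log_mul (by norm_num) (by linarith)
        _ ≤ Real.log (z : ℝ) + 1 := by linarith [Real.log_two_lt_d9]
    rw [div_le_iff₀ (by linarith)]
    have h2 : l ≤ n * (Real.log (z : ℝ) + 1) := hlw.trans (by gcongr)
    nlinarith
  have hZ' : z ^ k ≤ Y := by
    calc z ^ k ≤ z ^ n := Nat.pow_le_pow_right (by omega) (by omega)
      _ ≤ Y := hz1
  have hUz : U ≤ z := by
    by_contra hcon
    rw [not_le] at hcon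
    have h1 : (z + 1) ^ n ≤ U ^ M := by
      calc (z + 1) ^ n ≤ (z + 1) ^ M := Nat.pow_le_pow_right (by omega) (by omega)
        _ ≤ U ^ M := Nat.pow_le_pow_left hcon M
    omega
  -- the threshold
  have hlB : (2 : ℝ) ≤ l ^ (B + 4) := by
    calc (2 : ℝ) ≤ l := hl2
      _ ≤ l ^ (B + 4) := le_self_pow₀ (by linarith) (by omega)
  obtain ⟨w, hwdef⟩ : ∃ w : ℕ, w + 1 = ⌈l ^ (B + 4)⌉₊ := by
    refine ⟨⌈l ^ (B + 4)⌉₊ - 1, ?_⟩
    have : 0 < ⌈l ^ (B + 4)⌉₊ := Nat.ceil_pos.2 (by linarith)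
    omega
  have hwr : l ^ (B + 4) ≤ (w : ℝ) + 1 := by
    have := Nat.le_ceil (l ^ (B + 4))
    rw [← hwdef] at this
    exact_mod_cast this
  have hw1 : 1 ≤ w := by
    have h1 : (1 : ℝ) ≤ w := by linarith
    exact_mod_cast h1
  have hw2 : l ^ (B + 4) ≤ 2 * w := by
    have h1 : (1 : ℝ) ≤ w := by exact_mod_cast hw1
    linarith
  refine ⟨w, z, hw1, hw2, fun q hq => ?_, hUz, hZ', hz22, ?_, hl2, hY2, g2⟩
  · obtain ⟨h1, h2, h3⟩ := hS q hq
    obtain ⟨h5, h6⟩ := rcZ_U hM1 le_rfl hY3 hMU h3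
    refine ⟨h1, ?_, h5, h6⟩
    have h4 : ⌈l ^ (B + 4)⌉₊ ≤ q := Nat.ceil_le.2 h2
    omega
  · rw [← hn4]
    exact hlz

open Classical in
theorem rcZ (k B M : ℕ) (hk : 2 ≤ k) (hM : 4 * k ≤ M) (ε : ℝ) (hε : 0 < ε) : ∃ η : ℝ, 0 < η ∧ ∃ y0 : ℝ, ∀ (Y U : ℕ) (S : Finset ℕ), y0 ≤ Y →
    U ^ M ≤ Y → Y ≤ (U + 1) ^ M → (∀ q ∈ S, q.Prime ∧ (Real.log Y) ^ (B + 4) ≤ q ∧ (q : ℝ) ≤ (Y : ℝ) ^ η) →
      (((Ioc Y (2 * Y)).filter fun n => ArithmeticFunction.cardFactors n = k ∧ n.minFac ∈ S ∧ ¬ EL k U S n).card : ℝ) ≤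
        if k = 2 then 0 else ε * ((Y / Real.log Y) * (mL k S Y + 1 / (Real.log Y) ^ B)) := by
  have hM1 : 1 ≤ M := by omega
  have hMr : (1 : ℝ) ≤ M := by exact_mod_cast hM1
  rcases Nat.lt_or_ge k 3 with hk3 | hk3
  · -- `k = 2`
    obtain rfl : k = 2 := by omega
    obtain ⟨y0, hsc⟩ := rcZ_scale 2 B M hk hM 0
    refine ⟨1 / (2 * M), by positivity, y0, fun Y U S hY hUM hMU hS => ?_⟩
    obtain ⟨w, z, hw1, hw2, hSw, hUz, hzk, hz2, -, -, -, -⟩ := hsc Y U S hY hUM hMU hS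
    rw [if_pos rfl]
    have hemp : ((Ioc Y (2 * Y)).filter fun n => ArithmeticFunction.cardFactors n = 2 ∧ n.minFac ∈ S ∧ ¬ EL 2 U S n) = ∅ := by
      refine eq_empty_of_forall_notMem fun n hn => ?_
      rw [mem_filter, mem_Ioc] at hn
      obtain ⟨⟨hn1, hn2⟩, hΩ, hmS, hT⟩ := hn
      have hS' : ∀ q ∈ S, q.Prime ∧ w < q ∧ 2 * q ≤ U := fun q hq => ⟨(hSw q hq).1, (hSw q hq).2.1, (hSw q hq).2.2.1⟩
      have hsf := rcZ_sf U w Y z n S hS' hUz hzk hn1 hΩ hmS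
      obtain ⟨Q, r, hQ, -, -, -⟩ := rcZ_rep 2 U w Y z n S le_rfl hS' hUz hzk hn1 hn2 hΩ hmS hsf hT
      rw [show 2 - 1 = 1 from rfl, Pool.Agent.Lib.G8.l8b0 U _ S fun q hq => (hSw q hq).1] at hQ
      exact absurd hQ (notMem_empty _)
    rw [hemp, card_empty, Nat.cast_zero]
  · -- `k ≥ 3`
    obtain ⟨n, hn4⟩ : ∃ n : ℕ, n = 4 * k := ⟨_, rfl⟩
    have hn : 1 ≤ n := by omega
    have hn1 : (1 : ℝ) ≤ n := by exact_mod_cast hn
    obtain ⟨ε', hε'def⟩ : ∃ ε' : ℝ, ε' = ε / (32 * n * 2 ^ (k - 2)) := ⟨_, rfl⟩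
    have hε' : 0 < ε' := by rw [hε'def]; positivity
    obtain ⟨η, hη, y1, hmt⟩ := rcZ_Q k M hk3 hM1 ε' hε'
    obtain ⟨y0, hsc⟩ := rcZ_scale k B M hk hM (8 / ε)
    refine ⟨min η (1 / (2 * M)), lt_min hη (by positivity), max y0 y1, fun Y U S hY hUM hMU hS => ?_⟩
    have hY0 : y0 ≤ Y := (le_max_left _ _).trans hY
    have hY1 : y1 ≤ Y := (le_max_right _ _).trans hY
    rw [if_neg (by omega)]
    have hYge : (1 : ℝ) ≤ Y ∨ (Y : ℝ) = 0 := by
      rcases Nat.eq_zero_or_pos Y with h | h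
      · right; rw [h]; simp
      · left; exact_mod_cast h
    rcases hYge with hYge | hYz
    swap
    · have hYz' : Y = 0 := by exact_mod_cast hYz
      subst hYz'
      simp
    have hS2 : ∀ q ∈ S, q.Prime ∧ (Real.log Y) ^ (B + 4) ≤ q ∧ (q : ℝ) ≤ (Y : ℝ) ^ (1 / (2 * M) : ℝ) := fun q hq => by
      obtain ⟨h1, h2, h3⟩ := hS q hq
      exact ⟨h1, h2, h3.trans (Real.rpow_le_rpow_of_exponent_le hYge (min_le_right _ _))⟩
    obtain ⟨w, z, hw1, hw2, hSw, hUz, hzk, hz2, hlz, hl2, hY2, hc⟩ := hsc Y U S hY0 hUM hMU hS2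
    set l : ℝ := Real.log Y with hldef
    have hl0 : 0 < l := by linarith
    rw [← hn4] at hlz
    have hS' : ∀ q ∈ S, q.Prime ∧ w < q ∧ 2 * q ≤ U := fun q hq => ⟨(hSw q hq).1, (hSw q hq).2.1, (hSw q hq).2.2.1⟩
    have hmL : 0 ≤ mL k S Y := by
      unfold mL
      exact sum_nonneg fun q hq => rcZ_nonneg (hSw q hq).1 (hSw q hq).2.2.2 _
    -- the two parts
    set W := (Ioc Y (2 * Y)).filter fun n => ArithmeticFunction.cardFactors n = k ∧ n.minFac ∈ S ∧ ¬ EL k U S n with hW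
    set SC := W.filter fun n => ∃ q : ℕ, w < q ∧ q ^ 2 ∣ n with hSC
    set SD := W.filter fun n => Squarefree n with hSD
    have hsub : W ⊆ SC ∪ SD := by
      intro x hx
      have hx' := hx
      rw [hW, mem_filter, mem_Ioc] at hx'
      obtain ⟨⟨hx1, hx2⟩, hΩ, hmS, hT⟩ := hx'
      by_cases hsf : Squarefree x
      · exact mem_union_right _ (mem_filter.2 ⟨hx, hsf⟩)
      · refine mem_union_left _ (mem_filter.2 ⟨hx, ?_⟩)
        rw [Nat.squarefree_iff_prime_squarefree] at hsf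
        push Not at hsf
        obtain ⟨s, hsp, hsd⟩ := hsf
        refine ⟨s, ?_, by rw [sq]; exact hsd⟩
        have h4 : s ∣ x := (Dvd.intro _ rfl).trans hsd
        have h5 : x.minFac ≤ s := Nat.minFac_le_of_dvd hsp.two_le h4
        exact lt_of_lt_of_le (hS' _ hmS).2.1 h5
    have hcard : (W.card : ℝ) ≤ SC.card + SD.card := by
      exact_mod_cast (card_le_card hsub).trans (card_union_le _ _)
    have hC : (SC.card : ℝ) ≤ ((2 * Y : ℕ) : ℝ) / w := by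
      refine rcZ_sq w (2 * Y) hw1 SC fun x hx => ?_
      rw [hSC, mem_filter, hW, mem_filter, mem_Ioc] at hx
      exact ⟨by omega, hx.1.1.2, hx.2⟩
    have hD : SD.card ≤ ∑ Q ∈ Pool.Agent.Lib.G8.QL (k - 1) U S (2 * Y / z), ((Icc 1 (2 * Y / Q)).filter fun r => r.Prime).card := by
      rw [← card_sigma]
      refine card_le_card_of_surjOn (fun x => x.1 * x.2) ?_
      intro x hx
      have hx' : x ∈ SD := by simpa using hx
      rw [hSD, mem_filter, hW, mem_filter, mem_Ioc] at hx'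
      obtain ⟨⟨⟨b1, b2⟩, b3, b4, b5⟩, b6⟩ := hx'
      obtain ⟨Q, r, c1, c2, c3, c4⟩ := rcZ_rep k U w Y z x S hk hS' hUz hzk b1 b2 b3 b4 b6 b5
      refine ⟨⟨Q, r⟩, ?_, c4⟩
      have h5 : (⟨Q, r⟩ : (_ : ℕ) × ℕ) ∈ (Pool.Agent.Lib.G8.QL (k - 1) U S (2 * Y / z)).sigma fun Q =>
          (Icc 1 (2 * Y / Q)).filter fun r => r.Prime := by
        rw [mem_sigma, mem_filter, mem_Icc]
        exact ⟨c1, ⟨c2.one_le, c3⟩, c2⟩
      simpa using h5
    have hterm : ∀ Q ∈ Pool.Agent.Lib.G8.QL (k - 1) U S (2 * Y / z),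
        (((Icc 1 (2 * Y / Q)).filter fun r => r.Prime).card : ℝ) ≤ 16 * n * (Y / l) * (1 / Q) := by
      intro Q hQ
      unfold Pool.Agent.Lib.G8.QL at hQ
      rw [mem_filter, mem_Icc] at hQ
      obtain ⟨⟨hQ1, hQ2⟩, -⟩ := hQ
      have hzx : z ≤ 2 * Y / Q := by
        rw [Nat.le_div_iff_mul_le (by omega)] at hQ2 ⊢
        rwa [mul_comm]
      refine (rcZ_pi _ (hz2.trans hzx)).trans ?_
      have hzr : (1 : ℝ) < z := by exact_mod_cast hz2
      have hzx' : (z : ℝ) ≤ ((2 * Y / Q : ℕ) : ℝ) := by exact_mod_cast hzx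
      have h2 : l / (2 * n) ≤ Real.log ((2 * Y / Q : ℕ) : ℝ) := hlz.trans (Real.log_le_log (by linarith) hzx')
      have h3 : ((2 * Y / Q : ℕ) : ℝ) ≤ 2 * Y / Q := by
        refine Nat.cast_div_le.trans ?_
        push_cast
        exact le_rfl
      have hQr : (1 : ℝ) ≤ Q := by exact_mod_cast hQ1
      calc 4 * (((2 * Y / Q : ℕ) : ℝ) / Real.log ((2 * Y / Q : ℕ) : ℝ)) ≤ 4 * ((2 * Y / Q) / (l / (2 * n))) := by
            refine mul_le_mul_of_nonneg_left ?_ (by norm_num)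
            exact div_le_div₀ (by positivity) h3 (by positivity) h2
        _ = 16 * n * (Y / l) * (1 / Q) := by
            field_simp
            ring
    have hD' : (SD.card : ℝ) ≤ ε / 2 * ((Y / l) * mL k S Y) := by
      have h1 : (SD.card : ℝ) ≤ ∑ Q ∈ Pool.Agent.Lib.G8.QL (k - 1) U S (2 * Y / z), (((Icc 1 (2 * Y / Q)).filter fun r => r.Prime).card : ℝ) := by
        exact_mod_cast hD
      refine (h1.trans (sum_le_sum hterm)).trans ?_
      rw [← mul_sum]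
      have h2 : ∑ Q ∈ Pool.Agent.Lib.G8.QL (k - 1) U S (2 * Y / z), (1 : ℝ) / Q ≤ ε' * mL k S (2 * Y) := by
        refine hmt Y (2 * Y) U (2 * Y / z) S hY1 ?_ (Nat.div_le_self _ _) hUM hMU fun q hq => ?_
        · have : 0 < Y := by
            have : (0 : ℝ) < Y := by linarith
            exact_mod_cast this
          omega
        · obtain ⟨h1, h2, h3⟩ := hS q hq
          exact ⟨h1, (le_self_pow₀ (by linarith) (by omega : B + 4 ≠ 0)).trans h2,
            h3.trans (Real.rpow_le_rpow_of_exponent_le hYge (min_le_left _ _))⟩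
      have h3 : mL k S (2 * Y) ≤ 2 ^ (k - 2) * mL k S Y := by
        refine rcZ_mL hY2 fun q hq => ⟨(hS2 q hq).1, (hS2 q hq).2.2.trans ?_⟩
        refine Real.rpow_le_rpow_of_exponent_le hYge ?_
        exact one_div_le_one_div_of_le (by norm_num) (by linarith)
      calc 16 * n * ((Y : ℝ) / l) * ∑ Q ∈ Pool.Agent.Lib.G8.QL (k - 1) U S (2 * Y / z), (1 : ℝ) / Q
          ≤ 16 * n * ((Y : ℝ) / l) * (ε' * (2 ^ (k - 2) * mL k S Y)) := by
            refine mul_le_mul_of_nonneg_left (h2.trans (mul_le_mul_of_nonneg_left h3 hε'.le)) (by positivity)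
        _ = ε / 2 * ((Y / l) * mL k S Y) := by
            rw [hε'def]
            field_simp
            ring
    have hC' : ((2 * Y : ℕ) : ℝ) / w ≤ ε / 2 * ((Y / l) * (1 / l ^ B)) := by
      have hw0 : (0 : ℝ) < w := by exact_mod_cast hw1
      have h8 : 8 ≤ ε * l := by
        rw [div_le_iff₀ hε] at hc
        linarith
      have h9 : 8 ≤ ε * l ^ 3 := by
        have : l ≤ l ^ 3 := le_self_pow₀ (by linarith) (by norm_num)
        nlinarith
      have h10 : ((2 * Y : ℕ) : ℝ) / w ≤ 4 * Y / l ^ (B + 4) := by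
        push_cast
        rw [div_le_div_iff₀ hw0 (by positivity)]
        calc 2 * (Y : ℝ) * l ^ (B + 4) ≤ 2 * Y * (2 * w) := by gcongr
          _ = 4 * Y * w := by ring
      refine h10.trans ?_
      have h11 : ε / 2 * ((Y / l) * (1 / l ^ B)) = (ε * l ^ 3) * Y / (2 * l ^ (B + 4)) := by
        rw [pow_add]
        field_simp
      rw [h11, div_le_div_iff₀ (by positivity) (by positivity)]
      have h12 : 0 ≤ (Y : ℝ) * l ^ (B + 4) := by positivity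
      nlinarith
    have p1 : 0 ≤ (Y / l) * mL k S Y := by positivity
    have p2 : 0 ≤ (Y / l) * (1 / l ^ B) := by positivity
    have hexp : ε * ((Y / l) * (mL k S Y + 1 / l ^ B)) = ε * ((Y / l) * mL k S Y) + ε * ((Y / l) * (1 / l ^ B)) := by ring
    rw [hexp]
    nlinarith

end Pool.Agent.Lib.G9
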