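import Pool.Agent.Lib.G9.ZCt
import Pool.Agent.Lib.G9.ZRc
import Pool.Agent.Lib.G8.L7
import Pool.Agent.Lib.T8.Sp
import Pool.Agent.Lib.G5.Q8

/-!
# G9 / ZMain: a tiny prime plus a number with exactly `k` prime factors, the least one in a given set (row ZMAIN)
-/

set_option autoImplicit false

open Finset

namespace Pool.Agent.Lib.G9

open Pool.Agent.Lib.G3 (SS)
open Pool.Agent.Lib.G5 (esy q8)
open Pool.Agent.Lib.G8 (EL RgL sL mL di l7)

private theorem zm_ev (T : ℝ) (n M : ℕ) (hM : 1 ≤ M) : ∃ X0 : ℕ, ∀ X : ℕ, X0 ≤ X → 16 ≤ (X : ℝ) ∧ T ≤ Real.log X ∧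
    (Real.log X) ^ n ≤ Real.sqrt X ∧ 2 * (X : ℝ) ^ (1 / (2 * M + 8) : ℝ) + 1 ≤ (X : ℝ) ^ (1 / (M : ℝ)) := by
  have hlog : ∀ᶠ x : ℝ in Filter.atTop, (Real.log x) ^ (n : ℝ) ≤ 1 * x ^ (1 / 2 : ℝ) := by
    have h1 := (isLittleO_log_rpow_rpow_atTop (s := 1 / 2) (n : ℝ) (by norm_num)).bound (c := 1) (by norm_num)
    filter_upwards [h1, Filter.eventually_ge_atTop (1 : ℝ)] with x hx hx1
    rwa [Real.norm_of_nonneg (Real.rpow_nonneg (Real.log_nonneg hx1) _), Real.norm_of_nonneg (by positivity)] at hx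
  have hl4 : ∀ᶠ x : ℝ in Filter.atTop, T ≤ Real.log x :=
    Real.tendsto_log_atTop.eventually (Filter.eventually_ge_atTop _)
  have hM0 : (0 : ℝ) < M := by exact_mod_cast hM
  have hp : ∀ᶠ x : ℝ in Filter.atTop, (3 : ℝ) ≤ x ^ (1 / (2 * M : ℝ)) :=
    (tendsto_rpow_atTop (by positivity)).eventually (Filter.eventually_ge_atTop _)
  obtain ⟨x1, hx1⟩ := Filter.eventually_atTop.1 (((hlog.and hl4).and hp).and (Filter.eventually_ge_atTop (16 : ℝ)))
  refine ⟨⌈x1⌉₊, fun X hX => ?_⟩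
  have hX' : x1 ≤ X := (Nat.le_ceil _).trans (by exact_mod_cast hX)
  obtain ⟨⟨⟨h1, h2⟩, h4⟩, h3⟩ := hx1 X hX'
  rw [Real.rpow_natCast, one_mul, ← Real.sqrt_eq_rpow] at h1
  have hX0 : (0 : ℝ) < X := by linarith
  have hX1 : (1 : ℝ) ≤ X := by linarith
  refine ⟨h3, h2, h1, ?_⟩
  have e1 : (X : ℝ) ^ (1 / (M : ℝ)) = (X : ℝ) ^ (1 / (2 * M : ℝ)) * (X : ℝ) ^ (1 / (2 * M : ℝ)) := by
    rw [← Real.rpow_add hX0]
    congr 1
    field_simp
    norm_num
  have e2 : (X : ℝ) ^ (1 / (2 * M + 8) : ℝ) ≤ (X : ℝ) ^ (1 / (2 * M : ℝ)) := by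
    refine Real.rpow_le_rpow_of_exponent_le hX1 ?_
    rw [div_le_div_iff₀ (by positivity) (by positivity)]
    linarith
  have e3 : (1 : ℝ) ≤ (X : ℝ) ^ (1 / (2 * M + 8) : ℝ) := Real.one_le_rpow hX1 (by positivity)
  rw [e1]
  nlinarith [mul_le_mul e2 h4 (by norm_num) (by positivity)]

/-- the parameter `U` at `Y` -/
private theorem zm_U (M : ℕ) (hM : 1 ≤ M) (Y : ℕ) (hY : 1 ≤ Y) : ∃ U : ℕ, U ^ M ≤ Y ∧ Y ≤ (U + 1) ^ M ∧ (Y : ℝ) ^ (1 / (M : ℝ)) - 1 ≤ U := by
  have hn0 : (0 : ℝ) < M := by exact_mod_cast hM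
  have hY0 : (0 : ℝ) < Y := by exact_mod_cast hY
  have hy : (0 : ℝ) ≤ (Y : ℝ) ^ (1 / (M : ℝ)) := by positivity
  have b1 : ((⌊(Y : ℝ) ^ (1 / (M : ℝ))⌋₊ : ℕ) : ℝ) ≤ (Y : ℝ) ^ (1 / (M : ℝ)) := Nat.floor_le hy
  have b2 : (Y : ℝ) ^ (1 / (M : ℝ)) < (⌊(Y : ℝ) ^ (1 / (M : ℝ))⌋₊ : ℝ) + 1 := Nat.lt_floor_add_one _
  have e1 : ((Y : ℝ) ^ (1 / (M : ℝ))) ^ M = Y := by
    rw [← Real.rpow_natCast, ← Real.rpow_mul hY0.le]
    rw [one_div, inv_mul_cancel₀ hn0.ne', Real.rpow_one]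
  refine ⟨⌊(Y : ℝ) ^ (1 / (M : ℝ))⌋₊, ?_, ?_, by linarith⟩
  · have h : ((⌊(Y : ℝ) ^ (1 / (M : ℝ))⌋₊ : ℕ) : ℝ) ^ M ≤ Y := by
      calc ((⌊(Y : ℝ) ^ (1 / (M : ℝ))⌋₊ : ℕ) : ℝ) ^ M ≤ ((Y : ℝ) ^ (1 / (M : ℝ))) ^ M := pow_le_pow_left₀ (Nat.cast_nonneg _) b1 M
        _ = Y := e1
    exact_mod_cast h
  · have h : (Y : ℝ) ≤ ((⌊(Y : ℝ) ^ (1 / (M : ℝ))⌋₊ : ℝ) + 1) ^ M := by
      calc (Y : ℝ) = ((Y : ℝ) ^ (1 / (M : ℝ))) ^ M := e1.symm
        _ ≤ _ := pow_le_pow_left₀ hy b2.le M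
    exact_mod_cast h

/-- the comparison at one `N` -/
private theorem zm_cmp {S sg P f b a T β ε ε2 : ℝ} (hS : 0 ≤ S) (hb : 0 ≤ b) (ha : 0 ≤ a) (hf : 1 ≤ f) (hβ0 : 0 ≤ β)
    (hβ : β ≤ P) (hε : 0 < ε) (hε1 : ε ≤ 1) (hε2 : ε2 * f = ε / 16) (h6 : |T - S * sg * b| ≤ ε2 * (S * (sg + β) * b))
    (h7 : |sg - P / f| ≤ ε2 * (P / f)) (hnn : |b - a| ≤ ε2 * a) :
    |T - S * (a * (P / f))| ≤ ε * (S * (a * (P / f))) := by
  have hf0 : 0 < f := by linarith
  have hP : 0 ≤ P := hβ0.trans hβ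
  have h20 : 0 < ε2 := by
    by_contra h
    have h' : ε2 ≤ 0 := not_lt.mp h
    nlinarith
  have h21 : ε2 ≤ 1 / 16 := by nlinarith
  obtain ⟨n1, n2⟩ := abs_le.1 hnn
  have hB : b ≤ 2 * a := by nlinarith
  have hPf : P / f ≤ P := div_le_self hP hf
  have hPf0 : 0 ≤ P / f := by positivity
  have hsg1 : sg ≤ 2 * P := by
    have := (abs_le.1 h7).2
    nlinarith
  have t1 : ε2 * (S * (sg + β) * b) ≤ ε2 * (6 * (S * P * a)) := by
    refine mul_le_mul_of_nonneg_left ?_ h20.le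
    calc S * (sg + β) * b ≤ S * (3 * P) * b := by
          refine mul_le_mul_of_nonneg_right (mul_le_mul_of_nonneg_left ?_ hS) hb
          linarith
      _ ≤ S * (3 * P) * (2 * a) := by gcongr
      _ = 6 * (S * P * a) := by ring
  have t2 : |S * b * (sg - P / f)| ≤ ε2 * (2 * (S * P * a)) := by
    rw [abs_mul, abs_of_nonneg (mul_nonneg hS hb)]
    calc S * b * |sg - P / f| ≤ S * b * (ε2 * (P / f)) := mul_le_mul_of_nonneg_left h7 (mul_nonneg hS hb)
      _ ≤ S * (2 * a) * (ε2 * P) := by gcongr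
      _ = ε2 * (2 * (S * P * a)) := by ring
  have t3 : |S * (P / f) * (b - a)| ≤ ε2 * (S * P * a) := by
    rw [abs_mul, abs_of_nonneg (mul_nonneg hS hPf0)]
    calc S * (P / f) * |b - a| ≤ S * (P / f) * (ε2 * a) := mul_le_mul_of_nonneg_left hnn (mul_nonneg hS hPf0)
      _ ≤ S * P * (ε2 * a) := by gcongr
      _ = ε2 * (S * P * a) := by ring
  have e : T - S * (a * (P / f)) = (T - S * sg * b) + S * b * (sg - P / f) + S * (P / f) * (b - a) := by ring
  have hfin : ε2 * (9 * (S * P * a)) = ε * (9 / 16) * (S * (a * (P / f))) := by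
    have : ε2 = ε / 16 / f := by
      rw [eq_div_iff hf0.ne']
      exact hε2
    rw [this]
    field_simp
  rw [e]
  refine (abs_add_le _ _).trans ?_
  have u1 := abs_add_le (T - S * sg * b) (S * b * (sg - P / f))
  have hSa : 0 ≤ S * (a * (P / f)) := by positivity
  nlinarith [mul_nonneg hε.le hSa]

/-- Chebyshev's bound -/
private theorem zm_pi (x : ℕ) (hx : 2 ≤ x) : (((Icc 1 x).filter Nat.Prime).card : ℝ) ≤ 6 * x / Real.log x := by
  have hlp : 0 < Real.log x := Real.log_pos (by exact_mod_cast hx)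
  have hx0 : (0 : ℝ) < x := by exact_mod_cast (by omega : 0 < x)
  have h := Chebyshev.pi_le_log4_mul_div (x := x) (by exact_mod_cast (by omega : 1 < x))
  rw [Nat.floor_natCast] at h
  have hc : (((Icc 1 x).filter Nat.Prime).card : ℝ) ≤ (Nat.primeCounting x : ℝ) := by
    have : ((Icc 1 x).filter Nat.Prime).card ≤ Nat.primeCounting x := by
      rw [Nat.primeCounting, Nat.primeCounting', Nat.count_eq_card_filter_range]
      apply card_le_card
      intro n hn
      simp only [mem_filter, mem_Icc, mem_range] at hn ⊢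
      exact ⟨by omega, hn.2⟩
    exact_mod_cast this
  refine hc.trans (h.trans ?_)
  have hs : Real.log √(x : ℝ) = Real.log x / 2 := Real.log_sqrt hx0.le
  rw [hs]
  have h4 : Real.log 4 ≤ 2 := by
    have : (4 : ℝ) = 2 ^ 2 := by norm_num
    rw [this, Real.log_pow]
    have := Real.log_two_lt_d9
    push_cast
    linarith
  have h5 : √(x : ℝ) ≤ 2 * x / Real.log x := by
    rw [le_div_iff₀ hlp]
    have h6 : Real.log √(x : ℝ) ≤ √(x : ℝ) := by
      have := Real.log_le_sub_one_of_pos (x := √(x : ℝ)) (Real.sqrt_pos.mpr hx0)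
      linarith
    rw [hs] at h6
    have h7 : √(x : ℝ) * √(x : ℝ) = x := Real.mul_self_sqrt hx0.le
    have h8 : 0 ≤ √(x : ℝ) := Real.sqrt_nonneg _
    nlinarith
  have h9 : Real.log 4 * x / (Real.log x / 2) ≤ 4 * x / Real.log x := by
    rw [div_le_div_iff₀ (by positivity) hlp]
    nlinarith [mul_pos hx0 hlp]
  calc Real.log 4 * x / (Real.log x / 2) + √(x : ℝ) ≤ 4 * x / Real.log x + 2 * x / Real.log x := add_le_add h9 h5
    _ = 6 * x / Real.log x := by ring

/-- the sum over `N` of the number of the primes `p ≤ H` with `P (N - p)` -/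
private theorem zm_sum (P : ℕ → Prop) [DecidablePred P] (X H : ℕ) :
    ∑ N ∈ Ioc (X + H) (2 * X), ((Icc 1 H).filter fun p => p.Prime ∧ P (N - p)).card ≤
      ((Icc 1 H).filter Nat.Prime).card * ((Ioc X (2 * X)).filter P).card := by
  have h1 : ∀ N, ((Icc 1 H).filter fun p => p.Prime ∧ P (N - p)).card =
      ∑ p ∈ (Icc 1 H).filter Nat.Prime, if P (N - p) then 1 else 0 := by
    intro N
    rw [← card_filter, filter_filter]
  simp_rw [h1]
  rw [sum_comm]
  refine (sum_le_card_nsmul _ _ ((Ioc X (2 * X)).filter P).card fun p hp => ?_).trans (le_of_eq (smul_eq_mul _ _))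
  rw [mem_filter, mem_Icc] at hp
  rw [← card_filter]
  refine card_le_card_of_injOn (fun N => N - p) ?_ ?_
  · intro N hN
    rw [mem_coe, mem_filter, mem_Ioc] at hN
    rw [mem_coe, mem_filter, mem_Ioc]
    refine ⟨⟨?_, ?_⟩, hN.2⟩
    · show X < N - p
      omega
    · show N - p ≤ 2 * X
      omega
  · intro N hN N' hN' hNN
    rw [mem_coe, mem_filter, mem_Ioc] at hN hN'
    simp only at hNN
    omega

/-- algebra: the lower bound -/
private theorem zm_a1 {T C M e e' : ℝ} (h : |T - M| ≤ e' / 2 * M) (hC : T ≤ C) (hM : 0 ≤ M) (he : e' ≤ e) (he' : 0 < e') :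
    ¬ C < (1 - e) * M := by
  intro hc
  have h1 := (abs_le.1 h).1
  have h2 : e' * M ≤ e * M := mul_le_mul_of_nonneg_right he hM
  have h3 : 0 ≤ e' * M := mul_nonneg he'.le hM
  linarith

/-- algebra: the upper bound -/
private theorem zm_a2 {T C M R q e e' : ℝ} (h : |T - M| ≤ e' / 2 * M) (hC : C ≤ T + R) (hR : R ≤ e' / 2 * q) (hq : q ≤ M) (hM : 0 ≤ M)
    (he : e' ≤ e) (he' : 0 < e') : ¬ (1 + e) * M < C := by
  intro hc
  have h1 := (abs_le.1 h).2
  have h2 : e' * M ≤ e * M := mul_le_mul_of_nonneg_right he hM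
  have h3 : e' / 2 * q ≤ e' / 2 * M := mul_le_mul_of_nonneg_left hq (by linarith)
  linarith

private theorem zm_a3 {a l q : ℝ} (h : q ≤ 1 / 8 * l) (ha : l ≤ a) (hq : 0 < q) : Real.exp 1 * q ≤ a := by
  have h1 := Real.exp_one_lt_d9
  have h2 : Real.exp 1 * q ≤ 3 * q := mul_le_mul_of_nonneg_right (by linarith) hq.le
  linarith

private theorem zm_a4 {ε' l L X : ℝ} (hε : 0 < ε') (h : 4 / ε' ≤ l) (hL : l ≤ L) (hL0 : 0 < L) (hX : 0 ≤ X) : X / L ≤ ε' / 4 * X := by
  rw [div_le_iff₀ hL0]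
  have h1 : 4 ≤ l * ε' := (div_le_iff₀ hε).1 h
  have h2 : l * ε' ≤ L * ε' := mul_le_mul_of_nonneg_right hL hε.le
  have h3 : 1 ≤ ε' / 4 * L := by linarith
  calc X = X * 1 := (mul_one X).symm
    _ ≤ X * (ε' / 4 * L) := mul_le_mul_of_nonneg_left h3 hX
    _ = ε' / 4 * X * L := by ring

theorem g9z (k A B : ℕ) (hk : 2 ≤ k) : ∃ c₀ C : ℕ, ∀ ε : ℝ, 0 < ε → ∃ η : ℝ, 0 < η ∧ ∃ X₀ : ℕ, ∀ X H : ℕ, ∀ (w' : ℝ) (S : Finset ℕ),
    X₀ ≤ X → (∀ q ∈ S, q.Prime ∧ (Real.log X) ^ c₀ ≤ q ∧ (q : ℝ) ≤ w') → w' ≤ (X : ℝ) ^ η → w' * (Real.log X) ^ C ≤ H →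
    2 * (H : ℝ) ≤ Real.sqrt X → 1 / (Real.log X) ^ B ≤ ∑ q ∈ S, 1 / (q : ℝ) →
      (((Ioc X (2 * X)).filter fun N => Even N ∧ (CZ k S H N : ℝ) < (1 - ε) * MZ k S H N).card : ℝ) ≤ X / (Real.log X) ^ A ∧
      (((Ioc X (2 * X)).filter fun N => Even N ∧ (1 + ε) * MZ k S H N < CZ k S H N).card : ℝ) ≤
        if k = 2 then X / (Real.log X) ^ A else ε * X := by
  classical
  obtain ⟨c10, h6⟩ := ctZ k (A + 1) B hk
  obtain ⟨C1, h6⟩ := h6 c10 le_rfl
  refine ⟨c10 + B + 6, C1 + 1, fun ε hε => ?_⟩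
  obtain ⟨f, hf⟩ : ∃ f : ℝ, f = (Nat.factorial (k - 2) : ℝ) := ⟨_, rfl⟩
  have hf1 : 1 ≤ f := by
    rw [hf]
    exact_mod_cast Nat.one_le_iff_ne_zero.mpr (Nat.factorial_ne_zero _)
  obtain ⟨ε', hε'⟩ : ∃ ε' : ℝ, ε' = min ε 1 := ⟨_, rfl⟩
  have hε'0 : 0 < ε' := by rw [hε']; exact lt_min hε one_pos
  have hε'1 : ε' ≤ 1 := by rw [hε']; exact min_le_right _ _
  have hε'ε : ε' ≤ ε := by rw [hε']; exact min_le_left _ _
  obtain ⟨ε2, hε2⟩ : ∃ ε2 : ℝ, ε2 = ε' / (32 * f) := ⟨_, rfl⟩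
  have hε20 : 0 < ε2 := by rw [hε2]; positivity
  have hε2f : ε2 * f = ε' / 2 / 16 := by
    rw [hε2]
    field_simp
    norm_num
  obtain ⟨ε3, hε3⟩ : ∃ ε3 : ℝ, ε3 = ε' ^ 2 / (384 * f) := ⟨_, rfl⟩
  have hε30 : 0 < ε3 := by rw [hε3]; positivity
  obtain ⟨M0, x0, h6⟩ := h6 ε2 hε20
  obtain ⟨M, hMd⟩ : ∃ M : ℕ, M = M0 + 4 * k + 1 := ⟨_, rfl⟩
  have hM1 : 1 ≤ M := by omega
  have hMk : 4 * k ≤ M := by omega
  have hM0M : M0 ≤ M := by omega
  obtain ⟨X1, hX1⟩ := zm_ev (2 ^ (C1 + (c10 + B + 6) + 2) + 4 + 1 / ε2 + 4 / ε') (A + 1) M hM1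
  obtain ⟨η7, hη7, y7, h7⟩ := l7 k M hk hM1 ε2 hε20
  obtain ⟨η8, hη8, y8, h8⟩ := rcZ k B M hk hMk ε3 hε30
  obtain ⟨η, hη⟩ : ∃ η : ℝ, η = min (min η7 η8) (1 / (2 * M + 8)) := ⟨_, rfl⟩
  have hη0 : 0 < η := by rw [hη]; exact lt_min (lt_min hη7 hη8) (by positivity)
  have hηa : η ≤ η7 := by rw [hη]; exact (min_le_left _ _).trans (min_le_left _ _)
  have hηb : η ≤ η8 := by rw [hη]; exact (min_le_left _ _).trans (min_le_right _ _)
  have hηc : η ≤ 1 / (2 * M + 8) := by rw [hη]; exact min_le_right _ _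
  have hM0r : (0 : ℝ) ≤ M := Nat.cast_nonneg _
  have hηd : η ≤ 1 / 8 := by
    refine hηc.trans ?_
    rw [div_le_div_iff₀ (by positivity) (by norm_num)]
    linarith
  refine ⟨η, hη0, max X1 (max ⌈x0⌉₊ (max ⌈y7⌉₊ ⌈y8⌉₊)), ?_⟩
  intro X H w' S hX hS hw2 hH1 hH2 hsum
  have hXa : X1 ≤ X := (le_max_left _ _).trans hX
  have hX' := (le_max_right _ _).trans hX
  have hXb : x0 ≤ X := (Nat.le_ceil _).trans (by exact_mod_cast (le_max_left _ _).trans hX')
  have hX' := (le_max_right _ _).trans hX'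
  have hXd : y7 ≤ X := (Nat.le_ceil _).trans (by exact_mod_cast (le_max_left _ _).trans hX')
  have hXe : y8 ≤ X := (Nat.le_ceil _).trans (by exact_mod_cast (le_max_right _ _).trans hX')
  obtain ⟨g1, g2, g3, g4⟩ := hX1 X hXa
  obtain ⟨l, hl⟩ : ∃ l : ℝ, l = Real.log X := ⟨_, rfl⟩
  obtain ⟨r, hr⟩ : ∃ r : ℝ, r = Real.sqrt X := ⟨_, rfl⟩
  rw [← hl] at g2 g3 hS hH1 hsum ⊢
  rw [← hr] at g3 hH2
  have hX0 : (0 : ℝ) < X := by linarith
  have hXone : (1 : ℝ) ≤ X := by linarith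
  have hX1n : 1 ≤ X := by exact_mod_cast hXone
  have hrr : r * r = X := by rw [hr]; exact Real.mul_self_sqrt hX0.le
  have hr0 : 0 ≤ r := by rw [hr]; exact Real.sqrt_nonneg _
  have p2 : (0 : ℝ) < 2 ^ (C1 + (c10 + B + 6) + 2) := by positivity
  have p3 : 0 < 1 / ε2 := by positivity
  have p4 : 0 < 4 / ε' := by positivity
  have hl4 : 4 ≤ l := by linarith
  have hle2 : 1 / ε2 ≤ l := by linarith
  have hle' : 4 / ε' ≤ l := by linarith
  have hlA : l ≤ l ^ (A + 1) := by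
    calc l = l ^ 1 := (pow_one l).symm
      _ ≤ l ^ (A + 1) := pow_le_pow_right₀ (by linarith) (by omega)
  have hne : S.Nonempty := by
    by_contra h
    rw [not_nonempty_iff_eq_empty] at h
    rw [h, sum_empty] at hsum
    have : 0 < 1 / l ^ B := by positivity
    linarith
  have hw'1 : 1 ≤ w' := by
    obtain ⟨q, hq⟩ := hne
    obtain ⟨-, a2, a3⟩ := hS q hq
    have : (1 : ℝ) ≤ l ^ (c10 + B + 6) := one_le_pow₀ (by linarith)
    linarith
  have hpow : ∀ c : ℕ, c + 2 ≤ c10 + B + 6 → (Real.log ((4 * X : ℕ) : ℝ)) ^ c ≤ l ^ (c10 + B + 6) := by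
    intro c hc
    have e0 : Real.log ((4 * X : ℕ) : ℝ) ≤ 2 * l := by
      push_cast
      rw [Real.log_mul (by norm_num) hX0.ne', ← hl]
      have e2 : Real.log 4 ≤ 4 := (Real.log_le_sub_one_of_pos (by norm_num)).trans (by norm_num)
      linarith
    have e1 : 0 ≤ Real.log ((4 * X : ℕ) : ℝ) := by
      refine Real.log_nonneg ?_
      push_cast
      linarith
    calc (Real.log ((4 * X : ℕ) : ℝ)) ^ c ≤ (2 * l) ^ c := pow_le_pow_left₀ e1 e0 _
      _ = 2 ^ c * l ^ c := mul_pow _ _ _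
      _ ≤ l * l ^ c := by
          refine mul_le_mul_of_nonneg_right ?_ (by positivity)
          have : (2 : ℝ) ^ c ≤ 2 ^ (C1 + (c10 + B + 6) + 2) := pow_le_pow_right₀ (by norm_num) (by omega)
          linarith
      _ = l ^ (c + 1) := by ring
      _ ≤ l ^ (c10 + B + 6) := pow_le_pow_right₀ (by linarith) (by omega)
  have hpow' : ∀ c : ℕ, c ≤ c10 + B + 6 → l ^ c ≤ l ^ (c10 + B + 6) := fun c hc => pow_le_pow_right₀ (by linarith) hc
  obtain ⟨U, u1, u2, u3⟩ := zm_U M hM1 X hX1n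
  have hw2' : w' ≤ (X : ℝ) ^ (1 / (2 * M + 8) : ℝ) := hw2.trans (Real.rpow_le_rpow_of_exponent_le hXone hηc)
  have hU2 : 2 * ⌊w'⌋₊ ≤ U := by
    have e1 : ((⌊w'⌋₊ : ℕ) : ℝ) ≤ w' := Nat.floor_le (by linarith)
    have e2 : ((2 * ⌊w'⌋₊ : ℕ) : ℝ) ≤ U := by
      push_cast
      linarith
    exact_mod_cast e2
  have hwf1 : 1 ≤ ⌊w'⌋₊ := Nat.le_floor (by exact_mod_cast hw'1)
  have hU1 : 1 ≤ U := by omega
  have hRg : RgL (4 * X) U ⌊w'⌋₊ c10 M0 S := by
    refine ⟨fun q hq => ?_, hU2, ((Nat.pow_le_pow_right hU1 hM0M).trans u1).trans (by omega)⟩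
    obtain ⟨a1, a2, a3⟩ := hS q hq
    exact ⟨a1, (hpow (c10 + 1) (by omega)).trans a2, Nat.le_floor a3⟩
  have hHw : ((⌊w'⌋₊ : ℕ) : ℝ) * (Real.log X) ^ C1 ≤ H := by
    refine le_trans ?_ hH1
    have e1 : ((⌊w'⌋₊ : ℕ) : ℝ) ≤ w' := Nat.floor_le (by linarith)
    rw [← hl]
    exact mul_le_mul e1 (pow_le_pow_right₀ (by linarith) (by omega)) (by positivity) (by linarith)
  have hHH : H * H ≤ X := by
    have hH0 : (0 : ℝ) ≤ H := Nat.cast_nonneg _
    have hHr : (H : ℝ) ≤ r := by linarith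
    have : (H : ℝ) * H ≤ X := by
      rw [← hrr]
      exact mul_le_mul hHr hHr hH0 hr0
    exact_mod_cast this
  have hHl : l ≤ H := by
    refine le_trans ?_ hH1
    have e1 : l ≤ l ^ (C1 + 1) := by
      calc l = l ^ 1 := (pow_one l).symm
        _ ≤ l ^ (C1 + 1) := pow_le_pow_right₀ (by linarith) (by omega)
    exact e1.trans (le_mul_of_one_le_left (by positivity) hw'1)
  have hH4 : (4 : ℝ) ≤ H := hl4.trans hHl
  have hH2n : 2 ≤ H := by
    have : (2 : ℝ) ≤ H := by linarith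
    exact_mod_cast this
  have hlH : 0 < Real.log H := Real.log_pos (by linarith)
  have h9 := h6 X hXb U ⌊w'⌋₊ S hRg hwf1 H hHw hHH
  rw [← hl] at h9
  -- the members of `S`
  have hqY : ∀ q ∈ S, ∀ θ : ℝ, η ≤ θ → (q : ℝ) ≤ (X : ℝ) ^ θ := by
    intro q hq θ hθ
    calc (q : ℝ) ≤ w' := (hS q hq).2.2
      _ ≤ (X : ℝ) ^ η := hw2
      _ ≤ (X : ℝ) ^ θ := Real.rpow_le_rpow_of_exponent_le hXone hθ
  have hql : ∀ q ∈ S, l ≤ q := by
    intro q hq
    have := hpow' 1 (by omega)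
    rw [pow_one] at this
    exact this.trans (hS q hq).2.1
  have hlog1 : ∀ q ∈ S, ∀ N : ℕ, X ≤ N → 1 ≤ Real.log (Real.log N / Real.log q) ∧
      Real.log (Real.log X / Real.log q) ≤ Real.log (Real.log N / Real.log q) := by
    intro q hq N hN
    have hNr : (X : ℝ) ≤ N := by exact_mod_cast hN
    have hlN : Real.log X ≤ Real.log N := Real.log_le_log hX0 hNr
    have hq1 : (1 : ℝ) < q := by exact_mod_cast (hS q hq).1.one_lt
    have hlq : 0 < Real.log q := Real.log_pos hq1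
    have e2 : Real.log q ≤ 1 / 8 * Real.log X := by
      have e3 := Real.log_le_log (by linarith) (hqY q hq (1 / 8) hηd)
      rwa [Real.log_rpow hX0] at e3
    rw [← hl] at e2 hlN ⊢
    constructor
    · rw [Real.le_log_iff_exp_le (div_pos (by linarith) hlq)]
      rw [le_div_iff₀ hlq]
      exact zm_a3 e2 hlN hlq
    · exact Real.log_le_log (div_pos (by linarith) hlq) (by gcongr)
  have hβP : ∀ N : ℕ, X ≤ N → 1 / l ^ B ≤ mL k S N := by
    intro N hN
    refine hsum.trans ?_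
    unfold mL
    refine sum_le_sum fun q hq => ?_
    exact le_mul_of_one_le_right (by positivity) (one_le_pow₀ (hlog1 q hq N hN).1)
  have hmono : ∀ N : ℕ, X ≤ N → mL k S X ≤ mL k S N := by
    intro N hN
    unfold mL
    refine sum_le_sum fun q hq => ?_
    refine mul_le_mul_of_nonneg_left ?_ (by positivity)
    exact pow_le_pow_left₀ (by linarith [(hlog1 q hq X le_rfl).1]) (hlog1 q hq N hN).2 _
  -- the bad set
  obtain ⟨bad, hbad⟩ : ∃ bad : Finset ℕ, bad = ((Ioc (X + H) (3 * X)).filter fun N => Even N ∧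
        ε2 * (SS N * (sL k U S + 1 / l ^ B) * (H / (Real.log H * l))) <
        |(TZ k U S H N : ℝ) - SS N * sL k U S * (H / (Real.log H * l))|) := ⟨_, rfl⟩
  rw [← hbad] at h9
  have hMZ0 : ∀ N : ℕ, X ≤ N → Even N → 0 ≤ MZ k S H N := by
    intro N hN hev
    have h1 := q8 N hev
    have h2 : 0 ≤ mL k S N := le_trans (by positivity) (hβP N hN)
    have hNr : (X : ℝ) ≤ N := by exact_mod_cast hN
    have h3 : 0 ≤ Real.log N := Real.log_nonneg (by linarith)
    unfold MZ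
    rw [← hf]
    exact mul_nonneg (by linarith) (by positivity)
  have hkey : ∀ N : ℕ, X + H < N → N ≤ 2 * X → Even N → N ∉ bad →
      |(TZ k U S H N : ℝ) - MZ k S H N| ≤ ε' / 2 * MZ k S H N := by
    intro N hN1 hN2 hev hnb
    have hcon : |(TZ k U S H N : ℝ) - SS N * sL k U S * (H / (Real.log H * l))| ≤
        ε2 * (SS N * (sL k U S + 1 / l ^ B) * (H / (Real.log H * l))) := by
      by_contra hcon
      rw [not_le] at hcon
      refine hnb ?_
      rw [hbad, mem_filter, mem_Ioc]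
      exact ⟨⟨hN1, by omega⟩, hev, hcon⟩
    have hXN : X ≤ N := by omega
    have hNr : (X : ℝ) ≤ N := by exact_mod_cast hXN
    have hN2r : (N : ℝ) ≤ 2 * X := by exact_mod_cast hN2
    have hlN : l ≤ Real.log N := by rw [hl]; exact Real.log_le_log hX0 hNr
    have hlN2 : Real.log N ≤ l + 1 := by
      have e1 : Real.log N ≤ Real.log (2 * X) := Real.log_le_log (by linarith) hN2r
      rw [Real.log_mul (by norm_num) hX0.ne', ← hl] at e1
      have e2 := Real.log_two_lt_d9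
      linarith
    have hSS : 0 ≤ SS N := by
      have := q8 N hev
      linarith
    have hsl : |sL k U S - mL k S N / f| ≤ ε2 * (mL k S N / f) := by
      unfold sL mL
      rw [sum_div, ← sum_sub_distrib, mul_sum]
      refine (abs_sum_le_sum_abs _ _).trans (sum_le_sum fun q hq => ?_)
      have e1 := h7 X N U q hXd (by omega) hN2 u1 u2 (by rw [← hl]; exact hql q hq) (hqY q hq η7 hηa)
      rw [← hf] at e1
      have hq0 : (0 : ℝ) ≤ 1 / (q : ℝ) := by positivity
      have e2 : 1 / (q : ℝ) * esy (k - 2) (2 ^ (di q + 1)) U - 1 / (q : ℝ) * (Real.log (Real.log N / Real.log q)) ^ (k - 2) / f =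
          1 / (q : ℝ) * (esy (k - 2) (2 ^ (di q + 1)) U - (Real.log (Real.log N / Real.log q)) ^ (k - 2) / f) := by ring
      rw [e2, abs_mul, abs_of_nonneg hq0]
      refine (mul_le_mul_of_nonneg_left e1 hq0).trans (le_of_eq ?_)
      ring
    have hl0 : 0 < l := by linarith
    have hlN0 : 0 < Real.log N := by linarith
    have hnn : |(H : ℝ) / (Real.log H * l) - H / (Real.log H * Real.log N)| ≤ ε2 * (H / (Real.log H * Real.log N)) := by
      have e1 : (H : ℝ) / (Real.log H * l) - H / (Real.log H * Real.log N) =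
          H / (Real.log H * Real.log N) * ((Real.log N - l) / l) := by
        field_simp
      have e2 : 0 ≤ (Real.log N - l) / l := div_nonneg (by linarith) hl0.le
      have e3 : (Real.log N - l) / l ≤ ε2 := by
        rw [div_le_iff₀ hl0]
        have e4 : 1 ≤ ε2 * l := by
          rw [div_le_iff₀ hε20] at hle2
          linarith
        linarith
      rw [e1, abs_of_nonneg (by positivity), mul_comm]
      exact mul_le_mul_of_nonneg_right e3 (by positivity)
    have hc := zm_cmp (S := SS N) (sg := sL k U S) (P := mL k S N) (f := f) (b := H / (Real.log H * l))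
      (a := H / (Real.log H * Real.log N)) (T := TZ k U S H N) (β := 1 / l ^ B) (ε := ε' / 2) (ε2 := ε2)
      hSS (by positivity) (by positivity) hf1 (by positivity) (hβP N hXN) (by positivity) (by linarith) hε2f hcon hsl hnn
    have hM : MZ k S H N = SS N * (H / (Real.log H * Real.log N) * (mL k S N / f)) := by
      unfold MZ
      rw [hf]
    rw [← hM] at hc
    exact hc
  have hCT : ∀ N : ℕ, (TZ k U S H N : ℝ) ≤ CZ k S H N := by
    intro N
    have : TZ k U S H N ≤ CZ k S H N := by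
      unfold TZ CZ
      refine card_le_card fun p hp => ?_
      rw [mem_filter] at hp ⊢
      obtain ⟨h1, h2, h3⟩ := hp
      have h4 := Pool.Agent.Lib.T8.EL_len (fun q hq => (hS q hq).1) h3
      refine ⟨h1, h2, ?_, h4.2⟩
      rw [ArithmeticFunction.cardFactors_apply]
      exact h4.1
    exact_mod_cast this
  have hcov : ((H : ℝ) + bad.card) ≤ X / l ^ A ∧ ((H : ℝ) + bad.card) ≤ ε' / 2 * X := by
    have e0 : (X : ℝ) / l ^ (A + 1) = X / l ^ A / l := by
      rw [pow_succ, div_div]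
    have e1 : (H : ℝ) ≤ X / l ^ (A + 1) := by
      rw [le_div_iff₀ (by positivity)]
      calc (H : ℝ) * l ^ (A + 1) ≤ r * r := by
            refine mul_le_mul ?_ g3 (by positivity) hr0
            linarith [(Nat.cast_nonneg H : (0 : ℝ) ≤ H)]
        _ = X := hrr
    have e2 : 0 ≤ (X : ℝ) / l ^ A := by positivity
    have e3 : (X : ℝ) / l ^ (A + 1) ≤ X / l ^ A / 2 := by
      rw [e0]
      exact div_le_div_of_nonneg_left e2 (by norm_num) (by linarith)
    have e4 : (X : ℝ) / l ^ (A + 1) ≤ ε' / 4 * X := zm_a4 hε'0 hle' hlA (by positivity) hX0.le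
    constructor <;> linarith
  have hsub1 : ∀ (P : ℕ → Prop) [DecidablePred P], (∀ N : ℕ, X + H < N → N ≤ 2 * X → N ∉ bad → ¬ P N) →
      (((Ioc X (2 * X)).filter P).card : ℝ) ≤ H + bad.card := by
    intro P _ hP
    have hs : (Ioc X (2 * X)).filter P ⊆ Ioc X (X + H) ∪ bad := by
      intro N hN
      rw [mem_filter, mem_Ioc] at hN
      rw [mem_union, mem_Ioc]
      by_cases h1 : N ≤ X + H
      · exact Or.inl ⟨hN.1.1, h1⟩
      · right
        by_contra h2
        exact hP N (by omega) hN.1.2 h2 hN.2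
    have h1 := (card_le_card hs).trans (card_union_le _ _)
    rw [Nat.card_Ioc] at h1
    have h2 : ((Ioc X (2 * X)).filter P).card ≤ H + bad.card := by omega
    exact_mod_cast h2
  constructor
  · refine (hsub1 _ fun N hN1 hN2 hnb hP => ?_).trans hcov.1
    exact zm_a1 (hkey N hN1 hN2 hP.1 hnb) (hCT N) (hMZ0 N (by omega) hP.1) hε'ε hε'0 hP.2
  · -- the untypical numbers
    have hrc := h8 X U S hXe u1 u2 (fun q hq => ⟨(hS q hq).1, by rw [← hl]; exact (hpow' (B + 4) (by omega)).trans (hS q hq).2.1,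
      hqY q hq η8 hηb⟩)
    rw [← hl] at hrc
    obtain ⟨R, hR⟩ : ∃ R : ℕ → Prop, R = fun n => ArithmeticFunction.cardFactors n = k ∧ n.minFac ∈ S ∧ ¬ EL k U S n := ⟨_, rfl⟩
    have hCR : ∀ N : ℕ, (CZ k S H N : ℝ) ≤ TZ k U S H N + ((Icc 1 H).filter fun p => p.Prime ∧ R (N - p)).card := by
      intro N
      have : CZ k S H N ≤ TZ k U S H N + ((Icc 1 H).filter fun p => p.Prime ∧ R (N - p)).card := by
        unfold TZ CZ
        refine le_trans (card_le_card ?_) (card_union_le _ _)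
        intro p hp
        rw [mem_filter] at hp
        rw [mem_union, mem_filter, mem_filter]
        obtain ⟨h1, h2, h3, h4⟩ := hp
        by_cases h5 : EL k U S (N - p)
        · exact Or.inl ⟨h1, h2, h5⟩
        · refine Or.inr ⟨h1, h2, ?_⟩
          rw [hR]
          exact ⟨h3, h4, h5⟩
      exact_mod_cast this
    have hrc' : (((Ioc X (2 * X)).filter R).card : ℝ) ≤ if k = 2 then 0 else ε3 * ((X / l) * (mL k S X + 1 / l ^ B)) := by
      refine le_trans (le_of_eq ?_) hrc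
      congr 2
      ext n
      simp only [mem_filter, hR]
    by_cases hk2 : k = 2
    · rw [if_pos hk2] at hrc' ⊢
      have hemp : (Ioc X (2 * X)).filter R = ∅ := by
        rw [← card_eq_zero]
        have : (((Ioc X (2 * X)).filter R).card : ℝ) = 0 := le_antisymm hrc' (Nat.cast_nonneg _)
        exact_mod_cast this
      refine (hsub1 _ fun N hN1 hN2 hnb hP => ?_).trans hcov.1
      have h0 : ((Icc 1 H).filter fun p => p.Prime ∧ R (N - p)).card = 0 := by
        rw [card_eq_zero]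
        refine filter_eq_empty_iff.2 fun p hp h => ?_
        rw [mem_Icc] at hp
        have h1 : N - p ∈ (Ioc X (2 * X)).filter R := by
          rw [mem_filter, mem_Ioc]
          exact ⟨⟨by omega, by omega⟩, h.2⟩
        rw [hemp] at h1
        exact notMem_empty _ h1
      have h3 := hCR N
      rw [h0, Nat.cast_zero] at h3
      exact zm_a2 (R := 0) (q := 0) (hkey N hN1 hN2 hP.1 hnb) h3 (by rw [mul_zero]) (hMZ0 N (by omega) hP.1)
        (hMZ0 N (by omega) hP.1) hε'ε hε'0 hP.2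
    · rw [if_neg hk2] at hrc' ⊢
      obtain ⟨m, hm⟩ : ∃ m : ℝ, m = mL k S X := ⟨_, rfl⟩
      have hm0 : 1 / l ^ B ≤ m := by rw [hm]; exact hβP X le_rfl
      have hmp : 0 < m := lt_of_lt_of_le (by positivity) hm0
      rw [← hm] at hrc'
      have hl0 : 0 < l := by linarith
      obtain ⟨Q, hQ⟩ : ∃ Q : ℝ, Q = H / (Real.log H * l) * m := ⟨_, rfl⟩
      have hQ0 : 0 < Q := by
        rw [hQ]
        have : (0 : ℝ) < H := by linarith
        positivity
      -- lower bound of the main term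
      have hlow : ∀ N : ℕ, X + H < N → N ≤ 2 * X → Even N → Q / (4 * f) ≤ MZ k S H N := by
        intro N hN1 hN2 hev
        have hXN : X ≤ N := by omega
        have hNr : (X : ℝ) ≤ N := by exact_mod_cast hXN
        have hN2r : (N : ℝ) ≤ 2 * X := by exact_mod_cast hN2
        have hlN : l ≤ Real.log N := by rw [hl]; exact Real.log_le_log hX0 hNr
        have hlN2 : Real.log N ≤ 2 * l := by
          have e1 : Real.log N ≤ Real.log (2 * X) := Real.log_le_log (by linarith) hN2r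
          rw [Real.log_mul (by norm_num) hX0.ne', ← hl] at e1
          have e2 := Real.log_two_lt_d9
          linarith
        have h1 := q8 N hev
        have h2 : m ≤ mL k S N := by rw [hm]; exact hmono N hXN
        have hlN0 : 0 < Real.log N := by linarith
        unfold MZ
        rw [← hf, hQ]
        have e1 : (H : ℝ) / (Real.log H * l) * m / (4 * f) = 1 / 2 * (H / (Real.log H * (2 * l)) * (m / f)) := by
          field_simp
          norm_num
        rw [e1]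
        gcongr
      -- the sum over `N`
      have hsumR := zm_sum R X H
      have hsumR' : ((∑ N ∈ Ioc (X + H) (2 * X), ((Icc 1 H).filter fun p => p.Prime ∧ R (N - p)).card : ℕ) : ℝ) ≤ 12 * ε3 * Q * X := by
        have e1 : ((∑ N ∈ Ioc (X + H) (2 * X), ((Icc 1 H).filter fun p => p.Prime ∧ R (N - p)).card : ℕ) : ℝ) ≤
            (((Icc 1 H).filter Nat.Prime).card : ℝ) * (((Ioc X (2 * X)).filter R).card : ℝ) := by exact_mod_cast hsumR
        refine e1.trans ?_
        have e2 := zm_pi H hH2n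
        calc (((Icc 1 H).filter Nat.Prime).card : ℝ) * (((Ioc X (2 * X)).filter R).card : ℝ) ≤
              (6 * H / Real.log H) * (ε3 * ((X / l) * (m + 1 / l ^ B))) := by
                refine mul_le_mul e2 hrc' (Nat.cast_nonneg _) (by positivity)
          _ ≤ (6 * H / Real.log H) * (ε3 * ((X / l) * (2 * m))) := by
                have : m + 1 / l ^ B ≤ 2 * m := by linarith
                gcongr
          _ = 12 * ε3 * Q * X := by
                rw [hQ]
                field_simp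
                norm_num
      obtain ⟨bad2, hbad2⟩ : ∃ bad2 : Finset ℕ, bad2 = (Ioc (X + H) (2 * X)).filter fun N =>
        ε' / 2 * (Q / (4 * f)) < (((Icc 1 H).filter fun p => p.Prime ∧ R (N - p)).card : ℝ) := ⟨_, rfl⟩
      have hb2 : (bad2.card : ℝ) ≤ ε' / 4 * X := by
        have e1 : (bad2.card : ℝ) * (ε' / 2 * (Q / (4 * f))) ≤ 12 * ε3 * Q * X := by
          refine le_trans ?_ hsumR'
          rw [← nsmul_eq_mul, ← sum_const]
          push_cast
          calc ∑ _N ∈ bad2, ε' / 2 * (Q / (4 * f)) ≤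
                ∑ N ∈ bad2, (((Icc 1 H).filter fun p => p.Prime ∧ R (N - p)).card : ℝ) := by
                  refine sum_le_sum fun N hN => ?_
                  rw [hbad2, mem_filter] at hN
                  exact hN.2.le
            _ ≤ _ := by
                  refine sum_le_sum_of_subset_of_nonneg ?_ fun _ _ _ => Nat.cast_nonneg _
                  rw [hbad2]
                  exact filter_subset _ _
        have e2 : 12 * ε3 * Q * X = ε' / 4 * X * (ε' / 2 * (Q / (4 * f))) := by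
          rw [hε3]
          field_simp
          norm_num
        rw [e2] at e1
        exact le_of_mul_le_mul_right e1 (by positivity)
      have hsub2 : (((Ioc X (2 * X)).filter fun N => Even N ∧ (1 + ε) * MZ k S H N < CZ k S H N).card : ℝ) ≤
          (H + bad.card) + bad2.card := by
        have hs : (Ioc X (2 * X)).filter (fun N => Even N ∧ (1 + ε) * MZ k S H N < CZ k S H N) ⊆
            (Ioc X (2 * X)).filter (fun N => (Even N ∧ (1 + ε) * MZ k S H N < CZ k S H N) ∧ N ∉ bad2) ∪ bad2 := by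
          intro N hN
          rw [mem_filter] at hN
          rw [mem_union, mem_filter]
          by_cases h1 : N ∈ bad2
          · exact Or.inr h1
          · exact Or.inl ⟨hN.1, hN.2, h1⟩
        have h1 := (card_le_card hs).trans (card_union_le _ _)
        have h2 : (((Ioc X (2 * X)).filter fun N => Even N ∧ (1 + ε) * MZ k S H N < CZ k S H N).card : ℝ) ≤
            (((Ioc X (2 * X)).filter fun N => (Even N ∧ (1 + ε) * MZ k S H N < CZ k S H N) ∧ N ∉ bad2).card : ℝ) + bad2.card := by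
          exact_mod_cast h1
        refine h2.trans (add_le_add ?_ le_rfl)
        refine hsub1 _ fun N hN1 hN2 hnb hP => ?_
        obtain ⟨⟨hev, h5⟩, h6⟩ := hP
        have h7 : (((Icc 1 H).filter fun p => p.Prime ∧ R (N - p)).card : ℝ) ≤ ε' / 2 * (Q / (4 * f)) := by
          by_contra h8
          rw [not_le] at h8
          refine h6 ?_
          rw [hbad2, mem_filter, mem_Ioc]
          exact ⟨⟨hN1, hN2⟩, h8⟩
        exact zm_a2 (hkey N hN1 hN2 hev hnb) (hCR N) h7 (hlow N hN1 hN2 hev) (hMZ0 N (by omega) hev) hε'ε hε'0 h5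
      refine hsub2.trans ?_
      have := hcov.2
      have h13 : ε' * X ≤ ε * X := mul_le_mul_of_nonneg_right hε'ε hX0.le
      have h14 : 0 ≤ ε' * X := mul_nonneg hε'0.le hX0.le
      linarith

end Pool.Agent.Lib.G9
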